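import Mathlib

/-!
# Counting cliques: basic tools
-/

open Finset Polynomial

namespace Pool.Agent.H23.KT

/-! ### Numbers -/

/-- The clique polynomial of a complete multipartite graph with `a` parts of size two and `b` parts
of size one. -/
noncomputable def P (a b : ℕ) : ℕ[X] := (1 + 2 * X) ^ a * (1 + X) ^ b

lemma P_zero (a b : ℕ) : (P a b).coeff 0 = 1 := by
  rw [coeff_zero_eq_eval_zero]
  simp [P]

lemma P_left (a b j : ℕ) :
    (P (a + 1) b).coeff (j + 1) = (P a b).coeff (j + 1) + 2 * (P a b).coeff j := by
  have h : P (a + 1) b = P a b + X * (2 * P a b) := by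
    unfold P; ring
  rw [h, coeff_add, coeff_X_mul, show (2 : ℕ[X]) = C 2 from rfl, coeff_C_mul]

lemma P_right (a b j : ℕ) :
    (P a (b + 1)).coeff (j + 1) = (P a b).coeff (j + 1) + (P a b).coeff j := by
  have h : P a (b + 1) = P a b + X * (P a b) := by
    unfold P; ring
  rw [h, coeff_add, coeff_X_mul]

lemma P_choose (b j : ℕ) : (P 0 b).coeff j = b.choose j := by
  unfold P
  rw [pow_zero, one_mul, coeff_one_add_X_pow]
  simp

/-- `E n r j` is the number of `j`-cliques of the Turán graph with `n` vertices and `r` parts,
`n ≤ 2 r`. -/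
noncomputable def E (n r j : ℕ) : ℕ := (P (n - r) (n - 2 * (n - r))).coeff j

lemma E_zero (n r : ℕ) : E n r 0 = 1 := P_zero _ _

lemma E_small {n r : ℕ} (h : n ≤ r) (j : ℕ) : E n r j = n.choose j := by
  unfold E
  rw [Nat.sub_eq_zero_of_le h]
  simpa using P_choose n j

lemma E_big {n r a b : ℕ} (h1 : n = 2 * a + b) (h2 : r = a + b) (j : ℕ) :
    E n r j = (P a b).coeff j := by
  unfold E
  have e1 : n - r = a := by omega
  have e2 : n - 2 * (n - r) = b := by omega
  rw [e2, e1]

lemma E_step (n r j : ℕ) (h : n + 2 ≤ 2 * (r + 1)) :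
    E (n + 1) (r + 1) (j + 1) + E n r j ≤ E (n + 2) (r + 1) (j + 1) := by
  rcases Nat.lt_or_ge n r with hn | hn
  · rw [E_small (by omega), E_small (by omega), E_small (by omega)]
    rw [Nat.choose_succ_succ (n + 1) j]
    have := Nat.choose_le_choose j (Nat.le_succ n)
    simp only [Nat.succ_eq_add_one] at this ⊢
    omega
  · obtain ⟨a, rfl⟩ : ∃ a, n = r + a := ⟨n - r, by omega⟩
    obtain ⟨b, rfl⟩ : ∃ b, r = a + b := ⟨r - a, by omega⟩
    rw [E_big (a := a) (b := b + 1) (by ring) (by ring),
      E_big (a := a) (b := b) (by ring) (by ring),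
      E_big (a := a + 1) (b := b) (by ring) (by ring), P_left, P_right]
    omega

lemma E_mono_one (n r j : ℕ) (h : n + 1 ≤ 2 * r) : E n r j ≤ E (n + 1) r j := by
  rcases j with _ | j
  · rw [E_zero, E_zero]
  rcases n with _ | n
  · rw [E_small (by omega)]
    simp
  · obtain ⟨r, rfl⟩ : ∃ r', r = r' + 1 := ⟨r - 1, by omega⟩
    exact le_trans (Nat.le_add_right _ _) (E_step n r j (by omega))

lemma E_mono {n m r : ℕ} (hnm : n ≤ m) (h : m ≤ 2 * r) (j : ℕ) : E n r j ≤ E m r j := by
  induction m, hnm using Nat.le_induction with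
  | base => exact le_rfl
  | succ m hm ih => exact (ih (by omega)).trans (E_mono_one m r j h)

lemma E_cone (n r j : ℕ) (h : n ≤ 2 * r) :
    E (n + 1) (r + 1) (j + 1) = E n r (j + 1) + E n r j := by
  rcases Nat.lt_or_ge n r with hn | hn
  · rw [E_small (by omega), E_small (by omega), E_small (by omega), Nat.choose_succ_succ]
    simp only [Nat.succ_eq_add_one]
    omega
  · obtain ⟨a, rfl⟩ : ∃ a, n = r + a := ⟨n - r, by omega⟩
    obtain ⟨b, rfl⟩ : ∃ b, r = a + b := ⟨r - a, by omega⟩
    rw [E_big (a := a) (b := b + 1) (by ring) (by ring),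
      E_big (a := a) (b := b) (by ring) (by ring),
      E_big (a := a) (b := b) (by ring) (by ring), P_right]

lemma E_four (n r j : ℕ) (h : n + 1 ≤ 2 * r) :
    E n r (j + 1) + 2 * E n r j ≤ E (n + 1) r (j + 1) + E (n + 1) r j := by
  rcases Nat.lt_or_ge n r with hn | hn
  · rw [E_small (by omega), E_small (by omega), E_small (by omega), E_small (by omega),
      Nat.choose_succ_succ]
    have := Nat.choose_le_choose j (Nat.le_succ n)
    simp only [Nat.succ_eq_add_one] at this ⊢
    omega
  · obtain ⟨a, rfl⟩ : ∃ a, n = r + a := ⟨n - r, by omega⟩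
    obtain ⟨b, rfl⟩ : ∃ b, r = a + 1 + b := ⟨r - a - 1, by omega⟩
    rw [E_big (a := a) (b := b + 1) (by ring) (by ring),
      E_big (a := a) (b := b + 1) (by ring) (by ring),
      E_big (a := a + 1) (b := b) (by ring) (by ring),
      E_big (a := a + 1) (b := b) (by ring) (by ring), P_left, P_right]
    rcases j with _ | j
    · rw [P_zero, P_zero, P_zero]
    · rw [P_left, P_right]
      omega

/-- Coefficientwise comparison of `P a (b + 1)` and `P (a + 1) b`. -/
lemma P_swap (a b j : ℕ) : (P a (b + 1)).coeff j ≤ (P (a + 1) b).coeff j := by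
  rcases j with _ | j
  · rw [P_zero, P_zero]
  · rw [P_left, P_right]
    omega

lemma P_deriv (a b j : ℕ) : (2 * (a + 1) + b) * (P a b).coeff j
    ≤ (j + 1) * (P (a + 1) b).coeff (j + 1) := by
  have h1 : derivative (P (a + 1) b) = ((2 * (a + 1) : ℕ) : ℕ[X]) * P a b
      + (b : ℕ[X]) * ((1 + 2 * X) ^ (a + 1) * (1 + X) ^ (b - 1)) := by
    unfold P
    rw [derivative_mul, derivative_pow, derivative_pow]
    simp only [map_add, derivative_one, derivative_mul, derivative_X, zero_add,
      mul_one, Nat.add_sub_cancel, derivative_ofNat, zero_mul, map_natCast]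
    push_cast
    ring
  have h2 : (derivative (P (a + 1) b)).coeff j = (P (a + 1) b).coeff (j + 1) * (j + 1) := by
    rw [coeff_derivative]
    simp
  rw [mul_comm (j + 1), ← h2, h1, coeff_add, coeff_natCast_mul, coeff_natCast_mul, add_mul]
  apply Nat.add_le_add_left
  rcases b with _ | b
  · simp
  · apply Nat.mul_le_mul_left
    exact P_swap a b j

lemma E_five (t Δ ω : ℕ) (hω : ω ≤ Δ + 1) (h2 : Δ + 1 ≤ 2 * ω) (hΔ : 1 ≤ Δ) :
    (Δ + 1) * E (Δ - 1) (ω - 1) t ≤ (t + 1) * E (Δ + 1) ω (t + 1) := by
  rcases Nat.eq_or_lt_of_le hω with h | h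
  · subst h
    rw [E_small (by omega), E_small (by omega)]
    have h3 := Nat.add_one_mul_choose_eq Δ t
    have h4 := Nat.choose_le_choose t (show Δ - 1 ≤ Δ by omega)
    calc (Δ + 1) * (Δ - 1).choose t ≤ (Δ + 1) * Δ.choose t := Nat.mul_le_mul_left _ h4
      _ = (t + 1) * (Δ + 1).choose (t + 1) := by rw [h3]; ring
  · obtain ⟨a, ha⟩ : ∃ a, Δ + 1 = ω + (a + 1) := ⟨Δ - ω, by omega⟩
    obtain ⟨b, rfl⟩ : ∃ b, ω = a + 1 + b := ⟨ω - a - 1, by omega⟩
    rw [E_big (a := a) (b := b) (by omega) (by omega),
      E_big (a := a + 1) (b := b) (by omega) (by omega), ha]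
    have := P_deriv a b t
    calc (a + 1 + b + (a + 1)) * (P a b).coeff t = (2 * (a + 1) + b) * (P a b).coeff t := by ring
      _ ≤ _ := this

/-! ### Counting cliques inside a set of vertices -/

section kc

open Classical in
/-- The number of `j`-cliques of `G` contained in `W`. -/
noncomputable def kc {V : Type*} (G : SimpleGraph V) (W : Finset V) (j : ℕ) : ℕ :=
  ((W.powersetCard j).filter (fun S : Finset V => G.IsClique (S : Set V))).card

/-- All cliques of `G` contained in `W` have at most `r` vertices. -/
def CB {V : Type*} (G : SimpleGraph V) (W : Finset V) (r : ℕ) : Prop :=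
  ∀ S : Finset V, S ⊆ W → G.IsClique (S : Set V) → S.card ≤ r

open Classical in
/-- Neighbours of `x` in `W`. -/
noncomputable def nb {V : Type*} (G : SimpleGraph V) (W : Finset V) (x : V) : Finset V :=
  W.filter (fun y => G.Adj x y)

variable {V : Type*} [DecidableEq V] (G : SimpleGraph V)

omit [DecidableEq V] in
lemma mem_nb {W : Finset V} {x y : V} : y ∈ nb G W x ↔ y ∈ W ∧ G.Adj x y := by
  classical
  unfold nb
  rw [mem_filter]

omit [DecidableEq V] in
lemma nb_subset (W : Finset V) (x : V) : nb G W x ⊆ W := fun _ hy => ((mem_nb G).1 hy).1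

omit [DecidableEq V] in
lemma kc_zero (W : Finset V) : kc G W 0 = 1 := by
  classical
  unfold kc
  rw [powersetCard_zero, filter_singleton]
  simp

omit [DecidableEq V] in
lemma kc_mono {W W' : Finset V} (h : W ⊆ W') (j : ℕ) : kc G W j ≤ kc G W' j := by
  classical
  unfold kc
  exact card_le_card (filter_subset_filter _ (powersetCard_mono h))

omit [DecidableEq V] in
lemma kc_le_choose (W : Finset V) (j : ℕ) : kc G W j ≤ W.card.choose j := by
  classical
  unfold kc
  rw [← card_powersetCard]
  exact card_le_card (filter_subset _ _)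

omit [DecidableEq V] in
lemma kc_eq_zero {W : Finset V} {j : ℕ} (h : W.card < j) : kc G W j = 0 := by
  have := kc_le_choose G W j
  rw [Nat.choose_eq_zero_of_lt h] at this
  omega

omit [DecidableEq V] in
lemma kc_pos {W : Finset V} {j : ℕ} (h : kc G W j ≠ 0) :
    ∃ S : Finset V, S ⊆ W ∧ S.card = j ∧ G.IsClique (S : Set V) := by
  classical
  unfold kc at h
  obtain ⟨S, hS⟩ := card_ne_zero.1 h
  rw [mem_filter, mem_powersetCard] at hS
  exact ⟨S, hS.1.1, hS.1.2, hS.2⟩

lemma kc_succ {W : Finset V} {x : V} (hx : x ∈ W) (j : ℕ) :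
    kc G W (j + 1) = kc G (W.erase x) (j + 1) + kc G (nb G W x) j := by
  classical
  unfold kc
  rw [← card_filter_add_card_filter_not (fun S : Finset V => x ∉ S)]
  congr 1
  · congr 1
    ext S
    simp only [mem_filter, mem_powersetCard, subset_erase]
    tauto
  · refine card_bij' (fun S _ => S.erase x) (fun T _ => insert x T) ?_ ?_ ?_ ?_
    · intro S hS
      simp only [mem_filter, mem_powersetCard, not_not] at hS ⊢
      obtain ⟨⟨⟨hSW, hSc⟩, hcl⟩, hxS⟩ := hS
      refine ⟨⟨?_, ?_⟩, ?_⟩
      · intro y hy
        rw [mem_erase] at hy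
        rw [mem_nb]
        exact ⟨hSW hy.2, hcl (mem_coe.2 hxS) (mem_coe.2 hy.2) (Ne.symm hy.1)⟩
      · rw [card_erase_of_mem hxS, hSc]
        rfl
      · exact hcl.subset (by
          intro y hy
          exact mem_coe.2 (mem_of_mem_erase (mem_coe.1 hy)))
    · intro T hT
      simp only [mem_filter, mem_powersetCard, not_not] at hT ⊢
      obtain ⟨⟨hTW, hTc⟩, hcl⟩ := hT
      have hxT : x ∉ T := by
        intro h
        exact G.loopless.irrefl x ((mem_nb G).1 (hTW h)).2
      refine ⟨⟨⟨?_, ?_⟩, ?_⟩, mem_insert_self _ _⟩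
      · intro y hy
        rcases mem_insert.1 hy with rfl | hy
        · exact hx
        · exact nb_subset G W x (hTW hy)
      · rw [card_insert_of_notMem hxT, hTc]
      · rw [coe_insert, SimpleGraph.isClique_insert]
        exact ⟨hcl, fun y hy _ => ((mem_nb G).1 (hTW (mem_coe.1 hy))).2⟩
    · intro S hS
      simp only [mem_filter, mem_powersetCard, not_not] at hS
      exact insert_erase hS.2
    · intro T hT
      simp only [mem_filter, mem_powersetCard] at hT
      apply erase_insert
      intro h
      exact G.loopless.irrefl x ((mem_nb G).1 (hT.1.1 h)).2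

omit [DecidableEq V] in
lemma CB.mono {G : SimpleGraph V} {W W' : Finset V} {r : ℕ} (h : CB G W' r) (hs : W ⊆ W') :
    CB G W r := fun S hS hc => h S (hS.trans hs) hc

lemma CB.nb {G : SimpleGraph V} {W : Finset V} {r : ℕ} (h : CB G W (r + 1)) {x : V}
    (hx : x ∈ W) : CB G (KT.nb G W x) r := by
  intro S hS hc
  have hxS : x ∉ S := by
    intro h
    exact G.loopless.irrefl x ((mem_nb G).1 (hS h)).2
  have h1 := h (insert x S) (by
    intro y hy
    rcases mem_insert.1 hy with rfl | hy
    · exact hx
    · exact nb_subset G W x (hS hy)) (by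
    rw [coe_insert, SimpleGraph.isClique_insert]
    exact ⟨hc, fun y hy _ => ((mem_nb G).1 (hS (mem_coe.1 hy))).2⟩)
  rw [card_insert_of_notMem hxS] at h1
  omega

omit [DecidableEq V] in
lemma CB.pos {G : SimpleGraph V} {W : Finset V} {r : ℕ} (h : CB G W r) {x : V}
    (hx : x ∈ W) : 1 ≤ r := by
  have := h {x} (by simpa using hx) (by simp)
  simpa using this

omit [DecidableEq V] in
lemma kc_eq_zero_of_CB {G : SimpleGraph V} {W : Finset V} {r j : ℕ} (h : CB G W r)
    (hj : r < j) : kc G W j = 0 := by
  by_contra h0
  obtain ⟨S, hS, hc, hcl⟩ := kc_pos G h0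
  have := h S hS hcl
  omega

lemma card_nb_lt {W : Finset V} {x : V} (hx : x ∈ W) : (nb G W x).card + 1 ≤ W.card := by
  have h1 : nb G W x ⊆ W.erase x := by
    intro y hy
    rw [mem_erase]
    refine ⟨?_, nb_subset G W x hy⟩
    rintro rfl
    exact G.loopless.irrefl y ((mem_nb G).1 hy).2
  have h2 := card_le_card h1
  have h3 := card_erase_add_one hx
  omega

/-- Zykov's bound for at most `2 r` vertices. -/
lemma zykov {G : SimpleGraph V} : ∀ (n : ℕ) (W : Finset V), W.card = n → ∀ r j : ℕ, CB G W r →
    n ≤ 2 * r → kc G W j ≤ E n r j := by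
  intro n
  induction n using Nat.strong_induction_on with
  | _ n ih =>
    intro W hW r j hCB hn
    rcases j with _ | j
    · rw [kc_zero, E_zero]
    by_cases hcl : G.IsClique (W : Set V)
    · have h1 := hCB W Subset.rfl hcl
      rw [E_small (by omega), ← hW]
      exact kc_le_choose G W (j + 1)
    · -- a vertex with a non-neighbour
      rw [SimpleGraph.isClique_iff, Set.Pairwise] at hcl
      push Not at hcl
      obtain ⟨x, hx, y, hy, hxy, hadj⟩ := hcl
      have hx' : x ∈ W := mem_coe.1 hx
      have hy' : y ∈ W := mem_coe.1 hy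
      obtain ⟨r, rfl⟩ : ∃ r', r = r' + 1 := ⟨r - 1, by have := hCB.pos hx'; omega⟩
      have hc1 := card_erase_add_one hx'
      have hnb : (nb G W x).card + 2 ≤ n := by
        have h1 : nb G W x ⊆ (W.erase x).erase y := by
          intro z hz
          have hz' := (mem_nb G).1 hz
          rw [mem_erase, mem_erase]
          refine ⟨?_, ?_, hz'.1⟩
          · rintro rfl
            exact hadj hz'.2
          · rintro rfl
            exact G.loopless.irrefl z hz'.2
        have h2 := card_le_card h1
        have h3 := card_erase_add_one (mem_erase.2 ⟨Ne.symm hxy, hy'⟩)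
        omega
      obtain ⟨m, rfl⟩ : ∃ m, n = m + 2 := ⟨n - 2, by omega⟩
      rw [kc_succ G hx' j]
      have e1 := ih (m + 1) (by omega) (W.erase x) (by omega) (r + 1) (j + 1)
        (hCB.mono (erase_subset _ _)) (by omega)
      have e2 := ih (nb G W x).card (by omega) (nb G W x) rfl r j (hCB.nb hx') (by omega)
      have e3 := E_mono (show (nb G W x).card ≤ m by omega) (show m ≤ 2 * r by omega) j
      have e4 := E_step m r j (by omega)
      omega

lemma zykov_le {G : SimpleGraph V} {W : Finset V} {n r : ℕ} (j : ℕ) (h : CB G W r)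
    (hW : W.card ≤ n) (hn : n ≤ 2 * r) : kc G W j ≤ E n r j :=
  (zykov _ W rfl r j h (by omega)).trans (E_mono hW hn j)

lemma nb_erase_card {W : Finset V} {x u : V} (hx : x ∈ W) (h : G.Adj u x) :
    (nb G (W.erase x) u).card + 1 = (nb G W u).card := by
  have h1 : nb G (W.erase x) u = (nb G W u).erase x := by
    ext y
    simp only [mem_nb, mem_erase]
    tauto
  rw [h1]
  exact card_erase_add_one ((mem_nb G).2 ⟨hx, h⟩)

/-- Case `c ≥ 2` of the main lemma. -/
lemma lemC {G : SimpleGraph V} (c : ℕ) (hc : 2 ≤ c) : ∀ (b : ℕ) (W B : Finset V) (r j : ℕ),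
    B.card = b + 1 → CB G W r → B ⊆ W → G.IsClique (B : Set V) →
    (∀ u ∈ B, (nb G W u).card + 1 + c ≤ W.card) → W.card + 2 ≤ B.card + c + j →
    W.card ≤ 2 * r → kc G W j ≤ E (W.card - 1) r j := by
  intro b
  induction b with
  | zero =>
    intro W B r j hb hCB hBW hcl hdeg hcard hr
    obtain ⟨x, hx⟩ := card_pos.1 (show 0 < B.card by omega)
    have hxW := hBW hx
    have hd := hdeg x hx
    obtain ⟨j, rfl⟩ : ∃ j', j = j' + 1 := ⟨j - 1, by omega⟩
    have h1 := card_erase_add_one hxW
    rw [kc_succ G hxW j, kc_eq_zero G (show (nb G W x).card < j by omega), add_zero]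
    exact zykov_le _ (hCB.mono (erase_subset _ _)) (by omega) (by omega)
  | succ b ih =>
    intro W B r j hb hCB hBW hcl hdeg hcard hr
    obtain ⟨x, hx⟩ := card_pos.1 (show 0 < B.card by omega)
    have hxW := hBW hx
    have hd := hdeg x hx
    rcases j with _ | j
    · rw [kc_zero, E_zero]
    obtain ⟨r, rfl⟩ : ∃ r', r = r' + 1 := ⟨r - 1, by have := hCB.pos hxW; omega⟩
    have h1 := card_erase_add_one hxW
    have h2 := card_erase_add_one hx
    obtain ⟨m, hm⟩ : ∃ m, W.card = m + 3 := ⟨W.card - 3, by omega⟩
    rw [kc_succ G hxW j]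
    have e1 := ih (W.erase x) (B.erase x) (r + 1) (j + 1) (by omega)
      (hCB.mono (erase_subset _ _)) (erase_subset_erase _ hBW)
      (hcl.subset (by
          intro y hy
          exact mem_coe.2 (mem_of_mem_erase (mem_coe.1 hy))))
      (by
        intro u hu
        rw [mem_erase] at hu
        have h3 := hdeg u hu.2
        have h4 := nb_erase_card G hxW (hcl (mem_coe.2 hu.2) (mem_coe.2 hx) hu.1)
        omega) (by omega) (by omega)
    rw [show (W.erase x).card - 1 = m + 1 by omega] at e1
    have e2 := zykov_le (n := m) j (hCB.nb hxW) (by omega) (by omega)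
    have e3 := E_step m r j (by omega)
    rw [show W.card - 1 = m + 2 by omega]
    omega

/-- Case `c = 1` of the main lemma. -/
lemma lemP {G : SimpleGraph V} : ∀ (n : ℕ) (W : Finset V), W.card = n → ∀ (B : Finset V)
    (r j : ℕ), CB G W r → B ⊆ W → G.IsClique (B : Set V) →
    (∀ u ∈ B, (nb G W u).card + 2 ≤ n) → n + 1 ≤ B.card + j → n ≤ 2 * r →
    kc G W j ≤ E (n - 1) r j := by
  classical
  intro n
  induction n using Nat.strong_induction_on with
  | _ n ih =>
    intro W hW B r j hCB hBW hcl hdeg hcard hr
    rcases j with _ | j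
    · rw [kc_zero, E_zero]
    rcases B.eq_empty_or_nonempty with hB | ⟨x, hx⟩
    · rw [hB, card_empty] at hcard
      rw [kc_eq_zero G (show W.card < j + 1 by omega)]
      exact Nat.zero_le _
    by_cases hα : ∃ x ∈ B, (nb G W x).card + 3 ≤ n
    · obtain ⟨x, hx, hx3⟩ := hα
      have hxW := hBW hx
      obtain ⟨r, rfl⟩ : ∃ r', r = r' + 1 := ⟨r - 1, by have := hCB.pos hxW; omega⟩
      have h1 := card_erase_add_one hxW
      have h2 := card_erase_add_one hx
      obtain ⟨m, rfl⟩ : ∃ m, n = m + 3 := ⟨n - 3, by omega⟩
      rw [kc_succ G hxW j]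
      have e1 := ih (m + 2) (by omega) (W.erase x) (by omega) (B.erase x) (r + 1) (j + 1)
        (hCB.mono (erase_subset _ _)) (erase_subset_erase _ hBW)
        (hcl.subset (by
            intro y hy
            exact mem_coe.2 (mem_of_mem_erase (mem_coe.1 hy))))
        (by
          intro u hu
          rw [mem_erase] at hu
          have h3 := hdeg u hu.2
          have h4 := nb_erase_card G hxW (hcl (mem_coe.2 hu.2) (mem_coe.2 hx) hu.1)
          omega) (by omega) (by omega)
      rw [show m + 2 - 1 = m + 1 by omega] at e1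
      have e2 := zykov_le (n := m) j (hCB.nb hxW) (by omega) (by omega)
      have e3 := E_step m r j (by omega)
      rw [show m + 3 - 1 = m + 2 by omega]
      omega
    push Not at hα
    have hxW := hBW hx
    -- the non-neighbour of `x`
    obtain ⟨w, hw1, hw2⟩ : ∃ w ∈ W.erase x, w ∉ nb G W x := by
      by_contra hcon
      push Not at hcon
      have h1 := card_le_card hcon
      have h2 := card_erase_add_one hxW
      have h3 := hdeg x hx
      omega
    rw [mem_erase] at hw1
    obtain ⟨hwx, hwW⟩ := hw1
    have hxw : ¬ G.Adj x w := fun h => hw2 ((mem_nb G).2 ⟨hwW, h⟩)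
    have hwB : w ∉ B := fun h => hxw (hcl (mem_coe.2 hx) (mem_coe.2 h) (Ne.symm hwx))
    have hadj : ∀ u ∈ B, ¬ G.Adj u w → ∀ y ∈ W, y ≠ u → y ≠ w → G.Adj u y := by
      intro u hu huw y hy hyu hyw
      have huw' : w ≠ u := by
        rintro rfl
        exact hwB hu
      have h1 : nb G W u ⊆ (W.erase u).erase w := by
        intro z hz
        have hz' := (mem_nb G).1 hz
        rw [mem_erase, mem_erase]
        refine ⟨?_, ?_, hz'.1⟩
        · rintro rfl
          exact huw hz'.2
        · rintro rfl
          exact G.loopless.irrefl z hz'.2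
      have h2 := card_erase_add_one (hBW hu)
      have h3 := card_erase_add_one (mem_erase.2 ⟨huw', hwW⟩)
      have h4 := hα u hu
      have h5 := eq_of_subset_of_card_le h1 (by omega)
      have h6 : y ∈ nb G W u := by
        rw [h5, mem_erase, mem_erase]
        exact ⟨hyw, hyu, hy⟩
      exact ((mem_nb G).1 h6).2
    set L := B.filter (fun u => ¬ G.Adj u w) with hL
    have hxL : x ∈ L := by
      rw [hL, mem_filter]
      exact ⟨hx, hxw⟩
    have hLB : L ⊆ B := filter_subset _ _
    have hLW : L ⊆ W.erase w := by
      intro u hu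
      rw [mem_erase]
      refine ⟨?_, hBW (hLB hu)⟩
      rintro rfl
      exact hwB (hLB hu)
    have hLadj : ∀ u ∈ L, ∀ y ∈ W, y ≠ u → y ≠ w → G.Adj u y := by
      intro u hu
      rw [hL, mem_filter] at hu
      exact hadj u hu.1 hu.2
    set W'' := (W.erase w) \ L with hW''
    have hW''W : W'' ⊆ W := (sdiff_subset).trans (erase_subset _ _)
    have hunion : W'' ∪ L = W.erase w := by
      rw [hW'']
      exact sdiff_union_of_subset hLW
    have hnbw : nb G W w ⊆ W'' := by
      intro y hy
      have hy' := (mem_nb G).1 hy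
      rw [hW'', mem_sdiff, mem_erase]
      refine ⟨⟨?_, hy'.1⟩, ?_⟩
      · rintro rfl
        exact G.loopless.irrefl y hy'.2
      · intro h
        rw [hL, mem_filter] at h
        exact h.2 hy'.2.symm
    have hcw := card_erase_add_one hwW
    have hcW'' : W''.card + L.card = (W.erase w).card := by
      rw [hW'']
      exact card_sdiff_add_card_eq_card hLW
    rw [kc_succ G hwW j]
    have hm1 := kc_mono G hnbw j
    by_cases h0 : kc G W'' j = 0
    · have := zykov_le (n := n - 1) (j + 1) (hCB.mono (erase_subset w W)) (by omega) (by omega)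
      omega
    obtain ⟨S, hSW, hSc, hScl⟩ := kc_pos G h0
    -- clique bound in `W''`
    have hCBL : ∀ S : Finset V, S ⊆ W'' → G.IsClique (S : Set V) → S.card + L.card ≤ r := by
      intro S hS hScl
      have h1 := hCB (S ∪ L) (union_subset (hS.trans hW''W) (hLB.trans hBW)) (by
        intro a ha b hb hab
        rw [mem_coe, mem_union] at ha hb
        rcases ha with ha | ha
        · rcases hb with hb | hb
          · exact hScl (mem_coe.2 ha) (mem_coe.2 hb) hab
          · have h2 := hS ha
            rw [hW'', mem_sdiff, mem_erase] at h2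
            exact (hLadj b hb a h2.1.2 hab h2.1.1).symm
        · rcases hb with hb | hb
          · have h2 := hS hb
            rw [hW'', mem_sdiff, mem_erase] at h2
            exact hLadj a ha b h2.1.2 (Ne.symm hab) h2.1.1
          · exact hcl (mem_coe.2 (hLB ha)) (mem_coe.2 (hLB hb)) hab)
      rwa [card_union_of_disjoint (by
        rw [disjoint_left]
        intro y hy hyL
        have := hS hy
        rw [hW'', mem_sdiff] at this
        exact this.2 hyL)] at h1
    have hSr := hCBL S hSW hScl
    obtain ⟨r', rfl⟩ : ∃ r', r = r' + L.card := ⟨r - L.card, by omega⟩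
    have hCB'' : CB G W'' r' := by
      intro T hT hTcl
      have := hCBL T hT hTcl
      omega
    -- the remaining part of `B`
    have hB''sub : B \ L ⊆ W'' := by
      intro u hu
      rw [mem_sdiff] at hu
      rw [hW'', mem_sdiff, mem_erase]
      refine ⟨⟨?_, hBW hu.1⟩, hu.2⟩
      rintro rfl
      exact hwB hu.1
    have hB''card : (B \ L).card + L.card = B.card := card_sdiff_add_card_eq_card hLB
    have hB''le : (B \ L).card ≤ r' := hCB'' _ hB''sub (hcl.subset (by
      intro y hy
      exact mem_coe.2 (mem_sdiff.1 (mem_coe.1 hy)).1))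
    have hLpos : 0 < L.card := card_pos.2 ⟨x, hxL⟩
    have hB''le2 : (B \ L).card ≤ W''.card := card_le_card hB''sub
    have hdeg'' : ∀ u ∈ B \ L, (nb G W'' u).card + 2 ≤ W''.card := by
      intro u hu
      rw [mem_sdiff] at hu
      -- the neighbours of `u` in `W` are those in `W''`, those in `L`, and `w`
      have h1 := hdeg u hu.1
      have huw : G.Adj u w := by
        by_contra h
        exact hu.2 (by rw [hL, mem_filter]; exact ⟨hu.1, h⟩)
      have h2 : nb G W'' u ∪ (insert w L) ⊆ nb G W u := by
        intro y hy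
        rw [mem_union, mem_insert] at hy
        rw [mem_nb]
        rcases hy with hy | rfl | hy
        · have := (mem_nb G).1 hy
          exact ⟨hW''W this.1, this.2⟩
        · exact ⟨hwW, huw⟩
        · refine ⟨hBW (hLB hy), hcl (mem_coe.2 hu.1) (mem_coe.2 (hLB hy)) ?_⟩
          rintro rfl
          exact hu.2 hy
      have h3 := card_le_card h2
      rw [card_union_of_disjoint (by
        rw [disjoint_left]
        intro y hy hyL
        have h4 := nb_subset G W'' u hy
        rw [hW'', mem_sdiff, mem_erase] at h4
        rcases mem_insert.1 hyL with h5 | h5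
        · exact h4.1.1 h5
        · exact h4.2 h5), card_insert_of_notMem (by
        intro h
        exact hwB (hLB h))] at h3
      omega
    have hcl'' : G.IsClique ((B \ L : Finset V) : Set V) := hcl.subset (by
      intro y hy
      exact mem_coe.2 (mem_sdiff.1 (mem_coe.1 hy)).1)
    obtain ⟨m, hm⟩ : ∃ m, W''.card = m + 1 := by
      refine ⟨W''.card - 1, ?_⟩
      rcases Nat.eq_zero_or_pos W''.card with h | h
      · exfalso
        have h1 := card_le_card hSW
        omega
      · omega
    have e1 := ih W''.card (by omega) W'' rfl (B \ L) r' j hCB'' hB''sub hcl'' hdeg''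
      (by omega) (by omega)
    have e2 := ih W''.card (by omega) W'' rfl (B \ L) r' (j + 1) hCB'' hB''sub hcl'' hdeg''
      (by omega) (by omega)
    rw [hm, Nat.add_sub_cancel] at e1 e2
    -- add the vertices of `L` one by one
    have key : ∀ L' : Finset V, L' ⊆ L → L'.Nonempty →
        kc G (W'' ∪ L') (j + 1) + kc G W'' j ≤ E (m + 1 + L'.card) (r' + L'.card) (j + 1) := by
      intro L'
      induction L' using Finset.induction_on with
      | empty =>
        intro _ h
        exact absurd h not_nonempty_empty
      | insert u L' huL' ihL =>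
        intro hsub _
        have huL : u ∈ L := hsub (mem_insert_self _ _)
        have hL'L : L' ⊆ L := (subset_insert _ _).trans hsub
        have huW : u ∉ W'' := by
          rw [hW'', mem_sdiff]
          exact fun h => h.2 huL
        have hu_not : u ∉ W'' ∪ L' := by
          rw [mem_union]
          rintro (h | h)
          · exact huW h
          · exact huL' h
        have hins : W'' ∪ insert u L' = insert u (W'' ∪ L') := union_insert _ _ _
        have hnbu : nb G (insert u (W'' ∪ L')) u = W'' ∪ L' := by
          ext y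
          rw [mem_nb, mem_insert]
          constructor
          · rintro ⟨h | h, hadj'⟩
            · subst h
              exact absurd hadj' (G.loopless.irrefl y)
            · exact h
          · intro h
            refine ⟨Or.inr h, ?_⟩
            have hyW : y ∈ W ∧ y ≠ w := by
              rcases mem_union.1 h with h | h
              · rw [hW'', mem_sdiff, mem_erase] at h
                exact ⟨h.1.2, h.1.1⟩
              · have := hLW (hL'L h)
                rw [mem_erase] at this
                exact ⟨this.2, this.1⟩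
            refine hLadj u huL y hyW.1 ?_ hyW.2
            rintro rfl
            exact hu_not h
        rw [hins, kc_succ G (mem_insert_self u (W'' ∪ L')) j, hnbu, erase_insert hu_not,
          card_insert_of_notMem huL']
        rcases L'.eq_empty_or_nonempty with hL' | hL'
        · subst hL'
          rw [union_empty, card_empty]
          have e3 := E_four m r' j (by omega)
          have e4 := E_cone (m + 1) r' j (by omega)
          rw [show m + 1 + (0 + 1) = m + 1 + 1 by ring, show r' + (0 + 1) = r' + 1 by ring, e4]
          omega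
        · have e3 := ihL hL'L hL'
          have e4 := E_cone (m + 1 + L'.card) (r' + L'.card) j (by omega)
          have hCB3 : CB G (W'' ∪ L') (r' + L'.card) := by
            intro T hT hTcl
            have h1 := hCB'' (T \ L') (by
              intro y hy
              rw [mem_sdiff] at hy
              rcases mem_union.1 (hT hy.1) with h | h
              · exact h
              · exact absurd h hy.2) (hTcl.subset (by
              intro y hy
              exact mem_coe.2 (mem_sdiff.1 (mem_coe.1 hy)).1))
            have h2 : T.card ≤ (T \ L').card + L'.card := by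
              have := le_card_sdiff L' T
              omega
            omega
          have hcu : (W'' ∪ L').card ≤ m + 1 + L'.card := by
            have := card_union_le W'' L'
            omega
          have e5 := zykov_le (n := m + 1 + L'.card) j hCB3 hcu (by omega)
          rw [show m + 1 + (L'.card + 1) = m + 1 + L'.card + 1 by ring,
            show r' + (L'.card + 1) = r' + L'.card + 1 by ring, e4]
          omega
    have hfin := key L Subset.rfl ⟨x, hxL⟩
    rw [hunion, show m + 1 + L.card = n - 1 by omega] at hfin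
    omega

lemma kc_mem {W : Finset V} {x : V} (hx : x ∈ W) (j : ℕ) [DecidablePred fun S : Finset V => x ∈ S]
    [DecidablePred fun S : Finset V => G.IsClique (S : Set V)] :
    (((W.powersetCard (j + 1)).filter (fun S : Finset V => G.IsClique (S : Set V))).filter
      (fun S : Finset V => x ∈ S)).card = kc G (nb G W x) j := by
  classical
  have h1 := kc_succ G hx j
  have h2 : kc G W (j + 1) = (((W.powersetCard (j + 1)).filter
      (fun S : Finset V => G.IsClique (S : Set V))).filter (fun S : Finset V => x ∈ S)).card
      + (((W.powersetCard (j + 1)).filter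
      (fun S : Finset V => G.IsClique (S : Set V))).filter (fun S : Finset V => x ∉ S)).card := by
    unfold kc
    rw [card_filter_add_card_filter_not]
    congr!
  have h3 : kc G (W.erase x) (j + 1) = (((W.powersetCard (j + 1)).filter
      (fun S : Finset V => G.IsClique (S : Set V))).filter (fun S : Finset V => x ∉ S)).card := by
    unfold kc
    congr 1
    ext S
    simp only [mem_filter, mem_powersetCard, subset_erase]
    tauto
  omega

/-- Double counting of pairs (vertex, clique containing it). -/
lemma kc_sum (W : Finset V) (j : ℕ) :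
    ∑ v ∈ W, kc G (nb G W v) j = (j + 1) * kc G W (j + 1) := by
  classical
  have h1 : ∑ v ∈ W, kc G (nb G W v) j = ∑ v ∈ W, ∑ S ∈ (W.powersetCard (j + 1)).filter
      (fun S : Finset V => G.IsClique (S : Set V)), if v ∈ S then 1 else 0 := by
    refine sum_congr rfl (fun v hv => ?_)
    rw [← kc_mem G hv j, card_filter]
  rw [h1, sum_comm]
  have h2 : ∀ S ∈ (W.powersetCard (j + 1)).filter
      (fun S : Finset V => G.IsClique (S : Set V)), (∑ v ∈ W, if v ∈ S then 1 else 0) = j + 1 := by
    intro S hS
    rw [mem_filter, mem_powersetCard] at hS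
    rw [← card_filter, filter_mem_eq_inter, inter_eq_right.2 hS.1.1, hS.1.2]
  rw [sum_congr rfl h2, sum_const, smul_eq_mul, mul_comm]
  congr 1
  unfold kc
  congr!

omit [DecidableEq V] in
lemma kc_le_add {U N U' : Finset V} {j : ℕ} (h : ∀ A : Finset V, A ⊆ U → A.card = j →
    G.IsClique (A : Set V) → A ⊆ N ∨ A ⊆ U') : kc G U j ≤ kc G N j + kc G U' j := by
  classical
  unfold kc
  refine (card_le_card ?_).trans (card_union_le _ _)
  intro A hA
  rw [mem_filter, mem_powersetCard] at hA
  rw [mem_union, mem_filter, mem_filter, mem_powersetCard, mem_powersetCard]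
  rcases h A hA.1.1 hA.1.2 hA.2 with h | h
  · exact Or.inl ⟨⟨h, hA.1.2⟩, hA.2⟩
  · exact Or.inr ⟨⟨h, hA.1.2⟩, hA.2⟩

/-- The main bound. -/
lemma main_bound {G : SimpleGraph V} (Δ ω j : ℕ) (hj : 2 ≤ j) (hω : ω ≤ Δ + 1)
    (hjω : j + 1 ≤ ω) (hΔ : Δ + 3 ≤ 2 * (j + 1)) : ∀ (n : ℕ) (U : Finset V), U.card = n →
    CB G U ω → (∀ v ∈ U, (nb G U v).card ≤ Δ) →
    kc G U (j + 1) * (Δ + 1) ≤ E (Δ + 1) ω (j + 1) * n := by
  classical
  intro n
  induction n using Nat.strong_induction_on with
  | _ n ih =>
    intro U hU hCB hdeg
    obtain ⟨r, rfl⟩ : ∃ r, ω = r + 1 := ⟨ω - 1, by omega⟩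
    by_cases hall : ∀ v ∈ U, kc G (nb G U v) j ≤ E (Δ - 1) r j
    · have h1 := kc_sum G U j
      have h2 : ∑ v ∈ U, kc G (nb G U v) j ≤ n * E (Δ - 1) r j := by
        rw [← hU, ← smul_eq_mul]
        exact sum_le_card_nsmul _ _ _ hall
      have h3 := E_five j Δ (r + 1) hω (by omega) (by omega)
      rw [Nat.add_sub_cancel] at h3
      have h4 : (j + 1) * (kc G U (j + 1) * (Δ + 1)) ≤ (j + 1) * (E (Δ + 1) (r + 1) (j + 1) * n) := by
        calc (j + 1) * (kc G U (j + 1) * (Δ + 1)) = ((j + 1) * kc G U (j + 1)) * (Δ + 1) := by ring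
          _ ≤ (n * E (Δ - 1) r j) * (Δ + 1) := Nat.mul_le_mul_right _ (h1 ▸ h2)
          _ = n * ((Δ + 1) * E (Δ - 1) r j) := by ring
          _ ≤ n * ((j + 1) * E (Δ + 1) (r + 1) (j + 1)) := Nat.mul_le_mul_left _ h3
          _ = _ := by ring
      exact Nat.le_of_mul_le_mul_left h4 (Nat.succ_pos j)
    · push Not at hall
      obtain ⟨v, hv, hvj⟩ := hall
      set W := nb G U v with hW
      have hWU : W ⊆ U := nb_subset G U v
      have hvW : v ∉ W := fun h => G.loopless.irrefl v ((mem_nb G).1 h).2
      have hCBW : CB G W r := hCB.nb hv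
      have hWΔ : W.card = Δ := by
        refine le_antisymm (hdeg v hv) ?_
        by_contra hlt
        have := zykov_le (n := Δ - 1) j hCBW (by omega) (by omega)
        omega
      -- no `(j+1)`-clique crosses
      have hcross : ∀ A : Finset V, A ⊆ U → A.card = j + 1 → G.IsClique (A : Set V) →
          A ⊆ insert v W ∨ A ⊆ U \ insert v W := by
        intro A hAU hAc hAcl
        by_contra hcon
        push Not at hcon
        obtain ⟨hcon1, hcon2⟩ := hcon
        obtain ⟨y, hyA, hyN⟩ := not_subset.1 hcon1
        obtain ⟨z, hzA, hzN⟩ := not_subset.1 hcon2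
        rw [mem_insert, not_or] at hyN
        have hvA : v ∉ A := by
          intro hvA
          apply hyN.2
          rw [hW, mem_nb]
          exact ⟨hAU hyA, hAcl (mem_coe.2 hvA) (mem_coe.2 hyA) (Ne.symm hyN.1)⟩
        have hzW : z ∈ W := by
          rw [mem_sdiff, not_and, not_not, mem_insert] at hzN
          rcases hzN (hAU hzA) with h | h
          · exact absurd (h ▸ hzA) hvA
          · exact h
        have hcardA : (A ∩ W).card + (A \ W).card = A.card := card_inter_add_card_sdiff A W
        have hyC : y ∈ A \ W := mem_sdiff.2 ⟨hyA, hyN.2⟩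
        have hzB : z ∈ A ∩ W := mem_inter.2 ⟨hzA, hzW⟩
        have hCpos : 0 < (A \ W).card := card_pos.2 ⟨y, hyC⟩
        have hBpos : 0 < (A ∩ W).card := card_pos.2 ⟨z, hzB⟩
        have hBcl : G.IsClique ((A ∩ W : Finset V) : Set V) := hAcl.subset (by
          intro y hy
          exact mem_coe.2 (mem_inter.1 (mem_coe.1 hy)).1)
        have hBdeg : ∀ u ∈ A ∩ W, (nb G W u).card + 1 + (A \ W).card ≤ W.card := by
          intro u hu
          rw [mem_inter] at hu
          have h1 := hdeg u (hWU hu.2)
          have h2 : nb G W u ∪ insert v (A \ W) ⊆ nb G U u := by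
            intro a ha
            rw [mem_union, mem_insert] at ha
            rw [mem_nb]
            rcases ha with ha | rfl | ha
            · have := (mem_nb G).1 ha
              exact ⟨hWU this.1, this.2⟩
            · exact ⟨hv, ((mem_nb G).1 hu.2).2.symm⟩
            · rw [mem_sdiff] at ha
              refine ⟨hAU ha.1, hAcl (mem_coe.2 hu.1) (mem_coe.2 ha.1) ?_⟩
              rintro rfl
              exact ha.2 hu.2
          have h3 := card_le_card h2
          rw [card_union_of_disjoint (by
            rw [disjoint_left]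
            intro a ha ha2
            have h4 := nb_subset G W u ha
            rcases mem_insert.1 ha2 with h5 | h5
            · exact hvW (h5 ▸ h4)
            · exact (mem_sdiff.1 h5).2 h4), card_insert_of_notMem (by
            intro h
            exact hvA (mem_sdiff.1 h).1)] at h3
          omega
        rcases Nat.lt_or_ge 1 (A \ W).card with hc | hc
        · have := lemC (A \ W).card hc ((A ∩ W).card - 1) W (A ∩ W) r j (by omega) hCBW
            inter_subset_right hBcl hBdeg (by omega) (by omega)
          rw [hWΔ] at this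
          omega
        · have := lemP Δ W hWΔ (A ∩ W) r j hCBW inter_subset_right hBcl
            (by
              intro u hu
              have := hBdeg u hu
              omega) (by omega) (by omega)
          omega
      -- split
      have hNU : insert v W ⊆ U := by
        intro a ha
        rcases mem_insert.1 ha with rfl | ha
        · exact hv
        · exact hWU ha
      have hNcard : (insert v W).card = Δ + 1 := by
        rw [card_insert_of_notMem hvW, hWΔ]
      have hsplit : kc G U (j + 1) ≤ kc G (insert v W) (j + 1) + kc G (U \ insert v W) (j + 1) := by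
        exact kc_le_add G hcross
      have hz := zykov_le (n := Δ + 1) (j + 1) (hCB.mono hNU) (by omega) (by omega)
      have hcU := card_sdiff_add_card_eq_card hNU
      have hI := ih (U \ insert v W).card (by omega) (U \ insert v W) rfl
        (hCB.mono sdiff_subset) (by
          intro a ha
          have h1 : nb G (U \ insert v W) a ⊆ nb G U a := by
            intro b hb
            have := (mem_nb G).1 hb
            exact (mem_nb G).2 ⟨sdiff_subset this.1, this.2⟩
          exact (card_le_card h1).trans (hdeg a (sdiff_subset ha)))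
      calc kc G U (j + 1) * (Δ + 1)
          ≤ (kc G (insert v W) (j + 1) + kc G (U \ insert v W) (j + 1)) * (Δ + 1) :=
            Nat.mul_le_mul_right _ hsplit
        _ ≤ E (Δ + 1) (r + 1) (j + 1) * (Δ + 1)
            + E (Δ + 1) (r + 1) (j + 1) * (U \ insert v W).card := by
            rw [add_mul]
            exact Nat.add_le_add (Nat.mul_le_mul_right _ hz) hI
        _ = E (Δ + 1) (r + 1) (j + 1) * n := by
            rw [← mul_add, ← hU, ← hcU, hNcard]
            ring

end kc

/-! ### The Turán graph -/

/-- The complete multipartite graph on `ℕ × Bool` with parts `{i} × Bool`. -/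
def G0 : SimpleGraph (ℕ × Bool) where
  Adj x y := x.1 ≠ y.1
  symm := ⟨fun _ _ h => h.symm⟩
  loopless := ⟨fun _ h => h rfl⟩

/-- `A × {false} ∪ B × {true}`. -/
def WW (A B : Finset ℕ) : Finset (ℕ × Bool) := A ×ˢ {false} ∪ B ×ˢ {true}

lemma mem_WW {A B : Finset ℕ} {x : ℕ × Bool} :
    x ∈ WW A B ↔ (x.1 ∈ A ∧ x.2 = false) ∨ (x.1 ∈ B ∧ x.2 = true) := by
  obtain ⟨a, b⟩ := x
  unfold WW
  rw [mem_union, mem_product, mem_product, mem_singleton, mem_singleton]

lemma kc_WW : ∀ (A B : Finset ℕ), B ⊆ A → ∀ j : ℕ,
    kc G0 (WW A B) j = (P B.card (A.card - B.card)).coeff j := by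
  intro A
  induction A using Finset.induction_on with
  | empty =>
    intro B hB j
    have hB' : B = ∅ := subset_empty.1 hB
    subst hB'
    have h1 : WW ∅ ∅ = ∅ := by
      ext x
      simp [mem_WW]
    rw [h1]
    rcases j with _ | j
    · rw [kc_zero, P_zero]
    · rw [kc_eq_zero G0 (by simp), card_empty, Nat.sub_zero, P_choose]
      simp
  | insert x A hx ih =>
    intro B hB j
    rcases j with _ | j
    · rw [kc_zero, P_zero]
    by_cases hxB : x ∈ B
    · obtain ⟨B, hxB', rfl⟩ : ∃ B', x ∉ B' ∧ insert x B' = B :=
        ⟨B.erase x, notMem_erase _ _, insert_erase hxB⟩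
      have hBA : B ⊆ A := by
        intro y hy
        rcases mem_insert.1 (hB (mem_insert_of_mem hy)) with h | h
        · exact absurd (h ▸ hy) hxB'
        · exact h
      have hc := card_le_card hBA
      have hm1 : ((x, true) : ℕ × Bool) ∈ WW (insert x A) (insert x B) := by
        rw [mem_WW]; simp
      have he1 : (WW (insert x A) (insert x B)).erase (x, true) = WW (insert x A) B := by
        ext ⟨a, b⟩
        simp only [mem_erase, mem_WW, mem_insert, ne_eq, Prod.mk.injEq, not_and]
        cases b
        · simp
        · simp only [Bool.true_eq_false, and_false, and_true, false_or, not_true_eq_false,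
            imp_false]
          constructor
          · rintro ⟨h1, h2 | h2⟩
            · exact absurd h2 h1
            · exact h2
          · intro h
            exact ⟨fun h' => hxB' (h' ▸ h), Or.inr h⟩
      have hn1 : nb G0 (WW (insert x A) (insert x B)) (x, true) = WW A B := by
        ext ⟨a, b⟩
        rw [mem_nb, mem_WW, mem_WW, mem_insert, mem_insert]
        simp only [G0]
        cases b
        · simp only [and_true, Bool.false_eq_true, and_false, or_false]
          constructor
          · rintro ⟨h1 | h1, h2⟩
            · exact absurd h1.symm h2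
            · exact h1
          · intro h
            exact ⟨Or.inr h, fun h' => hx (h' ▸ h)⟩
        · simp only [and_true, Bool.true_eq_false, and_false, false_or]
          constructor
          · rintro ⟨h1 | h1, h2⟩
            · exact absurd h1.symm h2
            · exact h1
          · intro h
            exact ⟨Or.inr h, fun h' => hxB' (h' ▸ h)⟩
      have hm2 : ((x, false) : ℕ × Bool) ∈ WW (insert x A) B := by
        rw [mem_WW]; simp
      have he2 : (WW (insert x A) B).erase (x, false) = WW A B := by
        ext ⟨a, b⟩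
        simp only [mem_erase, mem_WW, mem_insert, ne_eq, Prod.mk.injEq, not_and]
        cases b
        · simp only [and_true, Bool.false_eq_true, and_false, or_false, not_true_eq_false,
            imp_false]
          constructor
          · rintro ⟨h1, h2 | h2⟩
            · exact absurd h2 h1
            · exact h2
          · intro h
            exact ⟨fun h' => hx (h' ▸ h), Or.inr h⟩
        · simp
      have hn2 : nb G0 (WW (insert x A) B) (x, false) = WW A B := by
        ext ⟨a, b⟩
        rw [mem_nb, mem_WW, mem_WW, mem_insert]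
        simp only [G0]
        cases b
        · simp only [and_true, Bool.false_eq_true, and_false, or_false]
          constructor
          · rintro ⟨h1 | h1, h2⟩
            · exact absurd h1.symm h2
            · exact h1
          · intro h
            exact ⟨Or.inr h, fun h' => hx (h' ▸ h)⟩
        · simp only [and_true, Bool.true_eq_false, and_false, false_or]
          constructor
          · rintro ⟨h1, h2⟩
            exact h1
          · intro h
            exact ⟨h, fun h' => hxB' (h' ▸ h)⟩
      rw [kc_succ G0 hm1, he1, hn1, kc_succ G0 hm2, he2, hn2, ih B hBA, ih B hBA,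
        card_insert_of_notMem hx, card_insert_of_notMem hxB',
        show A.card + 1 - (B.card + 1) = A.card - B.card by omega, P_left]
      ring
    · have hBA : B ⊆ A := by
        intro y hy
        rcases mem_insert.1 (hB hy) with h | h
        · exact absurd (h ▸ hy) hxB
        · exact h
      have hc := card_le_card hBA
      have hm2 : ((x, false) : ℕ × Bool) ∈ WW (insert x A) B := by
        rw [mem_WW]; simp
      have he2 : (WW (insert x A) B).erase (x, false) = WW A B := by
        ext ⟨a, b⟩
        simp only [mem_erase, mem_WW, mem_insert, ne_eq, Prod.mk.injEq, not_and]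
        cases b
        · simp only [and_true, Bool.false_eq_true, and_false, or_false, not_true_eq_false,
            imp_false]
          constructor
          · rintro ⟨h1, h2 | h2⟩
            · exact absurd h2 h1
            · exact h2
          · intro h
            exact ⟨fun h' => hx (h' ▸ h), Or.inr h⟩
        · simp
      have hn2 : nb G0 (WW (insert x A) B) (x, false) = WW A B := by
        ext ⟨a, b⟩
        rw [mem_nb, mem_WW, mem_WW, mem_insert]
        simp only [G0]
        cases b
        · simp only [and_true, Bool.false_eq_true, and_false, or_false]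
          constructor
          · rintro ⟨h1 | h1, h2⟩
            · exact absurd h1.symm h2
            · exact h1
          · intro h
            exact ⟨Or.inr h, fun h' => hx (h' ▸ h)⟩
        · simp only [and_true, Bool.true_eq_false, and_false, false_or]
          constructor
          · rintro ⟨h1, h2⟩
            exact h1
          · intro h
            exact ⟨h, fun h' => hxB (h' ▸ h)⟩
      rw [kc_succ G0 hm2, he2, hn2, ih B hBA, ih B hBA, card_insert_of_notMem hx,
        show A.card + 1 - B.card = A.card - B.card + 1 by omega, P_right]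

/-- The number of cliques does not change under an embedding. -/
lemma kc_map {V W : Type*} (G : SimpleGraph V) (G' : SimpleGraph W) (e : V ↪ W)
    (h : ∀ x y, G.Adj x y ↔ G'.Adj (e x) (e y)) (U : Finset V) (j : ℕ) :
    kc G U j = kc G' (U.map e) j := by
  classical
  unfold kc
  refine card_bij (fun S _ => S.map e) ?_ ?_ ?_
  · intro S hS
    rw [mem_filter, mem_powersetCard] at hS ⊢
    refine ⟨⟨map_subset_map.2 hS.1.1, by rw [card_map, hS.1.2]⟩, ?_⟩
    intro a ha b hb hab
    rw [mem_coe, mem_map] at ha hb
    obtain ⟨a, ha, rfl⟩ := ha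
    obtain ⟨b, hb, rfl⟩ := hb
    exact (h a b).1 (hS.2 (mem_coe.2 ha) (mem_coe.2 hb) (fun h' => hab (h' ▸ rfl)))
  · intro S _ T _ hST
    exact map_injective e hST
  · intro T hT
    rw [mem_filter, mem_powersetCard] at hT
    obtain ⟨S, hS, rfl⟩ := subset_map_iff.1 hT.1.1
    refine ⟨S, ?_, rfl⟩
    rw [mem_filter, mem_powersetCard]
    refine ⟨⟨hS, by simpa using hT.1.2⟩, ?_⟩
    intro a ha b hb hab
    exact (h a b).2 (hT.2 (by simpa using ha) (by simpa using hb) (fun h' => hab (e.injective h')))

lemma ncard_eq_kc {m : ℕ} (H : SimpleGraph (Fin m)) (t : ℕ) :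
    {s : Finset (Fin m) | H.IsNClique t s}.ncard = kc H univ t := by
  classical
  have h1 : {s : Finset (Fin m) | H.IsNClique t s}
      = (((univ : Finset (Fin m)).powersetCard t).filter
        (fun S : Finset (Fin m) => H.IsClique (S : Set (Fin m))) : Finset (Finset (Fin m))) := by
    ext s
    simp only [Set.mem_ofPred_eq, coe_filter, mem_powersetCard, subset_univ, true_and,
      SimpleGraph.isNClique_iff]
    tauto
  rw [h1, Set.ncard_coe_finset]
  unfold kc
  congr!

/-- The embedding of the vertices of the Turán graph. -/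
def emb (N ω : ℕ) (h : N ≤ 2 * ω) : Fin N ↪ ℕ × Bool where
  toFun i := (i.1 % ω, decide (ω ≤ i.1))
  inj' := by
    intro i i' hii
    have hi := i.2
    have hi' := i'.2
    rw [Prod.mk.injEq, decide_eq_decide] at hii
    obtain ⟨h1, h2⟩ := hii
    have e1 : i.1 % ω = if ω ≤ i.1 then i.1 - ω else i.1 := by
      split_ifs with h3
      · rw [Nat.mod_eq_sub_mod h3, Nat.mod_eq_of_lt (by omega)]
      · exact Nat.mod_eq_of_lt (by omega)
    have e2 : i'.1 % ω = if ω ≤ i'.1 then i'.1 - ω else i'.1 := by
      split_ifs with h3
      · rw [Nat.mod_eq_sub_mod h3, Nat.mod_eq_of_lt (by omega)]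
      · exact Nat.mod_eq_of_lt (by omega)
    rw [e1, e2] at h1
    apply Fin.ext
    by_cases h3 : ω ≤ i.1
    · rw [if_pos h3, if_pos (h2.1 h3)] at h1
      have := h2.1 h3
      omega
    · rw [if_neg h3, if_neg (fun h => h3 (h2.2 h))] at h1
      exact h1

lemma emb_image (N ω : ℕ) (h : N ≤ 2 * ω) (h' : ω ≤ N) :
    (univ : Finset (Fin N)).map (emb N ω h) = WW (range ω) (range (N - ω)) := by
  ext ⟨a, b⟩
  rw [mem_map, mem_WW, mem_range, mem_range]
  constructor
  · rintro ⟨i, _, hi⟩
    have hi2 := i.2
    rw [← hi]
    simp only [emb, Function.Embedding.coeFn_mk, decide_eq_false_iff_not, decide_eq_true_eq]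
    by_cases h3 : ω ≤ i.1
    · right
      rw [Nat.mod_eq_sub_mod h3, Nat.mod_eq_of_lt (by omega)]
      omega
    · left
      rw [Nat.mod_eq_of_lt (by omega)]
      omega
  · rintro (⟨h1, h2⟩ | ⟨h1, h2⟩)
    · simp only at h1 h2
      refine ⟨⟨a, by omega⟩, mem_univ _, ?_⟩
      simp only [emb, Function.Embedding.coeFn_mk]
      rw [Nat.mod_eq_of_lt h1, h2]
      simp [h1]
    · simp only at h1 h2
      refine ⟨⟨a + ω, by omega⟩, mem_univ _, ?_⟩
      simp only [emb, Function.Embedding.coeFn_mk]
      rw [Nat.add_mod_right, Nat.mod_eq_of_lt (by omega), h2]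
      simp

/-- The number of cliques of the Turán graph. -/
lemma kc_turan (N ω j : ℕ) (h : N ≤ 2 * ω) (h' : ω ≤ N) :
    kc (SimpleGraph.turanGraph N ω) univ j = E N ω j := by
  rw [kc_map (SimpleGraph.turanGraph N ω) G0 (emb N ω h) (fun x y => Iff.rfl), emb_image N ω h h',
    kc_WW _ _ (by
      intro i hi
      rw [mem_range] at hi ⊢
      omega), card_range, card_range]
  unfold E
  congr 2
  omega

lemma coeff_one_add_two_X (a i : ℕ) : ((1 + 2 * X : ℕ[X]) ^ a).coeff i = a.choose i * 2 ^ i := by
  have h : ((1 + 2 * X : ℕ[X]) ^ a) = ((1 + X : ℕ[X]) ^ a).comp (C 2 * X) := by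
    simp
  rw [h, comp_C_mul_X_coeff, coeff_one_add_X_pow]
  simp

lemma P_formula (a b t : ℕ) : (P a b).coeff t
    = ∑ i ∈ range (t + 1), a.choose i * 2 ^ i * b.choose (t - i) := by
  unfold P
  rw [coeff_mul, Nat.sum_antidiagonal_eq_sum_range_succ_mk]
  refine sum_congr rfl (fun i _ => ?_)
  rw [coeff_one_add_two_X, coeff_one_add_X_pow]
  simp

end Pool.Agent.H23.KT
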