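import Pool.Agent.H23.KT.Tri

/-!
# Blocks of vertices with few missing edges in the neighbourhood
-/

open Finset

set_option linter.unusedSectionVars false

namespace Pool.Agent.H23.KT

section block

variable {V : Type*} [Fintype V] [DecidableEq V] (G : SimpleGraph V)

/-- Closed neighbourhood. -/
noncomputable def Nc (v : V) : Finset V := insert v (nb G univ v)

/-- Twice the number of edges in the neighbourhood of `v`. -/
noncomputable def aa (v : V) : ℕ := ∑ x ∈ nb G univ v, (nb G (nb G univ v) x).card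

/-- Vertices with few missing edges in the neighbourhood. -/
def Bad (D s : ℕ) (v : V) : Prop := D * (D - 1) < aa G v + 6 * s

lemma mem_N {v x : V} : x ∈ nb G univ v ↔ G.Adj v x := by
  rw [mem_nb]
  simp

lemma mem_Nc {v x : V} : x ∈ Nc G v ↔ x = v ∨ G.Adj v x := by
  unfold Nc
  rw [mem_insert, mem_N]

lemma mem_Nc_comm {v x : V} : x ∈ Nc G v ↔ v ∈ Nc G x := by
  rw [mem_Nc, mem_Nc, eq_comm, G.adj_comm]

lemma self_mem_Nc (v : V) : v ∈ Nc G v := mem_insert_self _ _

lemma Nc_card (v : V) : (Nc G v).card = (nb G univ v).card + 1 := by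
  unfold Nc
  rw [card_insert_of_notMem]
  intro h
  exact G.loopless.irrefl v ((mem_N G).1 h)

lemma aa_le (v : V) : aa G v ≤ (nb G univ v).card * ((nb G univ v).card - 1) := by
  unfold aa
  rw [← smul_eq_mul, ← sum_const]
  refine sum_le_sum (fun x hx => ?_)
  have := card_nb_lt G hx
  omega

variable {D s : ℕ} (hs : 1 ≤ s) (hD : 24 * s ≤ D) (hdeg : ∀ v, (nb G univ v).card ≤ D)

include hs hD hdeg

lemma Bad.card {v : V} (h : Bad G D s v) : (nb G univ v).card = D := by
  have h1 := aa_le G v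
  have h2 := hdeg v
  unfold Bad at h
  by_contra hne
  have h3 : (nb G univ v).card ≤ D - 1 := by omega
  have h4 : (nb G univ v).card * ((nb G univ v).card - 1) ≤ (D - 1) * (D - 1 - 1) :=
    Nat.mul_le_mul h3 (by omega)
  obtain ⟨k, rfl⟩ : ∃ k, D = k + 2 := ⟨D - 2, by omega⟩
  have e1 : k + 2 - 1 = k + 1 := by omega
  have e2 : k + 1 - 1 = k := by omega
  rw [e1] at h h4
  rw [e2] at h4
  nlinarith

lemma Bad.Nc_card {v : V} (h : Bad G D s v) : (Nc G v).card = D + 1 := by
  rw [KT.Nc_card, Bad.card G hs hD hdeg h]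

lemma Bad.sum_nn {v : V} (h : Bad G D s v) : ∑ x ∈ Nc G v, (nn G (Nc G v) x).card < 6 * s := by
  have hcard := Bad.card G hs hD hdeg h
  have hv : v ∉ nb G univ v := fun h => G.loopless.irrefl v ((mem_N G).1 h)
  have h0 : (nn G (Nc G v) v).card = 0 := by
    rw [card_eq_zero, eq_empty_iff_forall_notMem]
    intro x hx
    rw [mem_nn, mem_Nc] at hx
    rcases hx.1 with h | h
    · exact hx.2.1 h
    · exact hx.2.2 h
  have h1 : ∀ x ∈ nb G univ v, nn G (Nc G v) x = nn G (nb G univ v) x := by
    intro x hx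
    rw [mem_N] at hx
    ext y
    rw [mem_nn, mem_nn, mem_Nc, mem_N]
    constructor
    · rintro ⟨h | h, h', h''⟩
      · subst h
        exact absurd hx.symm h''
      · exact ⟨h, h', h''⟩
    · rintro ⟨h, h', h''⟩
      exact ⟨Or.inr h, h', h''⟩
  have h2 : ∑ x ∈ Nc G v, (nn G (Nc G v) x).card = ∑ x ∈ nb G univ v,
      (nn G (nb G univ v) x).card := by
    conv_lhs => rw [Nc, sum_insert hv]
    change (nn G (Nc G v) v).card + ∑ x ∈ nb G univ v, (nn G (Nc G v) x).card = _
    rw [h0, zero_add]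
    exact sum_congr rfl (fun x hx => by rw [h1 x hx])
  have h3 : aa G v + ∑ x ∈ nb G univ v, (nn G (nb G univ v) x).card + D = D * D := by
    unfold aa
    have : ∑ x ∈ nb G univ v, ((nb G (nb G univ v) x).card + (nn G (nb G univ v) x).card + 1)
        = ∑ x ∈ nb G univ v, D := by
      refine sum_congr rfl (fun x hx => ?_)
      rw [nb_add_nn G hx, hcard]
    rw [sum_add_distrib, sum_add_distrib, sum_const, sum_const, hcard, smul_eq_mul, smul_eq_mul,
      mul_one] at this
    exact this
  rw [h2]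
  unfold Bad at h
  have h4 : D * (D - 1) + D = D * D := by
    obtain ⟨k, rfl⟩ : ∃ k, D = k + 1 := ⟨D - 1, by omega⟩
    rw [Nat.add_sub_cancel]
    ring
  omega

/-- The number of neighbours outside a block. -/
lemma outside {v x : V} (h : Bad G D s v) (hx : x ∈ Nc G v) :
    (nb G univ x \ Nc G v).card ≤ (nn G (Nc G v) x).card := by
  have h1 := nb_add_nn G hx
  rw [Bad.Nc_card G hs hD hdeg h] at h1
  have h2 := hdeg x
  have h3 : nb G (Nc G v) x = nb G univ x ∩ Nc G v := by
    ext y
    rw [mem_nb, mem_inter, mem_N]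
    tauto
  have h4 := card_inter_add_card_sdiff (nb G univ x) (Nc G v)
  rw [← h3] at h4
  omega

lemma Nc_eq {v x : V} (h : Bad G D s v) (hx : x ∈ Nc G v) (h0 : (nn G (Nc G v) x).card = 0) :
    Nc G x = Nc G v := by
  have h1 : Nc G v ⊆ Nc G x := by
    intro y hy
    rw [mem_Nc]
    by_contra hcon
    push Not at hcon
    have : y ∈ nn G (Nc G v) x := (mem_nn G).2 ⟨hy, hcon⟩
    rw [card_eq_zero] at h0
    rw [h0] at this
    exact notMem_empty _ this
  refine (eq_of_subset_of_card_le h1 ?_).symm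
  rw [KT.Nc_card, Bad.Nc_card G hs hD hdeg h]
  have := hdeg x
  omega

/-- Vertices of a block with a non-neighbour in the block are few. -/
lemma card_YY {v : V} (h : Bad G D s v) {x : V} (hx : x ∈ Nc G v)
    (hx0 : (nn G (Nc G v) x).card ≠ 0) :
    ((Nc G v).filter (fun u => (nn G (Nc G v) u).card ≠ 0)).card + (nn G (Nc G v) x).card
      ≤ 6 * s := by
  have h1 := Bad.sum_nn G hs hD hdeg h
  have h2 : ((Nc G v).filter (fun u => (nn G (Nc G v) u).card ≠ 0)).card
      + (nn G (Nc G v) x).card ≤ ∑ u ∈ Nc G v, (nn G (Nc G v) u).card + 1 := by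
    rw [card_filter, ← add_sum_erase _ _ hx, ← add_sum_erase (Nc G v)
      (fun u => (nn G (Nc G v) u).card) hx, if_pos hx0]
    have : ∑ u ∈ (Nc G v).erase x, (if (nn G (Nc G v) u).card ≠ 0 then 1 else 0)
        ≤ ∑ u ∈ (Nc G v).erase x, (nn G (Nc G v) u).card := by
      refine sum_le_sum (fun u _ => ?_)
      split_ifs with h
      · omega
      · omega
    omega
  omega

lemma card_YY' {v : V} (h : Bad G D s v) :
    ((Nc G v).filter (fun u => (nn G (Nc G v) u).card ≠ 0)).card < 6 * s := by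
  refine lt_of_le_of_lt ?_ (Bad.sum_nn G hs hD hdeg h)
  rw [card_filter]
  refine sum_le_sum (fun u _ => ?_)
  split_ifs with h
  · omega
  · omega

/-- Blocks are equal or disjoint. -/
lemma block_eq {v v' x : V} (h : Bad G D s v) (h' : Bad G D s v') (hx : x ∈ Nc G v)
    (hx' : x ∈ Nc G v') : Nc G v = Nc G v' := by
  have key : ∀ w, Bad G D s w → x ∈ Nc G w →
      (Nc G w).filter (fun u => ¬ (nn G (Nc G w) u).card ≠ 0) ⊆ Nc G x ∧
      D + 2 ≤ ((Nc G w).filter (fun u => ¬ (nn G (Nc G w) u).card ≠ 0)).card + 6 * s := by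
    intro w hw hxw
    constructor
    · intro u hu
      rw [mem_filter, not_not] at hu
      have := Nc_eq G hs hD hdeg hw hu.1 hu.2
      rw [mem_Nc_comm, this]
      exact hxw
    · have h1 := card_YY' G hs hD hdeg hw
      have h2 := card_filter_add_card_filter_not (s := Nc G w)
        (fun u => (nn G (Nc G w) u).card ≠ 0)
      rw [Bad.Nc_card G hs hD hdeg hw] at h2
      omega
  obtain ⟨k1, k2⟩ := key v h hx
  obtain ⟨k1', k2'⟩ := key v' h' hx'
  have h3 : (Nc G x).card ≤ D + 1 := by
    rw [KT.Nc_card]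
    have := hdeg x
    omega
  have h4 := card_le_card (union_subset k1 k1')
  have h5 := card_union_add_card_inter ((Nc G v).filter (fun u => ¬ (nn G (Nc G v) u).card ≠ 0))
    ((Nc G v').filter (fun u => ¬ (nn G (Nc G v') u).card ≠ 0))
  obtain ⟨u, hu⟩ := card_pos.1 (show 0 < (((Nc G v).filter
    (fun u => ¬ (nn G (Nc G v) u).card ≠ 0)) ∩ ((Nc G v').filter
    (fun u => ¬ (nn G (Nc G v') u).card ≠ 0))).card by omega)
  rw [mem_inter, mem_filter, mem_filter, not_not, not_not] at hu
  rw [← Nc_eq G hs hD hdeg h hu.1.1 hu.1.2, ← Nc_eq G hs hD hdeg h' hu.2.1 hu.2.2]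

/-- A vertex outside a block has few common neighbours with a vertex of the block. -/
lemma common {v x z : V} (h : Bad G D s v) (hx : x ∈ Nc G v) (hz : z ∉ Nc G v)
    (hzx : G.Adj z x) : (nb G (nb G univ z) x).card + 2 ≤ 6 * s := by
  have hzo : z ∈ nb G univ x \ Nc G v := by
    rw [mem_sdiff, mem_N]
    exact ⟨hzx.symm, hz⟩
  have h1 := outside G hs hD hdeg h hx
  have h2 := card_pos.2 ⟨z, hzo⟩
  have h3 := card_YY G hs hD hdeg h hx (by omega)
  have h4 : nb G (nb G univ z) x ⊆ ((Nc G v).filter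
      (fun u => (nn G (Nc G v) u).card ≠ 0)).erase x ∪ (nb G univ x \ Nc G v).erase z := by
    intro y hy
    rw [mem_nb, mem_N] at hy
    rw [mem_union, mem_erase, mem_erase, mem_filter, mem_sdiff, mem_N]
    by_cases hyv : y ∈ Nc G v
    · left
      refine ⟨?_, hyv, ?_⟩
      · rintro rfl
        exact G.loopless.irrefl y hy.2
      · intro h0
        have := Nc_eq G hs hD hdeg h hyv h0
        apply hz
        rw [← this, mem_Nc]
        exact Or.inr hy.1.symm
    · right
      refine ⟨?_, hy.2, hyv⟩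
      rintro rfl
      exact G.loopless.irrefl y hy.1
  have h5 := (card_le_card h4).trans (card_union_le _ _)
  have h6 : x ∈ (Nc G v).filter (fun u => (nn G (Nc G v) u).card ≠ 0) := by
    rw [mem_filter]
    exact ⟨hx, by omega⟩
  have h7 := card_erase_add_one h6
  have h8 := card_erase_add_one hzo
  omega

end block

end Pool.Agent.H23.KT
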