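import Pool.Agent.H23.KT.Weights

/-!
# Triangles: the final count
-/

open Finset

namespace Pool.Agent.H23.KT

lemma total {V : Type*} [Fintype V] [DecidableEq V] (G : SimpleGraph V) {D s : ℕ} (hs : 1 ≤ s)
    (hD : 24 * s ≤ D) (hdeg : ∀ v, (nb G univ v).card ≤ D)
    (hω : ∀ I : Finset V, G.IsClique (I : Set V) → I.card + s ≤ D + 1) :
    ∀ (n : ℕ) (U : Finset V), U.card = n →
      (∀ v, Bad G D s v → Nc G v ⊆ U ∨ Disjoint (Nc G v) U) →
      (D + 1) * ∑ z ∈ U, WT G D s z + 6 * s * (D - 1) * n ≤ (D + 1) * D * (D - 1) * n := by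
  intro n
  induction n using Nat.strong_induction_on with
  | _ n ih =>
    intro U hU hcl
    by_cases hex : ∃ v, Bad G D s v ∧ Nc G v ⊆ U
    · obtain ⟨v, hv, hvU⟩ := hex
      have hcard := Bad.Nc_card G hs hD hdeg hv
      have h1 := card_sdiff_add_card_eq_card hvU
      have h2 := WT_block G hs hD hdeg hω hv
      have h3 := ih (U \ Nc G v).card (by omega) (U \ Nc G v) rfl (by
        intro v' hv'
        rcases hcl v' hv' with h | h
        · by_cases heq : Disjoint (Nc G v') (Nc G v)
          · left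
            intro x hx
            rw [mem_sdiff]
            exact ⟨h hx, disjoint_left.1 heq hx⟩
          · rw [not_disjoint_iff] at heq
            obtain ⟨x, hx, hx'⟩ := heq
            right
            rw [block_eq G hs hD hdeg hv' hv hx hx']
            exact disjoint_sdiff
        · right
          exact h.mono_right sdiff_subset)
      rw [← sum_sdiff hvU]
      have h4 : n = (U \ Nc G v).card + (D + 1) := by omega
      rw [h4]
      generalize (U \ Nc G v).card = u at *
      generalize ∑ z ∈ U \ Nc G v, WT G D s z = A at *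
      generalize ∑ z ∈ Nc G v, WT G D s z = B at *
      generalize D - 1 = k at *
      nlinarith
    · push Not at hex
      have h1 : ∀ z ∈ U, WT G D s z + 6 * s ≤ D * (D - 1) := by
        intro z hz
        apply WT_out G hs hD hdeg
        intro v hv hzv
        rcases hcl v hv with h | h
        · exact hex v hv h
        · exact disjoint_left.1 h hzv hz
      have h2 : ∑ z ∈ U, (WT G D s z + 6 * s) ≤ n * (D * (D - 1)) :=
        (sum_le_sum h1).trans (le_of_eq (by rw [sum_const, hU, smul_eq_mul]))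
      rw [sum_add_distrib, sum_const, hU, smul_eq_mul] at h2
      generalize ∑ z ∈ U, WT G D s z = A at *
      have h3 : 6 * s * (D - 1) * n ≤ (D + 1) * (n * (6 * s)) := by
        have : D - 1 ≤ D + 1 := by omega
        calc 6 * s * (D - 1) * n = (D - 1) * (n * (6 * s)) := by ring
          _ ≤ _ := Nat.mul_le_mul_right _ this
      generalize D - 1 = k at *
      nlinarith

lemma P1 (a b : ℕ) : (P a b).coeff 1 = 2 * a + b := by
  induction a with
  | zero => rw [P_choose, Nat.choose_one_right]; ring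
  | succ a ih => rw [P_left, ih, P_zero]; ring

lemma ch2 (N : ℕ) : (N + 1 + 1).choose 2 = N.choose 2 + 2 * N + 1 := by
  have h1 : (N + 1 + 1).choose 2 = (N + 1).choose 1 + (N + 1).choose 2 :=
    Nat.choose_succ_succ' _ _
  have h2 : (N + 1).choose 2 = N.choose 1 + N.choose 2 := Nat.choose_succ_succ' _ _
  rw [Nat.choose_one_right] at h1 h2
  omega

lemma ch3 (N : ℕ) : (N + 1 + 1).choose 3 = N.choose 3 + 2 * N.choose 2 + N := by
  have h1 : (N + 1 + 1).choose 3 = (N + 1).choose 2 + (N + 1).choose 3 :=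
    Nat.choose_succ_succ' _ _
  have h2 : (N + 1).choose 2 = N.choose 1 + N.choose 2 := Nat.choose_succ_succ' _ _
  have h3 : (N + 1).choose 3 = N.choose 2 + N.choose 3 := Nat.choose_succ_succ' _ _
  rw [Nat.choose_one_right] at h2
  omega

lemma P2 (a b : ℕ) : (P a b).coeff 2 + a = (2 * a + b).choose 2 := by
  induction a with
  | zero => rw [P_choose]; simp
  | succ a ih =>
    rw [P_left, P1, show 2 * (a + 1) + b = (2 * a + b) + 1 + 1 by ring, ch2, ← ih]
    simp only [Nat.reduceAdd]
    ring

lemma P3 (a b : ℕ) : (P a b).coeff 3 + a * (2 * a + b) = (2 * a + b).choose 3 + 2 * a := by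
  induction a with
  | zero => rw [P_choose]; simp
  | succ a ih =>
    have h2 := P2 a b
    rw [P_left, show 2 * (a + 1) + b = (2 * a + b) + 1 + 1 by ring, ch3, ← h2]
    simp only [Nat.reduceAdd]
    nlinarith

/-- The number of triangles of the Turán graph. -/
lemma turan_three (Δ ω : ℕ) (hω : ω ≤ Δ + 1) (h : Δ + 1 ≤ 2 * ω) (hΔ : 1 ≤ Δ) :
    kc (SimpleGraph.turanGraph (Δ + 1) ω) univ 3 + (Δ + 1 - ω) * (Δ - 1) = (Δ + 1).choose 3 := by
  rw [kc_turan _ _ _ h hω]
  unfold E
  have h3 := P3 (Δ + 1 - ω) (Δ + 1 - 2 * (Δ + 1 - ω))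
  rw [show 2 * (Δ + 1 - ω) + (Δ + 1 - 2 * (Δ + 1 - ω)) = Δ + 1 by omega] at h3
  obtain ⟨k, rfl⟩ : ∃ k, Δ = k + 1 := ⟨Δ - 1, by omega⟩
  rw [Nat.add_sub_cancel]
  generalize (P (k + 1 + 1 - ω) (k + 1 + 1 - 2 * (k + 1 + 1 - ω))).coeff 3 = c at *
  generalize k + 1 + 1 - ω = s at *
  nlinarith

lemma choose_two' (n : ℕ) : 2 * (n + 1).choose 2 = (n + 1) * n := by
  induction n with
  | zero => decide
  | succ n ih =>
    have h1 : (n + 1 + 1).choose 2 = (n + 1).choose 1 + (n + 1).choose 2 :=
      Nat.choose_succ_succ' _ _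
    rw [h1, mul_add, ih, Nat.choose_one_right]
    ring

lemma choose_three (n : ℕ) : 6 * (n + 1).choose 3 = (n + 1) * n * (n - 1) := by
  induction n with
  | zero => decide
  | succ n ih =>
    have h1 : (n + 1 + 1).choose 3 = (n + 1).choose 2 + (n + 1).choose 3 :=
      Nat.choose_succ_succ' _ _
    have h2 := choose_two' n
    rw [h1, mul_add, ih, Nat.add_sub_cancel]
    have h3 : 6 * (n + 1).choose 2 = 3 * ((n + 1) * n) := by
      rw [← h2]
      ring
    rw [h3]
    rcases n with _ | n
    · rfl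
    · rw [Nat.add_sub_cancel]
      ring

/-- Six times the number of triangles. -/
lemma six_kc {V : Type*} [Fintype V] [DecidableEq V] (G : SimpleGraph V) :
    6 * kc G univ 3 = ∑ v, aa G v := by
  have h1 := kc_sum G (univ : Finset V) 2
  have h2 : ∀ v, aa G v = 2 * kc G (nb G univ v) 2 := by
    intro v
    unfold aa
    rw [← kc_sum G (nb G univ v) 1]
    refine sum_congr rfl (fun x _ => ?_)
    have := kc_sum G (nb G (nb G univ v) x) 0
    simp only [kc_zero] at this
    simp only [sum_const, smul_eq_mul, mul_one, zero_add, one_mul] at this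
    exact this
  simp only [h2]
  rw [← mul_sum, h1]
  ring

/-- The bound for triangles. -/
theorem core_three {V : Type*} [Fintype V] [DecidableEq V] (G : SimpleGraph V) {D s : ℕ}
    (hs : 1 ≤ s) (hD : 24 * s ≤ D) (hdeg : ∀ v, (nb G univ v).card ≤ D)
    (hω : ∀ I : Finset V, G.IsClique (I : Set V) → I.card + s ≤ D + 1) :
    kc G univ 3 * (D + 1) ≤ E (D + 1) (D + 1 - s) 3 * (univ : Finset V).card := by
  have htot := total G hs hD hdeg hω _ univ rfl (fun v _ => Or.inl (subset_univ _))
  rw [sum_WT G hs hD hdeg, ← six_kc G] at htot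
  have hch := choose_three D
  have h3 := P3 s (D + 1 - 2 * s)
  rw [show 2 * s + (D + 1 - 2 * s) = D + 1 by omega] at h3
  have hE : E (D + 1) (D + 1 - s) 3 = (P s (D + 1 - 2 * s)).coeff 3 :=
    E_big (by omega) (by omega) 3
  rw [hE]
  obtain ⟨k, rfl⟩ : ∃ k, D = k + 1 := ⟨D - 1, by omega⟩
  rw [Nat.add_sub_cancel] at htot hch
  generalize (P s (k + 1 + 1 - 2 * s)).coeff 3 = c at *
  generalize kc G univ 3 = x at *
  generalize (univ : Finset V).card = m at *
  have h8 : (k + 1 + 1) * (k + 1) * k * m = 6 * (c + s * k) * m := by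
    have : (k + 1 + 1).choose 3 = c + s * k := by nlinarith
    rw [← this, hch]
  nlinarith

end Pool.Agent.H23.KT
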