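import Pool.Agent.H23.KT.Gen3
import Pool.Agent.H23.KT.Tri3

/-!
# The bound for graphs whose clique number is close to the maximum degree
-/

open Finset

set_option linter.unusedSectionVars false

namespace Pool.Agent.H23.KT

section gen

variable {V : Type*} [Fintype V] [DecidableEq V] (G : SimpleGraph V)

variable {D s : ℕ} (hs : 1 ≤ s) (hD : 24 * s ≤ D) (hdeg : ∀ v, (nb G univ v).card ≤ D)

include hs hD hdeg

lemma E_lower (i : ℕ) : (D + 1) * D.choose (i + 2)
    ≤ (i + 3) * E (D + 1) (D + 1 - s) (i + 3) + (i + 3) * s * (D - 1).choose (i + 1) := by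
  have h1 := P_lower s (D + 1 - 2 * s) (i + 1)
  rw [show 2 * s + (D + 1 - 2 * s) = D + 1 by omega] at h1
  have hE : E (D + 1) (D + 1 - s) (i + 3) = (P s (D + 1 - 2 * s)).coeff (i + 3) :=
    E_big (by omega) (by omega) _
  have h2 : (D + 1).choose (i + 3) ≤ E (D + 1) (D + 1 - s) (i + 3)
      + s * (D - 1).choose (i + 1) := by
    rw [hE]
    exact h1
  have h3 : (D + 1) * D.choose (i + 2) = (D + 1).choose (i + 3) * (i + 3) :=
    Nat.add_one_mul_choose_eq D (i + 2)
  rw [h3]
  calc (D + 1).choose (i + 3) * (i + 3) ≤ (E (D + 1) (D + 1 - s) (i + 3)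
      + s * (D - 1).choose (i + 1)) * (i + 3) := Nat.mul_le_mul_right _ h2
    _ = _ := by ring

lemma total_gen (hω : ∀ I : Finset V, G.IsClique (I : Set V) → I.card + s ≤ D + 1) {i : ℕ}
    (hi : 1 ≤ i) (hDi : 24 * (i + 1) * s ≤ D) :
    ∀ (n : ℕ) (U : Finset V), U.card = n →
      (∀ v, Bad G D s v → Nc G v ⊆ U ∨ Disjoint (Nc G v) U) →
      (D + 1) * ∑ z ∈ U, WG G D s (i + 3) z
        ≤ (i + 3) * E (D + 1) (D + 1 - s) (i + 3) * n := by
  intro n
  induction n using Nat.strong_induction_on with
  | _ n ih =>
    intro U hU hcl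
    by_cases hex : ∃ v, Bad G D s v ∧ Nc G v ⊆ U
    · obtain ⟨v, hv, hvU⟩ := hex
      have hcard := Bad.Nc_card G hs hD hdeg hv
      have h1 := card_sdiff_add_card_eq_card hvU
      have h2 := WG_block G hs hD hdeg hω hDi hv
      have h3 := ih (U \ Nc G v).card (by omega) (U \ Nc G v) rfl (by
        intro v' hv'
        rcases hcl v' hv' with h | h
        · by_cases heq : Disjoint (Nc G v') (Nc G v)
          · left
            intro x hx
            rw [mem_sdiff]
            exact ⟨h hx, disjoint_left.1 heq hx⟩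
          · rw [not_disjoint_iff] at heq
            obtain ⟨x, hx, hx'⟩ := heq
            right
            rw [block_eq G hs hD hdeg hv' hv hx hx']
            exact disjoint_sdiff
        · right
          exact h.mono_right sdiff_subset)
      rw [← sum_sdiff hvU]
      have h4 : n = (U \ Nc G v).card + (D + 1) := by omega
      rw [h4]
      generalize (U \ Nc G v).card = u at *
      generalize ∑ z ∈ U \ Nc G v, WG G D s (i + 3) z = A at *
      generalize ∑ z ∈ Nc G v, WG G D s (i + 3) z = B at *
      generalize (i + 3) * E (D + 1) (D + 1 - s) (i + 3) = K at *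
      have h5 := Nat.mul_le_mul_left (D + 1) h2
      nlinarith
    · push Not at hex
      have h1 : ∀ z ∈ U, (D + 1) * WG G D s (i + 3) z
          ≤ (i + 3) * E (D + 1) (D + 1 - s) (i + 3) := by
        intro z hz
        have h2 := WG_out G hs hD hdeg hi hDi (z := z) (by
          intro v hv hzv
          rcases hcl v hv with h | h
          · exact hex v hv h
          · exact disjoint_left.1 h hzv hz)
        have h3 := E_lower G hs hD hdeg i
        omega
      rw [mul_sum]
      refine (sum_le_sum h1).trans ?_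
      rw [sum_const, hU, smul_eq_mul, mul_comm]

/-- The bound for cliques of size at least four. -/
theorem core_gen (hω : ∀ I : Finset V, G.IsClique (I : Set V) → I.card + s ≤ D + 1) {i : ℕ}
    (hi : 1 ≤ i) (hDi : 24 * (i + 1) * s ≤ D) :
    kc G univ (i + 3) * (D + 1) ≤ E (D + 1) (D + 1 - s) (i + 3) * (univ : Finset V).card := by
  have htot := total_gen G hs hD hdeg hω hi hDi _ univ rfl (fun v _ => Or.inl (subset_univ _))
  rw [sum_WG G hs hD hdeg (by omega)] at htot
  have h : (i + 3) * (kc G univ (i + 3) * (D + 1))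
      ≤ (i + 3) * (E (D + 1) (D + 1 - s) (i + 3) * (univ : Finset V).card) := by
    calc (i + 3) * (kc G univ (i + 3) * (D + 1)) = (D + 1) * ((i + 3) * kc G univ (i + 3)) := by
          ring
      _ ≤ _ := htot
      _ = _ := by ring
  exact Nat.le_of_mul_le_mul_left h (Nat.succ_pos _)

omit hs hD in
/-- The trivial case of no restriction on the clique number. -/
theorem core_zero (j : ℕ) :
    kc G univ (j + 1) * (D + 1) ≤ (D + 1).choose (j + 1) * (univ : Finset V).card := by
  have h1 := kc_sum G (univ : Finset V) j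
  have h2 : ∑ v, kc G (nb G univ v) j ≤ (univ : Finset V).card * D.choose j := by
    rw [← smul_eq_mul, ← sum_const]
    refine sum_le_sum (fun v _ => (kc_le_choose G _ _).trans (Nat.choose_le_choose _ (hdeg v)))
  have h3 := Nat.add_one_mul_choose_eq D j
  have h : (j + 1) * (kc G univ (j + 1) * (D + 1))
      ≤ (j + 1) * ((D + 1).choose (j + 1) * (univ : Finset V).card) := by
    calc (j + 1) * (kc G univ (j + 1) * (D + 1)) = (D + 1) * ((j + 1) * kc G univ (j + 1)) := by
          ring
      _ = (D + 1) * ∑ v, kc G (nb G univ v) j := by rw [h1]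
      _ ≤ (D + 1) * ((univ : Finset V).card * D.choose j) := Nat.mul_le_mul_left _ h2
      _ = (univ : Finset V).card * ((D + 1) * D.choose j) := by ring
      _ = (univ : Finset V).card * ((D + 1).choose (j + 1) * (j + 1)) := by rw [h3]
      _ = _ := by ring
  exact Nat.le_of_mul_le_mul_left h (Nat.succ_pos _)

end gen

end Pool.Agent.H23.KT
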