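import Pool.Agent.H23.KT.Block

/-!
# Redistribution of the cliques of size `t ≥ 4`
-/

open Finset

set_option linter.unusedSectionVars false

namespace Pool.Agent.H23.KT

section binom

lemma choose_ratio {m n j : ℕ} (h : m ≤ n) : m.choose (j + 1) * n ≤ m * n.choose (j + 1) := by
  rcases m with _ | m
  · simp
  rcases n with _ | n
  · omega
  have h1 := Nat.add_one_mul_choose_eq m j
  have h2 := Nat.add_one_mul_choose_eq n j
  have h3 : m.choose j ≤ n.choose j := Nat.choose_le_choose j (by omega)
  have h4 : (j + 1) * ((m + 1).choose (j + 1) * (n + 1))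
      ≤ (j + 1) * ((m + 1) * (n + 1).choose (j + 1)) := by
    calc (j + 1) * ((m + 1).choose (j + 1) * (n + 1))
        = ((m + 1).choose (j + 1) * (j + 1)) * (n + 1) := by ring
      _ = ((m + 1) * m.choose j) * (n + 1) := by rw [h1]
      _ ≤ ((m + 1) * n.choose j) * (n + 1) :=
          Nat.mul_le_mul_right _ (Nat.mul_le_mul_left _ h3)
      _ = (m + 1) * ((n + 1) * n.choose j) := by ring
      _ = (m + 1) * ((n + 1).choose (j + 1) * (j + 1)) := by rw [h2]
      _ = _ := by ring
  exact Nat.le_of_mul_le_mul_left h4 (Nat.succ_pos j)

lemma choose_mul_le {q m j : ℕ} : q * m.choose (j + 1) ≤ (q * m).choose (j + 1) := by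
  rcases Nat.eq_zero_or_pos m with rfl | hm
  · simp
  rcases Nat.eq_zero_or_pos q with rfl | hq
  · simp
  have h := choose_ratio (m := m) (n := q * m) (j := j) (Nat.le_mul_of_pos_left m hq)
  have h2 : m * (q * m.choose (j + 1)) ≤ m * (q * m).choose (j + 1) := by
    calc m * (q * m.choose (j + 1)) = m.choose (j + 1) * (q * m) := by ring
      _ ≤ _ := h
  exact Nat.le_of_mul_le_mul_left h2 hm

/-- Removing `d` elements. -/
lemma choose_sub_ge (n : ℕ) : ∀ d i : ℕ, d ≤ n →
    n.choose (i + 1) ≤ (n - d).choose (i + 1) + d * (n - 1).choose i := by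
  intro d
  induction d with
  | zero => intro i _; simp
  | succ d ih =>
    intro i hd
    have h1 := ih i (by omega)
    obtain ⟨k, hk⟩ : ∃ k, n - d = k + 1 := ⟨n - d - 1, by omega⟩
    have h2 : n - (d + 1) = k := by omega
    rw [hk, Nat.choose_succ_succ] at h1
    rw [h2]
    have h3 : k.choose i ≤ (n - 1).choose i := Nat.choose_le_choose i (by omega)
    simp only [Nat.succ_eq_add_one] at h1
    rw [add_mul, one_mul]
    omega

/-- Concavity estimate. -/
lemma choose_concave {D b j : ℕ} (hb1 : 1 ≤ b) (hbD : b ≤ D) :
    2 * (j + 1) * (D - b).choose (j + 1) + (j + 1) * (D - 1).choose j + b * (D - 1).choose j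
      ≤ 2 * (j + 1) * D.choose (j + 1) := by
  obtain ⟨n, rfl⟩ : ∃ n, D = n + 1 := ⟨D - 1, by omega⟩
  rw [Nat.add_sub_cancel]
  have h1 := choose_ratio (m := n + 1 - b) (n := n + 1) (j := j) (by omega)
  have h2 := Nat.add_one_mul_choose_eq n j
  have h3 : (n + 1 - b).choose (j + 1) ≤ n.choose (j + 1) :=
    Nat.choose_le_choose _ (by omega)
  have h4 : (n + 1).choose (j + 1) = n.choose j + n.choose (j + 1) := Nat.choose_succ_succ' _ _
  have h5 : (j + 1) * (n + 1 - b).choose (j + 1) + b * n.choose j
      ≤ (j + 1) * (n + 1).choose (j + 1) := by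
    have h6 : (n + 1) * ((j + 1) * (n + 1 - b).choose (j + 1) + b * n.choose j)
        ≤ (n + 1) * ((j + 1) * (n + 1).choose (j + 1)) := by
      calc (n + 1) * ((j + 1) * (n + 1 - b).choose (j + 1) + b * n.choose j)
          = (j + 1) * ((n + 1 - b).choose (j + 1) * (n + 1)) + b * ((n + 1) * n.choose j) := by ring
        _ ≤ (j + 1) * ((n + 1 - b) * (n + 1).choose (j + 1)) + b * ((n + 1) * n.choose j) :=
            Nat.add_le_add_right (Nat.mul_le_mul_left _ h1) _
        _ = (j + 1) * ((n + 1 - b) * (n + 1).choose (j + 1))
            + b * ((n + 1).choose (j + 1) * (j + 1)) := by rw [h2]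
        _ = ((n + 1 - b) + b) * ((j + 1) * (n + 1).choose (j + 1)) := by ring
        _ = _ := by rw [Nat.sub_add_cancel hbD]
    exact Nat.le_of_mul_le_mul_left h6 (Nat.succ_pos n)
  have h7 : (j + 1) * (n + 1 - b).choose (j + 1) + (j + 1) * n.choose j
      ≤ (j + 1) * (n + 1).choose (j + 1) := by
    rw [h4, ← mul_add]
    exact Nat.mul_le_mul_left _ (by omega)
  nlinarith

/-- Union bound for the number of cliques of a Turán graph. -/
lemma P_lower (a b j : ℕ) : (2 * a + b).choose (j + 2)
    ≤ (P a b).coeff (j + 2) + a * (2 * a + b - 2).choose j := by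
  induction a generalizing j with
  | zero => rw [P_choose]; simp
  | succ a ih =>
    rw [P_left]
    have e1 : 2 * (a + 1) + b = (2 * a + b) + 1 + 1 := by ring
    have e2 : 2 * (a + 1) + b - 2 = 2 * a + b := by omega
    rw [e2, e1]
    set N := 2 * a + b with hN
    have h1 : (N + 1 + 1).choose (j + 2) = N.choose j + 2 * N.choose (j + 1)
        + N.choose (j + 2) := by
      have a1 : (N + 1 + 1).choose (j + 2) = (N + 1).choose (j + 1) + (N + 1).choose (j + 2) :=
        Nat.choose_succ_succ' _ _
      have a2 : (N + 1).choose (j + 1) = N.choose j + N.choose (j + 1) :=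
        Nat.choose_succ_succ' _ _
      have a3 : (N + 1).choose (j + 2) = N.choose (j + 1) + N.choose (j + 2) :=
        Nat.choose_succ_succ' _ _
      omega
    have h2 := ih j
    rcases j with _ | j
    · -- `j = 0`
      have h4 : N ≤ (P a b).coeff 1 := by
        have : ∀ a : ℕ, (P a b).coeff 1 = 2 * a + b := by
          intro a
          induction a with
          | zero => rw [P_choose, Nat.choose_one_right]; ring
          | succ a ih => rw [P_left, ih, P_zero]; ring
        rw [this]
      simp only [Nat.choose_zero_right, zero_add, mul_one, Nat.choose_one_right,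
        Nat.reduceAdd] at h1 h2 ⊢
      omega
    · have h3 := ih j
      rcases Nat.lt_or_ge N 2 with hN2 | hN2
      · -- then `a = 0`
        have ha : a = 0 := by omega
        subst ha
        simp only [zero_mul, add_zero] at h2 h3 ⊢
        rw [h1]
        simp only [show j + 1 + 2 = j + 3 by ring, show j + 1 + 1 = j + 2 by ring] at *
        simp only [zero_add, one_mul] at *
        omega
      · obtain ⟨M, hM⟩ : ∃ M, N = M + 1 + 1 := ⟨N - 2, by omega⟩
        have b1 : N.choose (j + 1) = (M + 1).choose j + (M + 1).choose (j + 1) := by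
          rw [hM]; exact Nat.choose_succ_succ' _ _
        have b2 : (M + 1).choose (j + 1) = M.choose j + M.choose (j + 1) :=
          Nat.choose_succ_succ' _ _
        have b3 : M.choose j ≤ (M + 1).choose j := Nat.choose_le_choose j (by omega)
        have b4 : M.choose (j + 1) + 2 * M.choose j ≤ N.choose (j + 1) := by omega
        have hM2 : N - 2 = M := by omega
        rw [hM2] at h2 h3
        simp only [show j + 1 + 2 = j + 3 by ring, show j + 1 + 1 = j + 2 by ring] at *
        rw [h1]
        nlinarith [Nat.mul_le_mul_left a b4]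

end binom

section clq

open Classical in
/-- The `j`-cliques of `G` inside `W`. -/
noncomputable def clq {V : Type*} (G : SimpleGraph V) (W : Finset V) (j : ℕ) :
    Finset (Finset V) :=
  (W.powersetCard j).filter (fun S : Finset V => G.IsClique (S : Set V))

lemma mem_clq {V : Type*} (G : SimpleGraph V) {W : Finset V} {j : ℕ} {S : Finset V} :
    S ∈ clq G W j ↔ S ⊆ W ∧ S.card = j ∧ G.IsClique (S : Set V) := by
  classical
  unfold clq
  rw [mem_filter, mem_powersetCard, and_assoc]

lemma kc_eq {V : Type*} (G : SimpleGraph V) (W : Finset V) (j : ℕ) :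
    kc G W j = (clq G W j).card := rfl

end clq

section count

variable {V : Type*} [DecidableEq V] (G : SimpleGraph V)

/-- Sets containing `X` with the rest in `S`. -/
lemma card_le_choose' {F : Finset (Finset V)} {X S : Finset V} {t : ℕ}
    (h : ∀ T ∈ F, X ⊆ T ∧ T \ X ⊆ S ∧ T.card = t + X.card) : F.card ≤ S.card.choose t := by
  rw [← card_powersetCard]
  refine card_le_card_of_injOn (fun T => T \ X) ?_ ?_
  · intro T hT
    obtain ⟨h1, h2, h3⟩ := h T hT
    rw [mem_coe, mem_powersetCard]
    refine ⟨h2, ?_⟩
    change (T \ X).card = t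
    have := card_sdiff_add_card_eq_card h1
    omega
  · intro T hT T' hT' hTT
    simp only at hTT
    rw [← sdiff_union_of_subset (h T hT).1, hTT, sdiff_union_of_subset (h T' hT').1]

lemma card_le_kc {F : Finset (Finset V)} {z : V} {S : Finset V} {j : ℕ}
    (h : ∀ T ∈ F, z ∈ T ∧ T.erase z ⊆ S ∧ T.card = j + 1 ∧ G.IsClique (T : Set V)) :
    F.card ≤ kc G S j := by
  rw [kc_eq]
  refine card_le_card_of_injOn (fun T => T.erase z) ?_ ?_
  · intro T hT
    obtain ⟨h1, h2, h3, h4⟩ := h T hT
    rw [mem_coe, mem_clq]
    refine ⟨h2, ?_, h4.subset (by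
      intro y hy
      exact mem_coe.2 (mem_of_mem_erase (mem_coe.1 hy)))⟩
    change (T.erase z).card = j
    have := card_erase_add_one h1
    omega
  · intro T hT T' hT' hTT
    simp only at hTT
    rw [← insert_erase (h T hT).1, hTT, insert_erase (h T' hT').1]

/-- Cliques in a set with at least `g` missing edges. -/
lemma kc_missing : ∀ (n : ℕ) (W : Finset V), W.card = n → ∀ g i : ℕ,
    2 * g ≤ ∑ x ∈ W, (nn G W x).card → kc G W (i + 2) + g * (n - 2 * g).choose i
      ≤ n.choose (i + 2) := by
  intro n
  induction n with
  | zero =>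
    intro W hW g i hg
    rw [card_eq_zero] at hW
    subst hW
    have h1 := kc_le_choose G (∅ : Finset V) (i + 2)
    rw [card_empty] at h1
    rw [sum_empty] at hg
    have : g = 0 := by omega
    subst this
    omega
  | succ n ih =>
    intro W hW g i hg
    rcases Nat.eq_zero_or_pos g with hg0 | hgpos
    · subst hg0
      have h1 := kc_le_choose G W (i + 2)
      rw [hW] at h1
      omega
    obtain ⟨x, hx, hx0⟩ : ∃ x ∈ W, (nn G W x).card ≠ 0 := by
      by_contra hcon
      push Not at hcon
      rw [sum_eq_zero hcon] at hg
      omega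
    have h1 := card_erase_add_one hx
    have h2 := nb_add_nn G hx
    have hks : kc G W (i + 2) = kc G (W.erase x) (i + 2) + kc G (nb G W x) (i + 1) :=
      kc_succ G hx (i + 1)
    rw [hks]
    have h3 := kc_le_choose G (nb G W x) (i + 1)
    have h4 : (n + 1).choose (i + 2) = n.choose (i + 1) + n.choose (i + 2) :=
      Nat.choose_succ_succ' _ _
    have h5 : (nb G W x).card = n - (nn G W x).card := by omega
    rw [h5] at h3
    have hmn : (nn G W x).card ≤ n := by omega
    -- the loss in the second term
    have hloss : ∀ e, e ≤ (nn G W x).card → (n - (nn G W x).card).choose (i + 1)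
        + e * (n - e).choose i ≤ n.choose (i + 1) := by
      intro e
      induction e with
      | zero =>
        intro _
        have := Nat.choose_le_choose (i + 1) (show n - (nn G W x).card ≤ n by omega)
        omega
      | succ e ihe =>
        intro he
        -- direct: `C(n, i+1) = C(n-e-1, i+1) + ∑ C(n-l, i)`
        have key : ∀ e', e' ≤ n → (n - e').choose (i + 1) + e' * (n - e').choose i
            ≤ n.choose (i + 1) := by
          intro e'
          induction e' with
          | zero => intro _; simp
          | succ e' ih' =>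
            intro h'
            have q := ih' (by omega)
            obtain ⟨k, hk⟩ : ∃ k, n - e' = k + 1 := ⟨n - e' - 1, by omega⟩
            have q2 : n - (e' + 1) = k := by omega
            rw [q2]
            rw [hk] at q
            have q3 : (k + 1).choose (i + 1) = k.choose i + k.choose (i + 1) :=
              Nat.choose_succ_succ' _ _
            have q4 : k.choose i ≤ (k + 1).choose i := Nat.choose_le_choose i (by omega)
            have q5 : e' * k.choose i ≤ e' * (k + 1).choose i := Nat.mul_le_mul_left _ q4
            rw [add_mul, one_mul]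
            omega
        have q := key (e + 1) (by omega)
        have q2 := Nat.choose_le_choose (i + 1)
          (show n - (nn G W x).card ≤ n - (e + 1) by omega)
        omega
    rcases Nat.lt_or_ge (nn G W x).card g with hlt | hge
    · -- `g > m_x`
      have hcomm : ∑ w ∈ W.erase x, (nn G (W.erase x) w).card + 2 * (nn G W x).card
          = ∑ w ∈ W, (nn G W w).card := by
        have hsub : nn G W x ⊆ W.erase x := by
          intro y hy
          rw [mem_nn] at hy
          rw [mem_erase]
          exact ⟨hy.2.1, hy.1⟩
        have hind : ∑ w ∈ W.erase x, (if w ∈ nn G W x then 1 else 0) = (nn G W x).card := by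
          rw [← card_filter, filter_mem_eq_inter, inter_eq_right.2 hsub]
        rw [← add_sum_erase _ _ hx]
        have : ∑ w ∈ W.erase x, (nn G W w).card = ∑ w ∈ W.erase x,
            ((nn G (W.erase x) w).card + if w ∈ nn G W x then 1 else 0) := by
          refine sum_congr rfl (fun w hw => ?_)
          rw [mem_erase] at hw
          have h1 : nn G (W.erase x) w = (nn G W w).erase x := by
            ext y
            simp only [mem_nn, mem_erase]
            tauto
          by_cases h : w ∈ nn G W x
          · rw [if_pos h, h1]
            exact (card_erase_add_one ((mem_nn_comm G hx hw.2).1 h)).symm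
          · rw [if_neg h, h1, erase_eq_of_notMem, add_zero]
            intro h'
            exact h ((mem_nn_comm G hx hw.2).2 h')
        rw [this, sum_add_distrib, hind]
        ring
      have h6 := ih (W.erase x) (by omega) (g - (nn G W x).card) i (by omega)
      have h7 := hloss (nn G W x).card le_rfl
      have h8 : (n + 1 - 2 * g).choose i ≤ (n - 2 * (g - (nn G W x).card)).choose i :=
        Nat.choose_le_choose i (by omega)
      have h9 : (n + 1 - 2 * g).choose i ≤ (n - (nn G W x).card).choose i :=
        Nat.choose_le_choose i (by omega)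
      have h10 : g * (n + 1 - 2 * g).choose i
          ≤ (g - (nn G W x).card) * (n - 2 * (g - (nn G W x).card)).choose i
            + (nn G W x).card * (n - (nn G W x).card).choose i := by
        calc g * (n + 1 - 2 * g).choose i = ((g - (nn G W x).card) + (nn G W x).card)
              * (n + 1 - 2 * g).choose i := by rw [Nat.sub_add_cancel hlt.le]
          _ = (g - (nn G W x).card) * (n + 1 - 2 * g).choose i
              + (nn G W x).card * (n + 1 - 2 * g).choose i := by ring
          _ ≤ _ := Nat.add_le_add (Nat.mul_le_mul_left _ h8) (Nat.mul_le_mul_left _ h9)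
      omega
    · have h6 := kc_le_choose G (W.erase x) (i + 2)
      rw [show (W.erase x).card = n by omega] at h6
      have h7 := hloss g hge
      have h8 : (n + 1 - 2 * g).choose i ≤ (n - g).choose i :=
        Nat.choose_le_choose i (by omega)
      have h9 := Nat.mul_le_mul_left g h8
      omega

end count

end Pool.Agent.H23.KT
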