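import Pool.Agent.H23.KT.Gen

/-!
# Redistribution of the cliques of size `t ≥ 4`: the weights
-/

open Finset

set_option linter.unusedSectionVars false

namespace Pool.Agent.H23.KT

section gen

variable {V : Type*} [Fintype V] [DecidableEq V] (G : SimpleGraph V)

/-- `T` lies in a block. -/
def inB (D s : ℕ) (T : Finset V) : Prop := ∃ v, Bad G D s v ∧ T ⊆ Nc G v

open Classical in
/-- The weight of the clique `T` at `z`. -/
noncomputable def wt (D s t : ℕ) (T : Finset V) (z : V) : ℕ :=
  if inB G D s T then 1 else if inB G D s (T.erase z) then t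
  else if ∃ a ∈ T, inB G D s (T.erase a) then 0 else 1

/-- The total weight at `z`. -/
noncomputable def WG (D s t : ℕ) (z : V) : ℕ :=
  ∑ T ∈ (clq G univ t).filter (fun T => z ∈ T), wt G D s t T z

variable {D s : ℕ} (hs : 1 ≤ s) (hD : 24 * s ≤ D) (hdeg : ∀ v, (nb G univ v).card ≤ D)

include hs hD hdeg

lemma sum_wt {t : ℕ} (ht : 3 ≤ t) {T : Finset V} (hT : T.card = t) :
    ∑ z ∈ T, wt G D s t T z = t := by
  classical
  unfold wt
  by_cases h1 : inB G D s T
  · simp only [if_pos h1]
    rw [sum_const, smul_eq_mul, mul_one, hT]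
  · simp only [if_neg h1]
    by_cases h2 : ∃ a ∈ T, inB G D s (T.erase a)
    · simp only [if_pos h2]
      obtain ⟨a, ha, hB⟩ := h2
      have huniq : ∀ z ∈ T, z ≠ a → ¬ inB G D s (T.erase z) := by
        intro z hz hza hBz
        obtain ⟨v, hv, hTv⟩ := hB
        obtain ⟨v', hv', hTv'⟩ := hBz
        have hc1 := card_erase_add_one ha
        have hc2 := card_erase_add_one (mem_erase.2 ⟨hza, hz⟩)
        obtain ⟨x, hx⟩ := card_pos.1 (show 0 < ((T.erase a).erase z).card by omega)
        rw [mem_erase, mem_erase] at hx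
        have heq := block_eq G hs hD hdeg hv hv' (hTv (mem_erase.2 hx.2))
          (hTv' (mem_erase.2 ⟨hx.1, hx.2.2⟩))
        apply h1
        refine ⟨v, hv, ?_⟩
        intro y hy
        by_cases hya : y = a
        · rw [heq]
          exact hTv' (mem_erase.2 ⟨fun h => hza (h ▸ hya), hy⟩)
        · exact hTv (mem_erase.2 ⟨hya, hy⟩)
      rw [← add_sum_erase _ _ ha, if_pos hB]
      have : ∑ z ∈ T.erase a, (if inB G D s (T.erase z) then t else 0) = 0 := by
        apply sum_eq_zero
        intro z hz
        rw [mem_erase] at hz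
        rw [if_neg (huniq z hz.2 hz.1)]
      rw [this, add_zero]
    · simp only [if_neg h2]
      have : ∑ z ∈ T, (if inB G D s (T.erase z) then t else 1) = ∑ z ∈ T, 1 := by
        refine sum_congr rfl (fun z hz => ?_)
        rw [if_neg (fun h => h2 ⟨z, hz, h⟩)]
      rw [this, sum_const, smul_eq_mul, mul_one, hT]

lemma sum_WG {t : ℕ} (ht : 3 ≤ t) : ∑ z, WG G D s t z = t * kc G univ t := by
  classical
  unfold WG
  have h1 : ∀ z, ∑ T ∈ (clq G univ t).filter (fun T => z ∈ T), wt G D s t T z
      = ∑ T ∈ clq G univ t, if z ∈ T then wt G D s t T z else 0 := by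
    intro z
    rw [sum_filter]
  simp only [h1]
  rw [sum_comm]
  have h2 : ∀ T ∈ clq G univ t, ∑ z, (if z ∈ T then wt G D s t T z else 0) = t := by
    intro T hT
    rw [← sum_filter]
    have : (univ : Finset V).filter (fun z => z ∈ T) = T := by
      ext z
      simp
    rw [this]
    exact sum_wt G hs hD hdeg ht ((mem_clq G).1 hT).2.1
  rw [sum_congr rfl h2, sum_const, smul_eq_mul, kc_eq, mul_comm]

omit hs hD hdeg in
lemma clq_erase {t : ℕ} {T : Finset V} {z : V} (hT : T ∈ clq G univ t) (hz : z ∈ T) :
    T.erase z ⊆ nb G univ z := by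
  intro y hy
  rw [mem_erase] at hy
  rw [mem_N]
  exact ((mem_clq G).1 hT).2.2 (mem_coe.2 hz) (mem_coe.2 hy.2) (Ne.symm hy.1)

/-- Vertices outside all blocks. -/
lemma WG_out {i : ℕ} (hi : 1 ≤ i) (hDi : 24 * (i + 1) * s ≤ D) {z : V}
    (hz : ∀ v, Bad G D s v → z ∉ Nc G v) :
    (D + 1) * WG G D s (i + 3) z + (i + 3) * s * (D - 1).choose (i + 1)
      ≤ (D + 1) * D.choose (i + 2) := by
  classical
  have hnB : ∀ T : Finset V, z ∈ T → ¬ inB G D s T := by
    rintro T hzT ⟨v, hv, hTv⟩
    exact hz v hv (hTv hzT)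
  have hsi : s ≤ (i + 1) * s := Nat.le_mul_of_pos_left s (Nat.succ_pos i)
  by_cases hA : ∀ x ∈ nb G univ z, ∀ v, Bad G D s v → x ∉ Nc G v
  · -- no neighbour in a block
    have hW : WG G D s (i + 3) z ≤ kc G (nb G univ z) (i + 2) := by
      have h1 : WG G D s (i + 3) z
          ≤ ∑ T ∈ (clq G univ (i + 3)).filter (fun T => z ∈ T), 1 := by
        unfold WG
        refine sum_le_sum (fun T hT => ?_)
        rw [mem_filter] at hT
        unfold wt
        rw [if_neg (hnB T hT.2), if_neg]
        · split_ifs <;> omega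
        · rintro ⟨v, hv, hTv⟩
          have hc := card_erase_add_one hT.2
          rw [((mem_clq G).1 hT.1).2.1] at hc
          obtain ⟨x, hx⟩ := card_pos.1 (show 0 < (T.erase z).card by omega)
          exact hA x (clq_erase G hT.1 hT.2 hx) v hv (hTv hx)
      rw [sum_const, smul_eq_mul, mul_one] at h1
      refine h1.trans (card_le_kc G (z := z) ?_)
      intro T hT
      rw [mem_filter] at hT
      have h2 := (mem_clq G).1 hT.1
      exact ⟨hT.2, clq_erase G hT.1 hT.2, h2.2.1, h2.2.2⟩
    obtain ⟨n, rfl⟩ : ∃ n, D = n + 3 := ⟨D - 3, by omega⟩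
    have e1 : n + 3 - 1 = n + 2 := by omega
    rw [e1]
    have hpas : (n + 3).choose (i + 2) = (n + 2).choose (i + 1) + (n + 2).choose (i + 2) :=
      Nat.choose_succ_succ' _ _
    rcases Nat.lt_or_ge (nb G univ z).card (n + 3) with hlt | hge
    · have h1 := kc_le_choose G (nb G univ z) (i + 2)
      have h2 : (nb G univ z).card.choose (i + 2) ≤ (n + 2).choose (i + 2) :=
        Nat.choose_le_choose _ (by omega)
      have h3 : WG G (n + 3) s (i + 3) z ≤ (n + 2).choose (i + 2) := by omega
      have h4 : (i + 3) * s ≤ n + 3 + 1 := by nlinarith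
      have h5 := Nat.mul_le_mul_left (n + 3 + 1) h3
      have h6 := Nat.mul_le_mul_right ((n + 2).choose (i + 1)) h4
      rw [hpas, mul_add]
      omega
    · have hcard : (nb G univ z).card = n + 3 := le_antisymm (hdeg z) hge
      have hnbad : ¬ Bad G (n + 3) s z := fun h => hz z h (self_mem_Nc G z)
      unfold Bad at hnbad
      rw [e1] at hnbad
      have hmiss : 2 * (3 * s) ≤ ∑ x ∈ nb G univ z, (nn G (nb G univ z) x).card := by
        have : ∑ x ∈ nb G univ z, ((nb G (nb G univ z) x).card
            + (nn G (nb G univ z) x).card + 1) = ∑ x ∈ nb G univ z, (n + 3) := by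
          refine sum_congr rfl (fun x hx => ?_)
          rw [nb_add_nn G hx, hcard]
        rw [sum_add_distrib, sum_add_distrib, sum_const, sum_const, hcard, smul_eq_mul,
          smul_eq_mul, mul_one] at this
        unfold aa at hnbad
        nlinarith
      have h1 := kc_missing G _ (nb G univ z) rfl (3 * s) i hmiss
      rw [hcard] at h1
      -- numerical part
      obtain ⟨i, rfl⟩ : ∃ i', i = i' + 1 := ⟨i - 1, by omega⟩
      have h2 := choose_sub_ge (n + 1) (6 * s - 2) i (by omega)
      have h3 := Nat.add_one_mul_choose_eq n i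
      have h4 := Nat.add_one_mul_choose_eq (n + 1) (i + 1)
      rw [show n + 1 - (6 * s - 2) = n + 3 - 2 * (3 * s) by omega,
        show n + 1 - 1 = n by omega] at h2
      set X := (n + 3 - 2 * (3 * s)).choose (i + 1) with hX
      set Y := (n + 1).choose (i + 1) with hY
      have e2 : n + 1 + 1 = n + 2 := rfl
      have e3 : i + 1 + 1 = i + 2 := rfl
      rw [e2, e3] at h4
      rw [e3]
      -- `2 Y ≤ 3 X`
      have h5 : 2 * Y ≤ 3 * X := by
        have h6 : (n + 1) * Y ≤ (n + 1) * X + (6 * s - 2) * (i + 1) * Y := by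
          calc (n + 1) * Y ≤ (n + 1) * (X + (6 * s - 2) * n.choose i) :=
                Nat.mul_le_mul_left _ h2
            _ = (n + 1) * X + (6 * s - 2) * ((n + 1) * n.choose i) := by ring
            _ = (n + 1) * X + (6 * s - 2) * (Y * (i + 1)) := by rw [h3]
            _ = _ := by ring
        have h7 : 3 * ((6 * s - 2) * (i + 1)) ≤ n + 1 := by
          have : (6 * s - 2) * (i + 1) + 2 * (i + 1) = 6 * s * (i + 1) := by
            rw [← add_mul]
            congr 1
            omega
          nlinarith
        have h8 := Nat.mul_le_mul_right Y h7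
        have h9 : (n + 1) * (2 * Y) ≤ (n + 1) * (3 * X) := by nlinarith
        exact Nat.le_of_mul_le_mul_left h9 (Nat.succ_pos n)
      -- `(i + 4) s C(n+2, i+2) ≤ (n + 4) 3 s X`
      have h10 : (i + 1 + 3) * s * (n + 2).choose (i + 2) ≤ (n + 3 + 1) * (3 * s * X) := by
        have h11 : (i + 2) * ((i + 1 + 3) * s * (n + 2).choose (i + 2))
            ≤ (i + 2) * ((n + 3 + 1) * (3 * s * X)) := by
          calc (i + 2) * ((i + 1 + 3) * s * (n + 2).choose (i + 2))
              = (i + 4) * s * ((n + 2).choose (i + 2) * (i + 2)) := by ring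
            _ = (i + 4) * s * ((n + 2) * Y) := by rw [← h4]
            _ ≤ (2 * (i + 2)) * s * ((n + 4) * Y) := by
                apply Nat.mul_le_mul
                · apply Nat.mul_le_mul_right
                  omega
                · apply Nat.mul_le_mul_right
                  omega
            _ = (i + 2) * s * (n + 4) * (2 * Y) := by ring
            _ ≤ (i + 2) * s * (n + 4) * (3 * X) := Nat.mul_le_mul_left _ h5
            _ = _ := by ring
        exact Nat.le_of_mul_le_mul_left h11 (Nat.succ_pos _)
      have h12 : WG G (n + 3) s (i + 1 + 3) z + 3 * s * X ≤ (n + 3).choose (i + 1 + 2) :=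
        (Nat.add_le_add_right hW _).trans h1
      have h13 := Nat.mul_le_mul_left (n + 3 + 1) h12
      rw [mul_add] at h13
      omega
  · -- some neighbour in a block
    push Not at hA
    set B := (nb G univ z).filter (fun x => ∃ v, Bad G D s v ∧ x ∈ Nc G v) with hB
    have hb1 : 1 ≤ B.card := by
      obtain ⟨x, hx, v, hv, hxv⟩ := hA
      exact card_pos.2 ⟨x, mem_filter.2 ⟨hx, v, hv, hxv⟩⟩
    have hBN : B ⊆ nb G univ z := filter_subset _ _
    have hbD : B.card ≤ D := (card_le_card hBN).trans (hdeg z)
    set F := (clq G univ (i + 3)).filter (fun T => z ∈ T) with hF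
    have hsplit : WG G D s (i + 3) z
        = ∑ T ∈ F.filter (fun T => Disjoint (T.erase z) B), wt G D s (i + 3) T z
        + ∑ T ∈ F.filter (fun T => ¬ Disjoint (T.erase z) B), wt G D s (i + 3) T z := by
      unfold WG
      rw [sum_filter_add_sum_filter_not]
    have hFm : ∀ T ∈ F, T ∈ clq G univ (i + 3) ∧ z ∈ T := fun T hT => mem_filter.1 hT
    have hBin : ∀ T ∈ F, inB G D s (T.erase z) → T.erase z ⊆ B := by
      rintro T hT ⟨v, hv, hTv⟩ y hy
      obtain ⟨hT1, hT2⟩ := hFm T hT
      exact mem_filter.2 ⟨clq_erase G hT1 hT2 hy, v, hv, hTv hy⟩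
    have hcardT : ∀ T ∈ F, (T.erase z).card = i + 2 := by
      intro T hT
      obtain ⟨hT1, hT2⟩ := hFm T hT
      have hc := card_erase_add_one hT2
      rw [((mem_clq G).1 hT1).2.1] at hc
      omega
    -- first part
    have hp1 : ∑ T ∈ F.filter (fun T => Disjoint (T.erase z) B), wt G D s (i + 3) T z
        ≤ (D - B.card).choose (i + 2) := by
      have h1 : ∑ T ∈ F.filter (fun T => Disjoint (T.erase z) B), wt G D s (i + 3) T z
          ≤ ∑ T ∈ F.filter (fun T => Disjoint (T.erase z) B), 1 := by
        refine sum_le_sum (fun T hT => ?_)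
        rw [mem_filter] at hT
        unfold wt
        rw [if_neg (hnB T (hFm T hT.1).2), if_neg]
        · split_ifs <;> omega
        · intro h
          have h2 := hBin T hT.1 h
          have h3 := hcardT T hT.1
          obtain ⟨x, hx⟩ := card_pos.1 (show 0 < (T.erase z).card by omega)
          exact disjoint_left.1 hT.2 hx (h2 hx)
      rw [sum_const, smul_eq_mul, mul_one] at h1
      refine h1.trans ?_
      have h2 : (F.filter (fun T => Disjoint (T.erase z) B)).card
          ≤ kc G (nb G univ z \ B) (i + 2) := by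
        apply card_le_kc G (z := z)
        intro T hT
        rw [mem_filter] at hT
        obtain ⟨hT1, hT2⟩ := hFm T hT.1
        have h3 := (mem_clq G).1 hT1
        refine ⟨hT2, ?_, h3.2.1, h3.2.2⟩
        intro y hy
        exact mem_sdiff.2 ⟨clq_erase G hT1 hT2 hy, disjoint_left.1 hT.2 hy⟩
      refine h2.trans ((kc_le_choose G _ _).trans (Nat.choose_le_choose _ ?_))
      have h4 := card_sdiff_add_card_eq_card hBN
      have h5 := hdeg z
      omega
    -- second part
    have hp2 : (i + 2) * ∑ T ∈ F.filter (fun T => ¬ Disjoint (T.erase z) B), wt G D s (i + 3) T z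
        ≤ (i + 3) * (B.card * (6 * s - 2).choose (i + 1)) := by
      have h1 : (i + 2) * ∑ T ∈ F.filter (fun T => ¬ Disjoint (T.erase z) B),
          wt G D s (i + 3) T z ≤ ∑ T ∈ F, (i + 3) * ∑ x ∈ B, if x ∈ T.erase z then 1 else 0 := by
        rw [mul_sum]
        refine (sum_le_sum (fun T hT => ?_)).trans (sum_le_sum_of_subset (filter_subset _ _))
        rw [mem_filter] at hT
        have h2 : ∑ x ∈ B, (if x ∈ T.erase z then 1 else 0) = (B ∩ T.erase z).card := by
          rw [← card_filter, filter_mem_eq_inter]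
        rw [h2]
        have h3 := hcardT T hT.1
        unfold wt
        rw [if_neg (hnB T (hFm T hT.1).2)]
        by_cases h4 : inB G D s (T.erase z)
        · rw [if_pos h4, inter_eq_right.2 (hBin T hT.1 h4), h3, mul_comm]
        · rw [if_neg h4]
          have h5 : 1 ≤ (B ∩ T.erase z).card := by
            rw [not_disjoint_iff] at hT
            obtain ⟨_, x, hx, hxB⟩ := hT
            exact card_pos.2 ⟨x, mem_inter.2 ⟨hxB, hx⟩⟩
          have h6 : (i + 3) * 1 ≤ (i + 3) * (B ∩ T.erase z).card := Nat.mul_le_mul_left _ h5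
          split_ifs <;> omega
      refine h1.trans ?_
      rw [← mul_sum, sum_comm]
      apply Nat.mul_le_mul_left
      rw [← smul_eq_mul, ← sum_const]
      refine sum_le_sum (fun x hx => ?_)
      rw [← card_filter]
      rw [hB, mem_filter] at hx
      obtain ⟨hxN, v, hv, hxv⟩ := hx
      have hzx : G.Adj z x := (mem_N G).1 hxN
      have hne : z ≠ x := hzx.ne
      have hcom := common G hs hD hdeg hv hxv (hz v hv) hzx
      refine le_trans ?_ (Nat.choose_le_choose (i + 1)
        (show (nb G (nb G univ z) x).card ≤ 6 * s - 2 by omega))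
      apply card_le_choose' (X := {z, x})
      intro T hT
      rw [mem_filter] at hT
      obtain ⟨hT1, hT2⟩ := hFm T hT.1
      have hxT := mem_of_mem_erase hT.2
      have h3 := (mem_clq G).1 hT1
      refine ⟨?_, ?_, ?_⟩
      · intro y hy
        rw [mem_insert, mem_singleton] at hy
        rcases hy with rfl | rfl
        · exact hT2
        · exact hxT
      · intro y hy
        rw [mem_sdiff, mem_insert, mem_singleton, not_or] at hy
        rw [mem_nb, mem_N]
        exact ⟨h3.2.2 (mem_coe.2 hT2) (mem_coe.2 hy.1) (Ne.symm hy.2.1),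
          h3.2.2 (mem_coe.2 hxT) (mem_coe.2 hy.1) (Ne.symm hy.2.2)⟩
      · rw [card_pair hne]
        exact h3.2.1
    have hq : 2 * (i + 3) * (6 * s - 2).choose (i + 1) ≤ (D - 1).choose (i + 1) := by
      calc 2 * (i + 3) * (6 * s - 2).choose (i + 1)
          ≤ (4 * (i + 1)) * (6 * s - 2).choose (i + 1) := Nat.mul_le_mul_right _ (by omega)
        _ ≤ ((4 * (i + 1)) * (6 * s - 2)).choose (i + 1) := choose_mul_le
        _ ≤ _ := Nat.choose_le_choose _ (by
            have : (4 * (i + 1)) * (6 * s - 2) + 8 * (i + 1) = 24 * (i + 1) * s := by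
              obtain ⟨s', rfl⟩ : ∃ s', s = s' + 1 := ⟨s - 1, by omega⟩
              rw [show 6 * (s' + 1) - 2 = 6 * s' + 4 by omega]
              ring
            omega)
    have hcc := choose_concave (j := i + 1) hb1 hbD
    rw [show i + 1 + 1 = i + 2 by ring] at hcc
    have hmain : 2 * WG G D s (i + 3) z + (D - 1).choose (i + 1) ≤ 2 * D.choose (i + 2) := by
      have h1 : (i + 2) * (2 * WG G D s (i + 3) z + (D - 1).choose (i + 1))
          ≤ (i + 2) * (2 * D.choose (i + 2)) := by
        have h2 := Nat.mul_le_mul_left B.card hq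
        have h3 := Nat.mul_le_mul_left (2 * (i + 2)) hp1
        rw [hsplit]
        generalize ∑ T ∈ F.filter (fun T => Disjoint (T.erase z) B), wt G D s (i + 3) T z
          = a at *
        generalize ∑ T ∈ F.filter (fun T => ¬ Disjoint (T.erase z) B), wt G D s (i + 3) T z
          = c at *
        nlinarith
      exact Nat.le_of_mul_le_mul_left h1 (Nat.succ_pos _)
    have h20 : 2 * ((i + 3) * s) ≤ D + 1 := by nlinarith
    have h21 := Nat.mul_le_mul_right ((D - 1).choose (i + 1)) h20
    have h22 := Nat.mul_le_mul_left (D + 1) hmain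
    nlinarith

end gen

end Pool.Agent.H23.KT
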