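import Pool.Agent.H23.KT.Gen2

/-!
# Redistribution of the cliques of size `t ≥ 4`: blocks
-/

open Finset

set_option linter.unusedSectionVars false

namespace Pool.Agent.H23.KT

section gen

variable {V : Type*} [Fintype V] [DecidableEq V] (G : SimpleGraph V)

variable {D s : ℕ} (hs : 1 ≤ s) (hD : 24 * s ≤ D) (hdeg : ∀ v, (nb G univ v).card ≤ D)

include hs hD hdeg

/-- The number of cliques inside a block. -/
lemma loss (hω : ∀ I : Finset V, G.IsClique (I : Set V) → I.card + s ≤ D + 1) {v : V}
    (hv : Bad G D s v) (k : ℕ) :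
    2 * kc G (Nc G v) (k + 2) + (∑ x ∈ Nc G v, (nn G (Nc G v) x).card - 2 * s)
      * (D + 1 - 6 * s).choose k ≤ 2 * E (D + 1) (D + 1 - s) (k + 2) := by
  classical
  have hcard := Bad.Nc_card G hs hD hdeg hv
  set β := Nc G v with hβ
  have hY := card_YY' G hs hD hdeg hv
  rw [← hβ] at hY
  obtain ⟨Y, hYY, hYβ, hYc⟩ := exists_subsuperset_card_eq (s := β.filter
    (fun u => (nn G β u).card ≠ 0)) (t := β) (n := 6 * s) (filter_subset _ _) hY.le (by omega)
  have huniv : ∀ z ∈ β, z ∉ Y → ∀ y ∈ β, y ≠ z → G.Adj z y := by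
    intro z hz hzY y hy hyz
    by_contra hadj
    apply hzY
    apply hYY
    rw [mem_filter]
    refine ⟨hz, ?_⟩
    have : y ∈ nn G β z := (mem_nn G).2 ⟨hy, hyz, hadj⟩
    exact (card_pos.2 ⟨y, this⟩).ne'
  have hCB : ∀ Z : Finset V, Z ⊆ β \ Y → CB G (Y ∪ Z) (5 * s + Z.card) := by
    intro Z hZ I hI hIcl
    have h1 : (β \ (Y ∪ Z)).card + (Y ∪ Z).card = β.card :=
      card_sdiff_add_card_eq_card (union_subset hYβ (hZ.trans sdiff_subset))
    have h2 : (Y ∪ Z).card = Y.card + Z.card := card_union_of_disjoint (by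
      rw [disjoint_left]
      intro y hy hyZ
      exact (mem_sdiff.1 (hZ hyZ)).2 hy)
    have h3 := hω (I ∪ (β \ (Y ∪ Z))) (by
      intro a ha b hb hab
      rw [mem_coe, mem_union] at ha hb
      have hin : ∀ c, (c ∈ I ∨ c ∈ β \ (Y ∪ Z)) → c ∈ β := by
        rintro c (hc | hc)
        · rcases mem_union.1 (hI hc) with h | h
          · exact hYβ h
          · exact (mem_sdiff.1 (hZ h)).1
        · exact (mem_sdiff.1 hc).1
      have hnY : ∀ c, c ∈ β \ (Y ∪ Z) → c ∉ Y := fun c hc h =>
        (mem_sdiff.1 hc).2 (mem_union_left _ h)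
      rcases ha with ha' | ha'
      · rcases hb with hb' | hb'
        · exact hIcl (mem_coe.2 ha') (mem_coe.2 hb') hab
        · exact (huniv b (hin b (Or.inr hb')) (hnY b hb') a (hin a (Or.inl ha')) hab).symm
      · exact huniv a (hin a (Or.inr ha')) (hnY a ha') b (hin b hb) (Ne.symm hab))
    rw [card_union_of_disjoint (by
      rw [disjoint_left]
      intro y hy hy'
      exact (mem_sdiff.1 hy').2 (hI hy))] at h3
    omega
  -- number of edges in `Y`
  have hedges : 2 * kc G Y 2 + ∑ x ∈ β, (nn G β x).card = 6 * s * (6 * s - 1) := by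
    have h1 := kc_sum G Y 1
    have h2 : ∀ x ∈ Y, kc G (nb G Y x) 1 = (nb G Y x).card := by
      intro x _
      have := kc_sum G (nb G Y x) 0
      simp only [kc_zero] at this
      simp only [sum_const, smul_eq_mul, mul_one, zero_add, one_mul] at this
      exact this.symm
    rw [sum_congr rfl h2] at h1
    have h3 : ∑ x ∈ β, (nn G β x).card = ∑ x ∈ Y, (nn G Y x).card := by
      rw [← sum_subset hYβ (f := fun x => (nn G β x).card)]
      · refine sum_congr rfl (fun x hx => ?_)
        congr 1
        ext y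
        rw [mem_nn, mem_nn]
        constructor
        · rintro ⟨hy, hyx, hadj⟩
          refine ⟨?_, hyx, hadj⟩
          by_contra hyY
          exact hadj (huniv y hy hyY x (hYβ hx) (Ne.symm hyx)).symm
        · rintro ⟨hy, h⟩
          exact ⟨hYβ hy, h⟩
      · intro x hx hxY
        rw [card_eq_zero, eq_empty_iff_forall_notMem]
        intro y hy
        rw [mem_nn] at hy
        exact hy.2.2 (huniv x hx hxY y hy.1 hy.2.1)
    rw [h3]
    have h4 : ∑ x ∈ Y, ((nb G Y x).card + (nn G Y x).card) = ∑ x ∈ Y, (6 * s - 1) := by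
      refine sum_congr rfl (fun x hx => ?_)
      have := nb_add_nn G hx
      omega
    rw [sum_add_distrib, sum_const, smul_eq_mul, hYc] at h4
    simp only [Nat.reduceAdd] at h1
    omega
  have hcov : 2 * s ≤ ∑ x ∈ β, (nn G β x).card := by
    obtain ⟨I, hI, hIcl, hcov⟩ := cover G (6 * s) _ β rfl (by
      intro z hz
      have h1 := single_le_sum (f := fun z => (nn G β z).card) (fun _ _ => Nat.zero_le _) hz
      have h2 := Bad.sum_nn G hs hD hdeg hv
      rw [← hβ] at h2
      omega)
    have h3 := hω I hIcl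
    have h4 := card_sdiff_add_card_eq_card hI
    have h5 : s ≤ (β \ I).card := by omega
    have h6 : 6 * (6 * s) * s ≤ 3 * (6 * s) * ∑ z ∈ β, (nn G β z).card := by
      have := Nat.mul_le_mul_left (6 * (6 * s)) h5
      omega
    have h7 : 18 * s * (2 * s) ≤ 18 * s * ∑ z ∈ β, (nn G β z).card := by nlinarith
    exact Nat.le_of_mul_le_mul_left h7 (by omega)
  have hE2 : E (6 * s) (5 * s) 2 + s = (6 * s).choose 2 := by
    rw [E_big (a := s) (b := 4 * s) (by ring) (by ring)]
    have h1 : ∀ a b : ℕ, (P a b).coeff 1 = 2 * a + b := by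
      intro a b
      induction a with
      | zero => rw [P_choose, Nat.choose_one_right]; ring
      | succ a ih => rw [P_left, ih, P_zero]; ring
    have h2 : ∀ a b : ℕ, (P a b).coeff 2 + a = (2 * a + b).choose 2 := by
      intro a b
      induction a with
      | zero => rw [P_choose]; simp
      | succ a ih =>
        have a1 : (2 * a + b + 1 + 1).choose 2 = (2 * a + b + 1).choose 1
          + (2 * a + b + 1).choose 2 := Nat.choose_succ_succ' _ _
        have a2 : (2 * a + b + 1).choose 2 = (2 * a + b).choose 1 + (2 * a + b).choose 2 :=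
          Nat.choose_succ_succ' _ _
        rw [Nat.choose_one_right] at a1 a2
        rw [P_left, h1, show 2 * (a + 1) + b = (2 * a + b) + 1 + 1 by ring, a1, a2, ← ih]
        simp only [Nat.reduceAdd]
        ring
    rw [h2]
    congr 1
    ring
  have hch2 : 2 * (6 * s).choose 2 = 6 * s * (6 * s - 1) := by
    rw [Nat.choose_two_right]
    exact Nat.mul_div_cancel' (by
      have := Nat.even_mul_succ_self (6 * s - 1)
      rw [show 6 * s - 1 + 1 = 6 * s by omega, mul_comm] at this
      exact this.two_dvd)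
  -- add the remaining vertices one by one
  have key : ∀ Z : Finset V, Z ⊆ β \ Y → ∀ k : ℕ, 2 * kc G (Y ∪ Z) (k + 2)
      + (∑ x ∈ β, (nn G β x).card - 2 * s) * Z.card.choose k
      ≤ 2 * E (6 * s + Z.card) (5 * s + Z.card) (k + 2) := by
    intro Z
    induction Z using Finset.induction_on with
    | empty =>
      intro _ k
      rw [union_empty, card_empty, add_zero, add_zero]
      rcases k with _ | k
      · rw [Nat.choose_zero_right, zero_add]
        omega
      · have h1 := hCB ∅ (empty_subset _)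
        rw [union_empty, card_empty, add_zero] at h1
        have h2 := zykov_le (n := 6 * s) (k + 1 + 2) h1 (by omega) (by omega)
        rw [Nat.choose_eq_zero_of_lt (Nat.succ_pos k)]
        omega
    | insert z Z hzZ ihZ =>
      intro hsub k
      have hzβY : z ∈ β \ Y := hsub (mem_insert_self _ _)
      have hZ : Z ⊆ β \ Y := (subset_insert _ _).trans hsub
      rw [mem_sdiff] at hzβY
      have hznot : z ∉ Y ∪ Z := by
        rw [mem_union]
        rintro (h | h)
        · exact hzβY.2 h
        · exact hzZ h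
      have hins : Y ∪ insert z Z = insert z (Y ∪ Z) := union_insert _ _ _
      have hnb : nb G (insert z (Y ∪ Z)) z = Y ∪ Z := by
        ext y
        rw [mem_nb, mem_insert]
        constructor
        · rintro ⟨h | h, hadj⟩
          · subst h
            exact absurd hadj (G.loopless.irrefl y)
          · exact h
        · intro h
          refine ⟨Or.inr h, huniv z hzβY.1 hzβY.2 y ?_ ?_⟩
          · rcases mem_union.1 h with h | h
            · exact hYβ h
            · exact (mem_sdiff.1 (hZ h)).1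
          · rintro rfl
            exact hznot h
      have hks : ∀ q, kc G (insert z (Y ∪ Z)) (q + 1) = kc G (Y ∪ Z) (q + 1)
          + kc G (Y ∪ Z) q := by
        intro q
        rw [kc_succ G (mem_insert_self z (Y ∪ Z)) q, hnb, erase_insert hznot]
      have hcone : ∀ q, E (6 * s + (Z.card + 1)) (5 * s + (Z.card + 1)) (q + 1)
          = E (6 * s + Z.card) (5 * s + Z.card) (q + 1)
            + E (6 * s + Z.card) (5 * s + Z.card) q := by
        intro q
        have := E_cone (6 * s + Z.card) (5 * s + Z.card) q (by omega)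
        rw [← this]
        congr 1
      rw [hins, card_insert_of_notMem hzZ]
      have e1 := ihZ hZ k
      rcases k with _ | k
      · have e2 : kc G (Y ∪ Z) 1 ≤ E (6 * s + Z.card) (5 * s + Z.card) 1 :=
          zykov_le 1 (hCB Z hZ) (by
            have := card_union_le Y Z
            omega) (by omega)
        have e3 := hks 1
        have e4 := hcone 1
        simp only [Nat.reduceAdd, zero_add, Nat.choose_zero_right] at e1 e3 e4 ⊢
        omega
      · have e2 := ihZ hZ k
        have e3 := hks (k + 2)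
        have e4 := hcone (k + 2)
        have e5 : (Z.card + 1).choose (k + 1) = Z.card.choose k + Z.card.choose (k + 1) :=
          Nat.choose_succ_succ' _ _
        simp only [show k + 1 + 2 = k + 3 by ring] at *
        rw [e5, mul_add]
        omega
  have hfin := key (β \ Y) Subset.rfl k
  have h1 := card_sdiff_add_card_eq_card hYβ
  rw [union_sdiff_of_subset hYβ, show (β \ Y).card = D + 1 - 6 * s by omega,
    show 6 * s + (D + 1 - 6 * s) = D + 1 by omega,
    show 5 * s + (D + 1 - 6 * s) = D + 1 - s by omega] at hfin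
  exact hfin

/-- The weight at a vertex of a block. -/
lemma WG_block_le {i : ℕ} {v z : V} (hv : Bad G D s v) (hz : z ∈ Nc G v) :
    2 * WG G D s (i + 3) z ≤ 2 * kc G (nb G (Nc G v) z) (i + 2)
      + (i + 3) * ((nn G (Nc G v) z).card * ((nn G (Nc G v) z).card - 1)
        * (6 * s).choose i) := by
  classical
  set β := Nc G v with hβ
  set F := (clq G univ (i + 3)).filter (fun T => z ∈ T) with hF
  have hFm : ∀ T ∈ F, T ∈ clq G univ (i + 3) ∧ z ∈ T := fun T hT => mem_filter.1 hT
  set O := nb G univ z \ β with hO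
  have hOc := outside G hs hD hdeg hv hz
  rw [← hβ, ← hO] at hOc
  -- pointwise bound
  have hpt : ∀ T ∈ F, 2 * wt G D s (i + 3) T z ≤ 2 * (if T ⊆ β then 1 else 0)
      + (i + 3) * ∑ p ∈ O.offDiag, if p.1 ∈ T ∧ p.2 ∈ T then 1 else 0 := by
    intro T hT
    obtain ⟨hT1, hT2⟩ := hFm T hT
    have hTm := (mem_clq G).1 hT1
    by_cases hTβ : T ⊆ β
    · rw [if_pos hTβ]
      have : inB G D s T := ⟨v, hv, hTβ⟩
      unfold wt
      rw [if_pos this]
      omega
    · rw [if_neg hTβ, mul_zero, zero_add]
      have hnB : ¬ inB G D s T := by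
        rintro ⟨v', hv', hTv'⟩
        apply hTβ
        rw [hβ, block_eq G hs hD hdeg hv hv' hz (hTv' hT2)]
        exact hTv'
      obtain ⟨a, haT, haβ⟩ := not_subset.1 hTβ
      have haz : a ≠ z := by
        rintro rfl
        exact haβ hz
      have haO : a ∈ O := mem_sdiff.2 ⟨clq_erase G hT1 hT2 (mem_erase.2 ⟨haz, haT⟩), haβ⟩
      by_cases hone : ∃ a' ∈ T, a' ∉ β ∧ a' ≠ a
      · obtain ⟨a', ha'T, ha'β, ha'a⟩ := hone
        have ha'z : a' ≠ z := by
          rintro rfl
          exact ha'β hz
        have ha'O : a' ∈ O :=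
          mem_sdiff.2 ⟨clq_erase G hT1 hT2 (mem_erase.2 ⟨ha'z, ha'T⟩), ha'β⟩
        have h2 : 2 ≤ ∑ p ∈ O.offDiag, if p.1 ∈ T ∧ p.2 ∈ T then 1 else 0 := by
          rw [← card_filter]
          have h3 : ({(a, a'), (a', a)} : Finset (V × V)) ⊆ O.offDiag.filter
              (fun p => p.1 ∈ T ∧ p.2 ∈ T) := by
            intro p hp
            rw [mem_insert, mem_singleton] at hp
            rw [mem_filter, mem_offDiag]
            rcases hp with rfl | rfl
            · exact ⟨⟨haO, ha'O, Ne.symm ha'a⟩, haT, ha'T⟩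
            · exact ⟨⟨ha'O, haO, ha'a⟩, ha'T, haT⟩
          have h4 := card_le_card h3
          rw [card_pair] at h4
          · exact h4
          · intro h
            rw [Prod.mk.injEq] at h
            exact ha'a h.2
        have h3 := Nat.mul_le_mul_left (i + 3) h2
        have h4 : wt G D s (i + 3) T z ≤ i + 3 := by
          unfold wt
          split_ifs <;> omega
        omega
      · -- only `a` is outside: the weight is zero
        push Not at hone
        have hTa : T.erase a ⊆ β := by
          intro y hy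
          rw [mem_erase] at hy
          by_contra hyβ
          exact hy.1 (hone y hy.2 hyβ)
        have h0 : wt G D s (i + 3) T z = 0 := by
          unfold wt
          rw [if_neg hnB, if_neg, if_pos ⟨a, haT, v, hv, hTa⟩]
          rintro ⟨v', hv', hTv'⟩
          have hc1 := card_erase_add_one haT
          have hc2 := card_erase_add_one (mem_erase.2 ⟨Ne.symm haz, hT2⟩)
          rw [hTm.2.1] at hc1
          obtain ⟨x, hx⟩ := card_pos.1 (show 0 < ((T.erase a).erase z).card by omega)
          rw [mem_erase, mem_erase] at hx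
          have hxβ := hTa (mem_erase.2 hx.2)
          have hxv' := hTv' (mem_erase.2 ⟨hx.1, hx.2.2⟩)
          have heq := block_eq G hs hD hdeg hv hv' hxβ hxv'
          apply haβ
          rw [hβ, heq]
          exact hTv' (mem_erase.2 ⟨haz, haT⟩)
        rw [h0]
        exact Nat.zero_le _
  have h1 : 2 * WG G D s (i + 3) z ≤ ∑ T ∈ F, (2 * (if T ⊆ β then 1 else 0)
      + (i + 3) * ∑ p ∈ O.offDiag, if p.1 ∈ T ∧ p.2 ∈ T then 1 else 0) := by
    unfold WG
    rw [mul_sum]
    exact sum_le_sum hpt
  rw [sum_add_distrib, ← mul_sum, ← mul_sum, ← card_filter, sum_comm] at h1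
  have h2 : (F.filter (fun T => T ⊆ β)).card ≤ kc G (nb G β z) (i + 2) := by
    apply card_le_kc G (z := z)
    intro T hT
    rw [mem_filter] at hT
    obtain ⟨hT1, hT2⟩ := hFm T hT.1
    have hTm := (mem_clq G).1 hT1
    refine ⟨hT2, ?_, hTm.2.1, hTm.2.2⟩
    intro y hy
    have := clq_erase G hT1 hT2 hy
    rw [mem_N] at this
    exact (mem_nb G).2 ⟨hT.2 (mem_of_mem_erase hy), this⟩
  have h3 : ∑ p ∈ O.offDiag, ∑ T ∈ F, (if p.1 ∈ T ∧ p.2 ∈ T then 1 else 0)
      ≤ (nn G β z).card * ((nn G β z).card - 1) * (6 * s).choose i := by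
    have h4 : ∀ p ∈ O.offDiag, ∑ T ∈ F, (if p.1 ∈ T ∧ p.2 ∈ T then 1 else 0)
        ≤ (6 * s).choose i := by
      rintro ⟨a, a'⟩ hp
      rw [mem_offDiag] at hp
      obtain ⟨haO, ha'O, hne⟩ := hp
      simp only at haO ha'O hne ⊢
      rw [← card_filter]
      rw [hO, mem_sdiff, mem_N] at haO ha'O
      have haz : z ≠ a := haO.1.ne
      have ha'z : z ≠ a' := ha'O.1.ne
      have hcom := common G hs hD hdeg hv hz haO.2 haO.1.symm
      refine le_trans ?_ (Nat.choose_le_choose i
        (show (nb G (nb G univ a) z).card ≤ 6 * s by omega))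
      apply card_le_choose' (X := {z, a, a'})
      intro T hT
      rw [mem_filter] at hT
      obtain ⟨hT1, hT2⟩ := hFm T hT.1
      have hTm := (mem_clq G).1 hT1
      refine ⟨?_, ?_, ?_⟩
      · intro y hy
        rw [mem_insert, mem_insert, mem_singleton] at hy
        rcases hy with rfl | rfl | rfl
        · exact hT2
        · exact hT.2.1
        · exact hT.2.2
      · intro y hy
        rw [mem_sdiff, mem_insert, mem_insert, mem_singleton, not_or, not_or] at hy
        rw [mem_nb, mem_N]
        exact ⟨hTm.2.2 (mem_coe.2 hT.2.1) (mem_coe.2 hy.1) (Ne.symm hy.2.2.1),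
          hTm.2.2 (mem_coe.2 hT2) (mem_coe.2 hy.1) (Ne.symm hy.2.1)⟩
      · have : ({z, a, a'} : Finset V).card = 3 := by
          rw [card_insert_of_notMem, card_pair hne]
          rw [mem_insert, mem_singleton, not_or]
          exact ⟨haz, ha'z⟩
        rw [this]
        exact hTm.2.1
    refine (sum_le_sum h4).trans ?_
    rw [sum_const, smul_eq_mul]
    apply Nat.mul_le_mul_right
    rw [offDiag_card]
    have h5 : O.card * O.card - O.card = O.card * (O.card - 1) := by
      rw [Nat.mul_sub, mul_one]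
    rw [h5]
    exact Nat.mul_le_mul hOc (by omega)
  have h6 := Nat.mul_le_mul_left (i + 3) h3
  omega

/-- The total weight of a block. -/
lemma WG_block (hω : ∀ I : Finset V, G.IsClique (I : Set V) → I.card + s ≤ D + 1) {i : ℕ}
    (hDi : 24 * (i + 1) * s ≤ D) {v : V} (hv : Bad G D s v) :
    ∑ z ∈ Nc G v, WG G D s (i + 3) z ≤ (i + 3) * E (D + 1) (D + 1 - s) (i + 3) := by
  have hcard := Bad.Nc_card G hs hD hdeg hv
  have h1 : 2 * ∑ z ∈ Nc G v, WG G D s (i + 3) z ≤ 2 * ((i + 3) * kc G (Nc G v) (i + 3))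
      + (i + 3) * ((∑ z ∈ Nc G v, (nn G (Nc G v) z).card * ((nn G (Nc G v) z).card - 1))
        * (6 * s).choose i) := by
    have h2 : (i + 3) * kc G (Nc G v) (i + 3) = ∑ z ∈ Nc G v, kc G (nb G (Nc G v) z) (i + 2) :=
      (kc_sum G (Nc G v) (i + 2)).symm
    rw [h2, mul_sum, mul_sum, sum_mul, mul_sum, ← sum_add_distrib]
    exact sum_le_sum (fun z hz => WG_block_le G hs hD hdeg hv hz)
  have h2 := loss G hs hD hdeg hω hv (i + 1)
  obtain ⟨I, hI, hIcl, hcov⟩ := cover G (6 * s) _ (Nc G v) rfl (by
    intro z hz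
    have h1 := single_le_sum (f := fun z => (nn G (Nc G v) z).card) (fun _ _ => Nat.zero_le _) hz
    have h2 := Bad.sum_nn G hs hD hdeg hv
    omega)
  have h3 := hω I hIcl
  have h4 := card_sdiff_add_card_eq_card hI
  have hc : s ≤ (Nc G v \ I).card := by omega
  generalize ∑ z ∈ Nc G v, (nn G (Nc G v) z).card * ((nn G (Nc G v) z).card - 1) = Q at *
  generalize ∑ z ∈ Nc G v, (nn G (Nc G v) z).card = M at *
  generalize (Nc G v \ I).card = c at *
  have h5 : 2 * Q + 36 * s * s ≤ 18 * s * M := by
    have : 36 * s * s ≤ 6 * (6 * s) * c := by nlinarith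
    nlinarith
  have hM : 2 * s ≤ M := by
    by_contra hlt
    push Not at hlt
    have : 18 * s * M < 36 * s * s := by nlinarith
    omega
  obtain ⟨M', rfl⟩ : ∃ M', M = M' + 2 * s := ⟨M - 2 * s, by omega⟩
  rw [Nat.add_sub_cancel] at h2
  have hQ : Q ≤ 9 * s * M' := by nlinarith
  -- binomials
  have hbin : 9 * s * (6 * s).choose i ≤ (D + 1 - 6 * s).choose (i + 1) := by
    obtain ⟨n, hn⟩ : ∃ n, D + 1 - 6 * s = n + 1 := ⟨D - 6 * s, by omega⟩
    rw [hn]
    have h6 := Nat.add_one_mul_choose_eq n i
    have h7 : (6 * s).choose i ≤ n.choose i := Nat.choose_le_choose i (by omega)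
    have h8 : 9 * s * (i + 1) ≤ n + 1 := by
      have q1 : s ≤ (i + 1) * s := Nat.le_mul_of_pos_left s (Nat.succ_pos i)
      have q2 : 9 * s * (i + 1) = 9 * ((i + 1) * s) := by ring
      have q3 : 24 * (i + 1) * s = 24 * ((i + 1) * s) := by ring
      omega
    have h9 : (i + 1) * (9 * s * (6 * s).choose i) ≤ (i + 1) * (n + 1).choose (i + 1) := by
      calc (i + 1) * (9 * s * (6 * s).choose i) = (9 * s * (i + 1)) * (6 * s).choose i := by ring
        _ ≤ (n + 1) * n.choose i := Nat.mul_le_mul h8 h7
        _ = (n + 1).choose (i + 1) * (i + 1) := h6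
        _ = _ := by ring
    exact Nat.le_of_mul_le_mul_left h9 (Nat.succ_pos i)
  have h10 : Q * (6 * s).choose i ≤ M' * (D + 1 - 6 * s).choose (i + 1) := by
    calc Q * (6 * s).choose i ≤ (9 * s * M') * (6 * s).choose i := Nat.mul_le_mul_right _ hQ
      _ = M' * (9 * s * (6 * s).choose i) := by ring
      _ ≤ _ := Nat.mul_le_mul_left _ hbin
  have h11 : 2 * kc G (Nc G v) (i + 3) + M' * (D + 1 - 6 * s).choose (i + 1)
      ≤ 2 * E (D + 1) (D + 1 - s) (i + 3) := h2
  have h12 := Nat.mul_le_mul_left (i + 3) (Nat.add_le_add_left h10 (2 * kc G (Nc G v) (i + 3)))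
  have h13 := Nat.mul_le_mul_left (i + 3) h11
  have h14 : 2 * ∑ z ∈ Nc G v, WG G D s (i + 3) z
      ≤ 2 * ((i + 3) * E (D + 1) (D + 1 - s) (i + 3)) := by
    generalize Q * (6 * s).choose i = q at *
    generalize M' * (D + 1 - 6 * s).choose (i + 1) = r at *
    rw [mul_add] at h12 h13
    nlinarith
  omega

end gen

end Pool.Agent.H23.KT
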