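import Pool.Agent.H23.KT.Base

/-!
# Large cliques: the local bounds with an error term
-/

open Finset Polynomial

namespace Pool.Agent.H23.KT

section numbers

lemma P_ge (a b j : ℕ) : (a + b).choose j ≤ (P a b).coeff j := by
  induction a generalizing j with
  | zero => rw [P_choose, zero_add]
  | succ a ih =>
    rcases j with _ | j
    · rw [P_zero]
      simp
    · rw [P_left, show a + 1 + b = (a + b) + 1 by ring, Nat.choose_succ_succ']
      have h1 := ih j
      have h2 := ih (j + 1)
      omega

lemma P_mono_right {a b b' : ℕ} (h : b ≤ b') (j : ℕ) : (P a b).coeff j ≤ (P a b').coeff j := by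
  induction b', h using Nat.le_induction with
  | base => exact le_rfl
  | succ m _ ih =>
    rcases j with _ | j
    · rw [P_zero, P_zero]
    · rw [P_right]
      omega

/-- Extensions: each of the missed parts has at most two vertices. -/
lemma P_ext2 (a b k : ℕ) : (k + 1) * (P a b).coeff (k + 1) + 2 * k * (P a b).coeff k
    ≤ 2 * (a + b) * (P a b).coeff k := by
  induction a generalizing k with
  | zero =>
    rw [P_choose, P_choose, zero_add]
    rcases b with _ | b
    · rcases k with _ | k
      · simp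
      · simp
    rcases Nat.lt_or_ge (b + 1) k with h | h
    · rw [Nat.choose_eq_zero_of_lt h, Nat.choose_eq_zero_of_lt (by omega)]
      simp
    · have h1 := Nat.choose_succ_right_eq (b + 1) k
      obtain ⟨e, he⟩ : ∃ e, b + 1 = k + e := ⟨b + 1 - k, by omega⟩
      rw [he] at h1 ⊢
      rw [show k + e - k = e by omega] at h1
      nlinarith
  | succ a ih =>
    rcases k with _ | k
    · have h1 := ih 0
      rw [P_left, P_zero, P_zero]
      rw [P_zero] at h1
      omega
    · have h1 := ih (k + 1)
      have h0 := ih k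
      rw [P_left, P_left]
      nlinarith

/-- Extensions: all vertices outside the clique. -/
lemma P_ext1 (a b k : ℕ) : (k + 1) * (P a b).coeff (k + 1) + k * (P a b).coeff k
    ≤ (2 * a + b) * (P a b).coeff k := by
  induction a generalizing k with
  | zero =>
    rw [P_choose, P_choose, mul_zero, zero_add]
    rcases Nat.lt_or_ge b k with h | h
    · rw [Nat.choose_eq_zero_of_lt h, Nat.choose_eq_zero_of_lt (by omega)]
      simp
    · have h1 := Nat.choose_succ_right_eq b k
      obtain ⟨e, he⟩ : ∃ e, b = k + e := ⟨b - k, by omega⟩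
      rw [he] at h1 ⊢
      rw [show k + e - k = e by omega] at h1
      nlinarith
  | succ a ih =>
    rcases k with _ | k
    · have h1 := ih 0
      rw [P_left, P_zero, P_zero]
      rw [P_zero] at h1
      omega
    · have h1 := ih (k + 1)
      have h0 := ih k
      rw [P_left, P_left]
      nlinarith

lemma P_expand (a q d k : ℕ) : (P a q).coeff (k + 2) + d * (P a q).coeff (k + 1)
    + d.choose 2 * (P a q).coeff k ≤ (P a (q + d)).coeff (k + 2) := by
  have h1 : ∀ d k, (P a q).coeff (k + 1) + d * (P a q).coeff k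
      ≤ (P a (q + d)).coeff (k + 1) := by
    intro d k
    induction d with
    | zero => simp
    | succ d ih =>
      rw [show q + (d + 1) = (q + d) + 1 by ring, P_right]
      have := P_mono_right (a := a) (show q ≤ q + d by omega) k
      rw [add_mul, one_mul]
      omega
  induction d with
  | zero => simp
  | succ d ih =>
    have h4 : (P a (q + d + 1)).coeff (k + 2) = (P a (q + d)).coeff (k + 2)
        + (P a (q + d)).coeff (k + 1) := P_right a (q + d) (k + 1)
    rw [show q + (d + 1) = (q + d) + 1 by ring, h4]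
    have h2 := h1 d k
    have h3 : (d + 1).choose 2 = d + d.choose 2 := by
      have : (d + 1).choose 2 = d.choose 1 + d.choose 2 := Nat.choose_succ_succ' _ _
      rw [this, Nat.choose_one_right]
    rw [h3, add_mul, add_mul, one_mul]
    omega

/-- The numerical inequality behind the averaging. -/
lemma numN {s q d : ℕ} (hs : 1 ≤ s) (hd : 3 ≤ d) :
    (q + d + 2 * s + 1) * (P (s - 1) q).coeff (s + d - 1)
      ≤ (q + d + 1) * (P (s - 1) (q + d)).coeff (s + d - 1) := by
  obtain ⟨a, rfl⟩ : ∃ a, s = a + 1 := ⟨s - 1, by omega⟩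
  obtain ⟨k, hk⟩ : ∃ k, a + 1 + d - 1 = k + 2 := ⟨a + d - 2, by omega⟩
  rw [Nat.add_sub_cancel, hk]
  have hexp := P_expand a q d k
  have f1 := P_ext1 a q (k + 1)
  have f2 := P_ext2 a q (k + 1)
  have f3 := P_ext2 a q k
  rw [show k + 1 + 1 = k + 2 by ring] at f1 f2
  set p2 := (P a q).coeff (k + 2) with hp2
  set p1 := (P a q).coeff (k + 1) with hp1
  set p0 := (P a q).coeff k with hp0
  have hkd : k + 2 = a + d := by omega
  have h2 := Nat.mul_le_mul_left (q + d + 1) hexp
  suffices h : 2 * (a + 1) * p2 ≤ (q + d + 1) * (d * p1 + d.choose 2 * p0) by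
    nlinarith
  -- if `q < d` then `p2 = 0`
  rcases Nat.lt_or_ge q d with hqd | hqd
  · have : p2 = 0 := by
      have hz : p2 * 1 ≤ 0 := by
        -- `(k+2) p2 + 2 (k+1) p1 ≤ 2 (a+q) p1` with `a + q ≤ k + 1`
        have h3 : 2 * (a + q) * p1 ≤ 2 * (k + 1) * p1 := Nat.mul_le_mul_right _ (by omega)
        have h4 : (k + 2) * p2 ≤ 0 := by omega
        nlinarith
      omega
    rw [this]
    simp
  obtain ⟨h, rfl⟩ : ∃ h, q = d + h := ⟨q - d, by omega⟩
  -- `(k + 2) p2 ≤ 2 (h + 1) p1`
  have g2 : (k + 2) * p2 ≤ 2 * (h + 1) * p1 := by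
    have : 2 * (a + (d + h)) * p1 = 2 * (k + 1) * p1 + 2 * (h + 1) * p1 := by
      rw [← add_mul]
      congr 1
      omega
    omega
  rcases Nat.lt_or_ge 3 d with hd4 | hd3
  · -- `d ≥ 4`
    have g3 : (a + 1) * p2 ≤ (k + 2) * p2 := Nat.mul_le_mul_right _ (by omega)
    calc 2 * (a + 1) * p2 = 2 * ((a + 1) * p2) := by ring
      _ ≤ 2 * (2 * (h + 1) * p1) := by omega
      _ = (h + 1) * (4 * p1) := by ring
      _ ≤ (d + h + d + 1) * (d * p1) :=
          Nat.mul_le_mul (by omega) (Nat.mul_le_mul_right _ (by omega))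
      _ ≤ _ := Nat.mul_le_mul_left _ (Nat.le_add_right _ _)
  · have hd3' : d = 3 := by omega
    subst hd3'
    have hk1 : k = a + 1 := by omega
    subst hk1
    have hc : Nat.choose 3 2 = 3 := by decide
    rw [hc]
    -- `(a + 3) p2 ≤ (a + h + 1 + ...) p1`
    have g1 : (a + 3) * p2 ≤ (a + h + 1) * p1 := by
      have : (2 * a + (3 + h)) * p1 = (a + 1 + 1) * p1 + (a + h + 1) * p1 := by
        rw [← add_mul]
        congr 1
        omega
      have e : (a + 1 + 2) * p2 = (a + 3) * p2 := rfl
      omega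
    have g3 : (a + 2) * p1 ≤ 2 * (h + 2) * p0 := by
      have : 2 * (a + (3 + h)) * p0 = 2 * (a + 1) * p0 + 2 * (h + 2) * p0 := by
        rw [← add_mul]
        congr 1
        omega
      have e : (a + 1 + 1) * p1 = (a + 2) * p1 := rfl
      omega
    have g4 : 3 * ((a + 2) * p1) ≤ 2 * ((3 + h + 3 + 1) * (3 * p0)) := by nlinarith
    have g5 : 4 * (a + 1) * p2 ≤ (6 * (h + 7) + 3 * (a + 2)) * p1 := by
      rcases Nat.lt_or_ge (2 * h + 44) a with hbig | hsmall
      · have g6 : 4 * (a + 1) * p2 ≤ 4 * ((a + 3) * p2) := by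
          rw [mul_assoc]
          exact Nat.mul_le_mul_left _ (Nat.mul_le_mul_right _ (by omega))
        have g7 : (a + 3) * p2 ≤ 2 * (h + 1) * p1 := g2
        calc 4 * (a + 1) * p2 ≤ 4 * (2 * (h + 1) * p1) := g6.trans (Nat.mul_le_mul_left _ g7)
          _ = (8 * (h + 1)) * p1 := by ring
          _ ≤ _ := Nat.mul_le_mul_right _ (by omega)
      · have g6 : 4 * (a + 1) * p2 ≤ 4 * ((a + 3) * p2) := by
          rw [mul_assoc]
          exact Nat.mul_le_mul_left _ (Nat.mul_le_mul_right _ (by omega))
        calc 4 * (a + 1) * p2 ≤ 4 * ((a + h + 1) * p1) := g6.trans (Nat.mul_le_mul_left _ g1)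
          _ = (4 * (a + h + 1)) * p1 := by ring
          _ ≤ _ := Nat.mul_le_mul_right _ (by omega)
    nlinarith

/-- The average for the Turán graph. -/
lemma P_avg (a b j : ℕ) : (j + 2) * (P (a + 1) (b + 1)).coeff (j + 2)
    = (2 * (a + 1) + (b + 1)) * (P a (b + 1)).coeff (j + 1) + (b + 1) * (P a b).coeff j := by
  have h1 : derivative (P (a + 1) (b + 1)) = ((2 * (a + 1) : ℕ) : ℕ[X]) * P a (b + 1)
      + ((b + 1 : ℕ) : ℕ[X]) * P (a + 1) b := by
    unfold P
    rw [derivative_mul, derivative_pow, derivative_pow]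
    simp only [map_add, derivative_one, derivative_mul, derivative_X, zero_add,
      mul_one, Nat.add_sub_cancel, derivative_ofNat, zero_mul, map_natCast]
    push_cast
    ring
  have h2 : (derivative (P (a + 1) (b + 1))).coeff (j + 1)
      = (P (a + 1) (b + 1)).coeff (j + 2) * (j + 2) := by
    rw [coeff_derivative]
    push_cast
    ring
  rw [h1, coeff_add, coeff_natCast_mul, coeff_natCast_mul] at h2
  simp only [Nat.cast_id] at h2
  have h3 : (P (a + 1) b).coeff (j + 1) = (P a (b + 1)).coeff (j + 1) + (P a b).coeff j := by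
    rw [P_left, P_right]
    ring
  rw [h3] at h2
  rw [mul_comm (j + 2), ← h2]
  ring

end numbers

end Pool.Agent.H23.KT
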