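import Pool.Agent.H23.KT.Large

/-!
# Large cliques: the local bounds with an error term, graphs
-/

open Finset

namespace Pool.Agent.H23.KT

section kc2

variable {V : Type*} [DecidableEq V] {G : SimpleGraph V}

/-- Case `c ≥ 2`, with error term. -/
lemma lemC' (c : ℕ) (hc : 2 ≤ c) : ∀ (b : ℕ) (W B : Finset V) (r j : ℕ),
    B.card = b + 1 → CB G W (r + 1) → B ⊆ W → G.IsClique (B : Set V) →
    (∀ u ∈ B, (nb G W u).card + 1 + c ≤ W.card) →
    W.card ≤ 2 * (r + 1) → kc G W (j + 1) ≤ E (W.card - 1) (r + 1) (j + 1)
      + E (W.card - B.card - c) r j := by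
  intro b
  induction b with
  | zero =>
    intro W B r j hb hCB hBW hcl hdeg hr
    obtain ⟨x, hx⟩ := card_pos.1 (show 0 < B.card by omega)
    have hxW := hBW hx
    have hd := hdeg x hx
    have h1 := card_erase_add_one hxW
    rw [kc_succ G hxW j]
    have e1 := zykov_le (n := W.card - 1) (j + 1) (hCB.mono (erase_subset x W)) (by omega)
      (by omega)
    have e2 := zykov_le (n := W.card - B.card - c) j (hCB.nb hxW) (by omega) (by omega)
    omega
  | succ b ih =>
    intro W B r j hb hCB hBW hcl hdeg hr
    obtain ⟨x, hx⟩ := card_pos.1 (show 0 < B.card by omega)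
    have hxW := hBW hx
    have hd := hdeg x hx
    have h1 := card_erase_add_one hxW
    have h2 := card_erase_add_one hx
    obtain ⟨m, hm⟩ : ∃ m, W.card = m + 3 := ⟨W.card - 3, by omega⟩
    rw [kc_succ G hxW j]
    have e1 := ih (W.erase x) (B.erase x) r j (by omega)
      (hCB.mono (erase_subset _ _)) (erase_subset_erase _ hBW)
      (hcl.subset (by
          intro y hy
          exact mem_coe.2 (mem_of_mem_erase (mem_coe.1 hy))))
      (by
        intro u hu
        rw [mem_erase] at hu
        have h3 := hdeg u hu.2
        have h4 := nb_erase_card G hxW (hcl (mem_coe.2 hu.2) (mem_coe.2 hx) hu.1)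
        omega) (by omega)
    rw [show (W.erase x).card - 1 = m + 1 by omega,
      show (W.erase x).card - (B.erase x).card - c = W.card - B.card - c by omega] at e1
    have e2 := zykov_le (n := m) j (hCB.nb hxW) (by omega) (by omega)
    have e3 := E_step m r j (by omega)
    rw [show W.card - 1 = m + 2 by omega]
    omega

/-- Case `c = 1` without a clique bound. -/
lemma lemS1 : ∀ (b : ℕ) (W B : Finset V) (n j : ℕ), B.card = b → W.card = n + 1 → B ⊆ W →
    G.IsClique (B : Set V) → (∀ u ∈ B, (nb G W u).card + 2 ≤ W.card) →
    kc G W (j + 1) ≤ n.choose (j + 1) + (n - b).choose j := by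
  intro b
  induction b with
  | zero =>
    intro W B n j _ hW _ _ _
    have h1 := kc_le_choose G W (j + 1)
    rw [hW] at h1
    have h2 : (n + 1).choose (j + 1) = n.choose j + n.choose (j + 1) :=
      Nat.choose_succ_succ' _ _
    rw [Nat.sub_zero]
    omega
  | succ b ih =>
    intro W B n j hb hW hBW hcl hdeg
    obtain ⟨x, hx⟩ := card_pos.1 (show 0 < B.card by omega)
    have hxW := hBW hx
    have hd := hdeg x hx
    have h1 := card_erase_add_one hxW
    have h2 := card_erase_add_one hx
    obtain ⟨n, rfl⟩ : ∃ n', n = n' + 1 := ⟨n - 1, by omega⟩
    rw [kc_succ G hxW j]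
    have e1 := ih (W.erase x) (B.erase x) n j (by omega) (by omega) (erase_subset_erase _ hBW)
      (hcl.subset (by
          intro y hy
          exact mem_coe.2 (mem_of_mem_erase (mem_coe.1 hy))))
      (by
        intro u hu
        rw [mem_erase] at hu
        have h3 := hdeg u hu.2
        have h4 := nb_erase_card G hxW (hcl (mem_coe.2 hu.2) (mem_coe.2 hx) hu.1)
        omega)
    have e2 := (kc_le_choose G (nb G W x) j).trans (Nat.choose_le_choose j
      (show (nb G W x).card ≤ n by omega))
    have h3 : (n + 1).choose (j + 1) = n.choose j + n.choose (j + 1) :=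
      Nat.choose_succ_succ' _ _
    rw [show n + 1 - (b + 1) = n - b by omega]
    omega

/-- Case `c = 1`, with error term. -/
lemma lemP' : ∀ (n : ℕ) (W : Finset V), W.card = n → ∀ (B : Finset V)
    (r s : ℕ), n = r + (s + 1) → CB G W r → B ⊆ W → G.IsClique (B : Set V) →
    (∀ u ∈ B, (nb G W u).card + 2 ≤ n) → s + 1 ≤ B.card →
    ∀ j, kc G W (j + 1) ≤ (P s (r - s)).coeff (j + 1) + (P s (r - B.card)).coeff j := by
  classical
  intro n
  induction n using Nat.strong_induction_on with
  | _ n ih =>
    intro W hW B r s hn hCB hBW hcl hdeg hsB j
    have hBr : B.card ≤ r := hCB B hBW hcl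
    rcases Nat.eq_zero_or_pos s with hs0 | hspos
    · subst hs0
      have h1 := lemS1 B.card W B r j rfl (by omega) hBW hcl (by
        intro u hu
        have := hdeg u hu
        omega)
      rw [P_choose, P_choose, Nat.sub_zero]
      exact h1
    obtain ⟨s, rfl⟩ : ∃ s', s = s' + 1 := ⟨s - 1, by omega⟩
    obtain ⟨x, hx⟩ := card_pos.1 (show 0 < B.card by omega)
    by_cases hα : ∃ x ∈ B, (nb G W x).card + 3 ≤ n
    · obtain ⟨x, hx, hx3⟩ := hα
      have hxW := hBW hx
      have h1 := card_erase_add_one hxW
      have h2 := card_erase_add_one hx
      obtain ⟨r, rfl⟩ : ∃ r', r = r' + 1 := ⟨r - 1, by omega⟩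
      rw [kc_succ G hxW j]
      have e1 := ih (r + 1 + (s + 1)) (by omega) (W.erase x) (by omega) (B.erase x) (r + 1) s rfl
        (hCB.mono (erase_subset _ _)) (erase_subset_erase _ hBW)
        (hcl.subset (by
            intro y hy
            exact mem_coe.2 (mem_of_mem_erase (mem_coe.1 hy))))
        (by
          intro u hu
          rw [mem_erase] at hu
          have h3 := hdeg u hu.2
          have h4 := nb_erase_card G hxW (hcl (mem_coe.2 hu.2) (mem_coe.2 hx) hu.1)
          omega) (by omega) j
      have e2 := zykov_le (n := r + s) j (hCB.nb hxW) (by omega) (by omega)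
      rw [E_big (a := s) (b := r - s) (by omega) (by omega)] at e2
      have e3 : (P s (r + 1 - s)).coeff (j + 1)
          = (P s (r - s)).coeff (j + 1) + (P s (r - s)).coeff j := by
        rw [show r + 1 - s = (r - s) + 1 by omega, P_right]
      have e4 : (P (s + 1) (r + 1 - (s + 1))).coeff (j + 1)
          = (P s (r - s)).coeff (j + 1) + 2 * (P s (r - s)).coeff j := by
        rw [show r + 1 - (s + 1) = r - s by omega, P_left]
      have e5 : (P s (r + 1 - (B.erase x).card)).coeff j
          ≤ (P (s + 1) (r + 1 - B.card)).coeff j := by
        rw [show r + 1 - (B.erase x).card = (r + 1 - B.card) + 1 by omega]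
        exact P_swap s _ j
      omega
    push Not at hα
    have hxW := hBW hx
    -- the non-neighbour of `x`
    obtain ⟨w, hw1, hw2⟩ : ∃ w ∈ W.erase x, w ∉ nb G W x := by
      by_contra hcon
      push Not at hcon
      have h1 := card_le_card hcon
      have h2 := card_erase_add_one hxW
      have h3 := hdeg x hx
      omega
    rw [mem_erase] at hw1
    obtain ⟨hwx, hwW⟩ := hw1
    have hxw : ¬ G.Adj x w := fun h => hw2 ((mem_nb G).2 ⟨hwW, h⟩)
    have hwB : w ∉ B := fun h => hxw (hcl (mem_coe.2 hx) (mem_coe.2 h) (Ne.symm hwx))
    have hadj : ∀ u ∈ B, ¬ G.Adj u w → ∀ y ∈ W, y ≠ u → y ≠ w → G.Adj u y := by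
      intro u hu huw y hy hyu hyw
      have huw' : w ≠ u := by
        rintro rfl
        exact hwB hu
      have h1 : nb G W u ⊆ (W.erase u).erase w := by
        intro z hz
        have hz' := (mem_nb G).1 hz
        rw [mem_erase, mem_erase]
        refine ⟨?_, ?_, hz'.1⟩
        · rintro rfl
          exact huw hz'.2
        · rintro rfl
          exact G.loopless.irrefl z hz'.2
      have h2 := card_erase_add_one (hBW hu)
      have h3 := card_erase_add_one (mem_erase.2 ⟨huw', hwW⟩)
      have h4 := hα u hu
      have h5 := eq_of_subset_of_card_le h1 (by omega)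
      have h6 : y ∈ nb G W u := by
        rw [h5, mem_erase, mem_erase]
        exact ⟨hyw, hyu, hy⟩
      exact ((mem_nb G).1 h6).2
    set L := B.filter (fun u => ¬ G.Adj u w) with hL
    have hxL : x ∈ L := by
      rw [hL, mem_filter]
      exact ⟨hx, hxw⟩
    have hLB : L ⊆ B := filter_subset _ _
    have hLW : L ⊆ W.erase w := by
      intro u hu
      rw [mem_erase]
      refine ⟨?_, hBW (hLB hu)⟩
      rintro rfl
      exact hwB (hLB hu)
    have hLadj : ∀ u ∈ L, ∀ y ∈ W, y ≠ u → y ≠ w → G.Adj u y := by
      intro u hu
      rw [hL, mem_filter] at hu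
      exact hadj u hu.1 hu.2
    set W'' := (W.erase w) \ L with hW''
    have hW''W : W'' ⊆ W := (sdiff_subset).trans (erase_subset _ _)
    have hunion : W'' ∪ L = W.erase w := by
      rw [hW'']
      exact sdiff_union_of_subset hLW
    have hnbw : nb G W w ⊆ W'' := by
      intro y hy
      have hy' := (mem_nb G).1 hy
      rw [hW'', mem_sdiff, mem_erase]
      refine ⟨⟨?_, hy'.1⟩, ?_⟩
      · rintro rfl
        exact G.loopless.irrefl y hy'.2
      · intro h
        rw [hL, mem_filter] at h
        exact h.2 hy'.2.symm
    have hcw := card_erase_add_one hwW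
    have hcW'' : W''.card + L.card = (W.erase w).card := by
      rw [hW'']
      exact card_sdiff_add_card_eq_card hLW
    rw [kc_succ G hwW j]
    have hm1 := kc_mono G hnbw j
    have hB''card : (B \ L).card + L.card = B.card := card_sdiff_add_card_eq_card hLB
    -- clique bound in `W''`
    have hCBL : ∀ S : Finset V, S ⊆ W'' → G.IsClique (S : Set V) → S.card + L.card ≤ r := by
      intro S hS hScl
      have h1 := hCB (S ∪ L) (union_subset (hS.trans hW''W) (hLB.trans hBW)) (by
        intro a ha b hb hab
        rw [mem_coe, mem_union] at ha hb
        rcases ha with ha | ha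
        · rcases hb with hb | hb
          · exact hScl (mem_coe.2 ha) (mem_coe.2 hb) hab
          · have h2 := hS ha
            rw [hW'', mem_sdiff, mem_erase] at h2
            exact (hLadj b hb a h2.1.2 hab h2.1.1).symm
        · rcases hb with hb | hb
          · have h2 := hS hb
            rw [hW'', mem_sdiff, mem_erase] at h2
            exact hLadj a ha b h2.1.2 (Ne.symm hab) h2.1.1
          · exact hcl (mem_coe.2 (hLB ha)) (mem_coe.2 (hLB hb)) hab)
      rwa [card_union_of_disjoint (by
        rw [disjoint_left]
        intro y hy hyL
        have := hS hy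
        rw [hW'', mem_sdiff] at this
        exact this.2 hyL)] at h1
    -- the remaining part of `B`
    have hB''sub : B \ L ⊆ W'' := by
      intro u hu
      rw [mem_sdiff] at hu
      rw [hW'', mem_sdiff, mem_erase]
      refine ⟨⟨?_, hBW hu.1⟩, hu.2⟩
      rintro rfl
      exact hwB hu.1
    have hcl'' : G.IsClique ((B \ L : Finset V) : Set V) := hcl.subset (by
      intro y hy
      exact mem_coe.2 (mem_sdiff.1 (mem_coe.1 hy)).1)
    have hB''le := hCBL _ hB''sub hcl''
    obtain ⟨r', hr'⟩ : ∃ r', r = r' + L.card := ⟨r - L.card, by omega⟩
    have hCB'' : CB G W'' r' := by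
      intro T hT hTcl
      have := hCBL T hT hTcl
      omega
    have hLpos : 0 < L.card := card_pos.2 ⟨x, hxL⟩
    have hdeg'' : ∀ u ∈ B \ L, (nb G W'' u).card + 2 ≤ W''.card := by
      intro u hu
      rw [mem_sdiff] at hu
      have h1 := hdeg u hu.1
      have huw : G.Adj u w := by
        by_contra h
        exact hu.2 (by rw [hL, mem_filter]; exact ⟨hu.1, h⟩)
      have h2 : nb G W'' u ∪ (insert w L) ⊆ nb G W u := by
        intro y hy
        rw [mem_union, mem_insert] at hy
        rw [mem_nb]
        rcases hy with hy | rfl | hy
        · have := (mem_nb G).1 hy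
          exact ⟨hW''W this.1, this.2⟩
        · exact ⟨hwW, huw⟩
        · refine ⟨hBW (hLB hy), hcl (mem_coe.2 hu.1) (mem_coe.2 (hLB hy)) ?_⟩
          rintro rfl
          exact hu.2 hy
      have h3 := card_le_card h2
      rw [card_union_of_disjoint (by
        rw [disjoint_left]
        intro y hy hyL
        have h4 := nb_subset G W'' u hy
        rw [hW'', mem_sdiff, mem_erase] at h4
        rcases mem_insert.1 hyL with h5 | h5
        · exact h4.1.1 h5
        · exact h4.2 h5), card_insert_of_notMem (by
        intro h
        exact hwB (hLB h))] at h3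
      omega
    -- sizes: `|W''| = r' + (s + 1)`
    have hsize : W''.card = r' + (s + 1) := by omega
    rcases Nat.lt_or_ge (B \ L).card (s + 1) with hlt | hge
    · -- few vertices of `B` remain
      have z1 := zykov_le (n := r + (s + 1)) (j + 1) (hCB.mono (erase_subset w W)) (by omega)
        (by omega)
      rw [E_big (a := s + 1) (b := r - (s + 1)) (by omega) (by omega)] at z1
      have z2 : kc G W'' j ≤ (P (s + 1) (r - B.card)).coeff j := by
        rcases Nat.lt_or_ge r' (s + 1) with hr1 | hr1
        · have hCB3 : CB G W'' (s + 1) := by
            intro T hT hTcl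
            have := hCB'' T hT hTcl
            omega
          have z3 := zykov_le (n := 2 * (s + 1)) j hCB3 (by omega) (by omega)
          rw [E_big (a := s + 1) (b := 0) (by omega) (by omega)] at z3
          exact z3.trans (P_mono_right (Nat.zero_le _) j)
        · have z3 := zykov_le (n := r' + (s + 1)) j hCB'' (by omega) (by omega)
          rw [E_big (a := s + 1) (b := r' - (s + 1)) (by omega) (by omega)] at z3
          exact z3.trans (P_mono_right (by omega) j)
      omega
    · -- the base of the induction over `L`
      have hbase : kc G W'' (j + 1) + 2 * kc G W'' j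
          ≤ (P (s + 1) (r' - s)).coeff (j + 1) + (P (s + 1) (r - B.card)).coeff j := by
        have hi := ih W''.card (by omega) W'' rfl (B \ L) r' s hsize hCB'' hB''sub hcl'' hdeg'' hge
        have h1 := hi j
        have hq : r' - (B \ L).card = r - B.card := by omega
        rw [hq] at h1
        have e1 : (P (s + 1) (r' - s)).coeff (j + 1)
            = (P s (r' - s)).coeff (j + 1) + 2 * (P s (r' - s)).coeff j := P_left _ _ _
        rcases j with _ | j
        · rw [kc_zero]
          rw [P_zero] at e1 h1 ⊢
          omega
        · have h2 := hi j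
          rw [hq] at h2
          have e3 : (P (s + 1) (r - B.card)).coeff (j + 1)
              = (P s (r - B.card)).coeff (j + 1) + 2 * (P s (r - B.card)).coeff j := P_left _ _ _
          omega
      -- add the vertices of `L` one by one
      have key : ∀ L' : Finset V, L' ⊆ L → L'.Nonempty →
          kc G (W'' ∪ L') (j + 1) + kc G W'' j
            ≤ (P (s + 1) (r' - s + L'.card - 1)).coeff (j + 1)
              + (P (s + 1) (r - B.card)).coeff j := by
        intro L'
        induction L' using Finset.induction_on with
        | empty =>
          intro _ h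
          exact absurd h not_nonempty_empty
        | insert u L' huL' ihL =>
          intro hsub _
          have huL : u ∈ L := hsub (mem_insert_self _ _)
          have hL'L : L' ⊆ L := (subset_insert _ _).trans hsub
          have huW : u ∉ W'' := by
            rw [hW'', mem_sdiff]
            exact fun h => h.2 huL
          have hu_not : u ∉ W'' ∪ L' := by
            rw [mem_union]
            rintro (h | h)
            · exact huW h
            · exact huL' h
          have hins : W'' ∪ insert u L' = insert u (W'' ∪ L') := union_insert _ _ _
          have hnbu : nb G (insert u (W'' ∪ L')) u = W'' ∪ L' := by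
            ext y
            rw [mem_nb, mem_insert]
            constructor
            · rintro ⟨h | h, hadj'⟩
              · subst h
                exact absurd hadj' (G.loopless.irrefl y)
              · exact h
            · intro h
              refine ⟨Or.inr h, ?_⟩
              have hyW : y ∈ W ∧ y ≠ w := by
                rcases mem_union.1 h with h | h
                · rw [hW'', mem_sdiff, mem_erase] at h
                  exact ⟨h.1.2, h.1.1⟩
                · have := hLW (hL'L h)
                  rw [mem_erase] at this
                  exact ⟨this.2, this.1⟩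
              refine hLadj u huL y hyW.1 ?_ hyW.2
              rintro rfl
              exact hu_not h
          rw [hins, kc_succ G (mem_insert_self u (W'' ∪ L')) j, hnbu, erase_insert hu_not,
            card_insert_of_notMem huL']
          rcases L'.eq_empty_or_nonempty with hL' | hL'
          · subst hL'
            rw [union_empty, card_empty, show r' - s + (0 + 1) - 1 = r' - s by omega]
            omega
          · have e3 := ihL hL'L hL'
            have hLc := card_pos.2 hL'
            have hCB3 : CB G (W'' ∪ L') (r' + L'.card) := by
              intro T hT hTcl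
              have h1 := hCB'' (T \ L') (by
                intro y hy
                rw [mem_sdiff] at hy
                rcases mem_union.1 (hT hy.1) with h | h
                · exact h
                · exact absurd h hy.2) (hTcl.subset (by
                intro y hy
                exact mem_coe.2 (mem_sdiff.1 (mem_coe.1 hy)).1))
              have h2 : T.card ≤ (T \ L').card + L'.card := by
                have := le_card_sdiff L' T
                omega
              omega
            have hcu : (W'' ∪ L').card ≤ r' + (s + 1) + L'.card := by
              have := card_union_le W'' L'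
              omega
            have e5 := zykov_le (n := r' + (s + 1) + L'.card) j hCB3 hcu (by omega)
            rw [E_big (a := s + 1) (b := r' - s + L'.card - 1) (by omega) (by omega)] at e5
            have e6 : (P (s + 1) (r' - s + (L'.card + 1) - 1)).coeff (j + 1)
                = (P (s + 1) (r' - s + L'.card - 1)).coeff (j + 1)
                  + (P (s + 1) (r' - s + L'.card - 1)).coeff j := by
              rw [show r' - s + (L'.card + 1) - 1 = (r' - s + L'.card - 1) + 1 by omega, P_right]
            omega
      have hfin := key L Subset.rfl ⟨x, hxL⟩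
      rw [hunion, show r' - s + L.card - 1 = r - (s + 1) by omega] at hfin
      omega

end kc2

end Pool.Agent.H23.KT
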