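import Pool.Agent.H23.KT.Large2

/-!
# Large cliques: the global bound
-/

open Finset

namespace Pool.Agent.H23.KT

lemma P_eq_zero : ∀ (a b k : ℕ), a + b < k → (P a b).coeff k = 0 := by
  intro a
  induction a with
  | zero =>
    intro b k h
    rw [P_choose, Nat.choose_eq_zero_of_lt (by omega)]
  | succ a ih =>
    intro b k h
    obtain ⟨k, rfl⟩ : ∃ k', k = k' + 1 := ⟨k - 1, by omega⟩
    rw [P_left, ih b (k + 1) (by omega), ih b k (by omega)]

section main2

variable {V : Type*} [DecidableEq V] {G : SimpleGraph V}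

/-- The neighbourhood of a vertex with a crossing clique. -/
lemma crossing_bound {r s i : ℕ} (hsi : s ≤ i) (hir : i + 1 ≤ r) {U : Finset V}
    (hCB : CB G U (r + 1)) (hdeg : ∀ v ∈ U, (nb G U v).card ≤ r + (s + 1)) {v : V} (hv : v ∈ U)
    (hW : (nb G U v).card = r + (s + 1)) {A : Finset V} (hAU : A ⊆ U) (hAc : A.card = i + 2)
    (hAcl : G.IsClique (A : Set V)) (hcon1 : ¬ A ⊆ insert v (nb G U v))
    (hcon2 : ¬ A ⊆ U \ insert v (nb G U v)) :
    kc G (nb G U v) (i + 1) ≤ (P s (r - s)).coeff (i + 1) + (P s (r - (i + 1))).coeff i := by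
  set W := nb G U v with hWdef
  have hWU : W ⊆ U := nb_subset G U v
  have hvW : v ∉ W := fun h => G.loopless.irrefl v ((mem_nb G).1 h).2
  have hCBW : CB G W r := hCB.nb hv
  obtain ⟨y, hyA, hyN⟩ := not_subset.1 hcon1
  obtain ⟨z, hzA, hzN⟩ := not_subset.1 hcon2
  rw [mem_insert, not_or] at hyN
  have hvA : v ∉ A := by
    intro hvA
    apply hyN.2
    rw [hWdef, mem_nb]
    exact ⟨hAU hyA, hAcl (mem_coe.2 hvA) (mem_coe.2 hyA) (Ne.symm hyN.1)⟩
  have hzW : z ∈ W := by
    rw [mem_sdiff, not_and, not_not, mem_insert] at hzN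
    rcases hzN (hAU hzA) with h | h
    · exact absurd (h ▸ hzA) hvA
    · exact h
  have hcardA : (A ∩ W).card + (A \ W).card = A.card := card_inter_add_card_sdiff A W
  have hyC : y ∈ A \ W := mem_sdiff.2 ⟨hyA, hyN.2⟩
  have hzB : z ∈ A ∩ W := mem_inter.2 ⟨hzA, hzW⟩
  have hCpos : 0 < (A \ W).card := card_pos.2 ⟨y, hyC⟩
  have hBpos : 0 < (A ∩ W).card := card_pos.2 ⟨z, hzB⟩
  have hBcl : G.IsClique ((A ∩ W : Finset V) : Set V) := hAcl.subset (by
    intro y hy
    exact mem_coe.2 (mem_inter.1 (mem_coe.1 hy)).1)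
  have hBdeg : ∀ u ∈ A ∩ W, (nb G W u).card + 1 + (A \ W).card ≤ W.card := by
    intro u hu
    rw [mem_inter] at hu
    have h1 := hdeg u (hWU hu.2)
    have h2 : nb G W u ∪ insert v (A \ W) ⊆ nb G U u := by
      intro a ha
      rw [mem_union, mem_insert] at ha
      rw [mem_nb]
      rcases ha with ha | rfl | ha
      · have := (mem_nb G).1 ha
        exact ⟨hWU this.1, this.2⟩
      · exact ⟨hv, ((mem_nb G).1 hu.2).2.symm⟩
      · rw [mem_sdiff] at ha
        refine ⟨hAU ha.1, hAcl (mem_coe.2 hu.1) (mem_coe.2 ha.1) ?_⟩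
        rintro rfl
        exact ha.2 hu.2
    have h3 := card_le_card h2
    rw [card_union_of_disjoint (by
      rw [disjoint_left]
      intro a ha ha2
      have h4 := nb_subset G W u ha
      rcases mem_insert.1 ha2 with h5 | h5
      · exact hvW (h5 ▸ h4)
      · exact (mem_sdiff.1 h5).2 h4), card_insert_of_notMem (by
      intro h
      exact hvA (mem_sdiff.1 h).1)] at h3
    omega
  rcases Nat.lt_or_ge 1 (A \ W).card with hc | hc
  · obtain ⟨ρ, rfl⟩ : ∃ ρ, r = ρ + 1 := ⟨r - 1, by omega⟩
    have h1 := lemC' (A \ W).card hc ((A ∩ W).card - 1) W (A ∩ W) ρ i (by omega) hCBW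
      inter_subset_right hBcl hBdeg (by omega)
    rw [hW, E_big (a := s) (b := ρ + 1 - s) (by omega) (by omega), E_small (by omega)] at h1
    have h2 := P_ge s (ρ + 1 - (i + 1)) i
    rw [show s + (ρ + 1 - (i + 1)) = ρ + 1 + (s + 1) - (A ∩ W).card - (A \ W).card by omega] at h2
    omega
  · have hB : (A ∩ W).card = i + 1 := by omega
    have h1 := lemP' _ W hW (A ∩ W) r s rfl hCBW inter_subset_right hBcl
      (by
        intro u hu
        have := hBdeg u hu
        omega) (by omega) i
    rw [hB] at h1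
    exact h1

/-- The global bound. -/
lemma main_bound2 {r s i : ℕ} (hsi : s ≤ i) (hir : i + 1 ≤ r)
    (hN : (r + s + 2) * (P s (r - (i + 1))).coeff i ≤ (r - s) * (P s (r - s - 1)).coeff i) :
    ∀ (n : ℕ) (U : Finset V), U.card = n → CB G U (r + 1) →
    (∀ v ∈ U, (nb G U v).card ≤ r + (s + 1)) →
    kc G U (i + 2) * (r + s + 2) ≤ E (r + s + 2) (r + 1) (i + 2) * n := by
  intro n
  induction n using Nat.strong_induction_on with
  | _ n ih =>
    intro U hU hCB hdeg
    have hT0 : E (r + s + 2) (r + 1) (i + 2) = (P (s + 1) (r - s)).coeff (i + 2) :=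
      E_big (by omega) (by omega) _
    have havg : (i + 2) * E (r + s + 2) (r + 1) (i + 2) = (r + s + 2) * (P s (r - s)).coeff (i + 1)
        + (r - s) * (P s (r - s - 1)).coeff i := by
      have h1 := P_avg s (r - s - 1) i
      rw [show r - s - 1 + 1 = r - s by omega, show 2 * (s + 1) + (r - s) = r + s + 2 by omega]
        at h1
      rw [hT0, h1]
    by_cases hpeel : ∃ v ∈ U, (nb G U v).card = r + (s + 1) ∧ ∀ A : Finset V, A ⊆ U →
        A.card = i + 2 → G.IsClique (A : Set V) → A ⊆ insert v (nb G U v) ∨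
          A ⊆ U \ insert v (nb G U v)
    · obtain ⟨v, hv, hWc, hcross⟩ := hpeel
      have hvW : v ∉ nb G U v := fun h => G.loopless.irrefl v ((mem_nb G).1 h).2
      have hNU : insert v (nb G U v) ⊆ U := by
        intro a ha
        rcases mem_insert.1 ha with rfl | ha
        · exact hv
        · exact nb_subset G U v ha
      have hNcard : (insert v (nb G U v)).card = r + s + 2 := by
        rw [card_insert_of_notMem hvW, hWc]
        omega
      have hsplit := kc_le_add G hcross
      have hz := zykov_le (n := r + s + 2) (i + 2) (hCB.mono hNU) (by omega) (by omega)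
      have hcU := card_sdiff_add_card_eq_card hNU
      have hI := ih (U \ insert v (nb G U v)).card (by omega) (U \ insert v (nb G U v)) rfl
        (hCB.mono sdiff_subset) (by
          intro a ha
          have h1 : nb G (U \ insert v (nb G U v)) a ⊆ nb G U a := by
            intro b hb
            have := (mem_nb G).1 hb
            exact (mem_nb G).2 ⟨sdiff_subset this.1, this.2⟩
          exact (card_le_card h1).trans (hdeg a (sdiff_subset ha)))
      have hn : n = (U \ insert v (nb G U v)).card + (r + s + 2) := by omega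
      rw [hn]
      calc kc G U (i + 2) * (r + s + 2)
          ≤ (kc G (insert v (nb G U v)) (i + 2) + kc G (U \ insert v (nb G U v)) (i + 2))
            * (r + s + 2) := Nat.mul_le_mul_right _ hsplit
        _ ≤ E (r + s + 2) (r + 1) (i + 2) * (r + s + 2)
            + E (r + s + 2) (r + 1) (i + 2) * (U \ insert v (nb G U v)).card := by
            rw [add_mul]
            exact Nat.add_le_add (Nat.mul_le_mul_right _ hz) hI
        _ = _ := by ring
    · push Not at hpeel
      have hall : ∀ v ∈ U, (r + s + 2) * kc G (nb G U v) (i + 1)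
          ≤ (i + 2) * E (r + s + 2) (r + 1) (i + 2) := by
        intro v hv
        rw [havg]
        rcases Nat.lt_or_ge (nb G U v).card (r + (s + 1)) with hlt | hge
        · have h1 := zykov_le (n := r + s) (i + 1) (hCB.nb hv) (by omega) (by omega)
          rw [E_big (a := s) (b := r - s) (by omega) (by omega)] at h1
          exact (Nat.mul_le_mul_left _ h1).trans (Nat.le_add_right _ _)
        · have hWc := le_antisymm (hdeg v hv) hge
          obtain ⟨A, hAU, hAc, hAcl, h1, h2⟩ := hpeel v hv hWc
          have h3 := crossing_bound hsi hir hCB hdeg hv hWc hAU hAc hAcl h1 h2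
          calc (r + s + 2) * kc G (nb G U v) (i + 1)
              ≤ (r + s + 2) * ((P s (r - s)).coeff (i + 1) + (P s (r - (i + 1))).coeff i) :=
                Nat.mul_le_mul_left _ h3
            _ = (r + s + 2) * (P s (r - s)).coeff (i + 1)
                + (r + s + 2) * (P s (r - (i + 1))).coeff i := by ring
            _ ≤ _ := Nat.add_le_add_left hN _
      have h1 : (i + 2) * kc G U (i + 2) = ∑ v ∈ U, kc G (nb G U v) (i + 1) :=
        (kc_sum G U (i + 1)).symm
      have h2 : (r + s + 2) * ∑ v ∈ U, kc G (nb G U v) (i + 1)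
          ≤ n * ((i + 2) * E (r + s + 2) (r + 1) (i + 2)) := by
        rw [mul_sum]
        refine (sum_le_sum hall).trans (le_of_eq ?_)
        rw [sum_const, hU, smul_eq_mul]
      have h : (i + 2) * (kc G U (i + 2) * (r + s + 2))
          ≤ (i + 2) * (E (r + s + 2) (r + 1) (i + 2) * n) := by
        calc (i + 2) * (kc G U (i + 2) * (r + s + 2))
            = (r + s + 2) * ((i + 2) * kc G U (i + 2)) := by ring
          _ = (r + s + 2) * ∑ v ∈ U, kc G (nb G U v) (i + 1) := by rw [h1]
          _ ≤ n * ((i + 2) * E (r + s + 2) (r + 1) (i + 2)) := h2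
          _ = _ := by ring
      exact Nat.le_of_mul_le_mul_left h (Nat.succ_pos _)

end main2

end Pool.Agent.H23.KT
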