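import Pool.Agent.H23.KT.Base

/-!
# Triangles in graphs with a large clique number: local counting
-/

open Finset

namespace Pool.Agent.H23.KT

section nn

variable {V : Type*} [DecidableEq V] (G : SimpleGraph V)

open Classical in
/-- Non-neighbours of `x` in `β`, other than `x`. -/
noncomputable def nn (β : Finset V) (x : V) : Finset V := β.filter (fun y => y ≠ x ∧ ¬ G.Adj x y)

lemma mem_nn {β : Finset V} {x y : V} : y ∈ nn G β x ↔ y ∈ β ∧ y ≠ x ∧ ¬ G.Adj x y := by
  classical
  unfold nn
  rw [mem_filter]

lemma nb_add_nn {β : Finset V} {x : V} (hx : x ∈ β) :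
    (nb G β x).card + (nn G β x).card + 1 = β.card := by
  have h1 : nb G β x ∪ nn G β x = β.erase x := by
    ext y
    rw [mem_union, mem_nb, mem_nn, mem_erase]
    constructor
    · rintro (⟨h, h'⟩ | ⟨h, h', _⟩)
      · refine ⟨?_, h⟩
        rintro rfl
        exact G.loopless.irrefl y h'
      · exact ⟨h', h⟩
    · rintro ⟨h, h'⟩
      by_cases hadj : G.Adj x y
      · exact Or.inl ⟨h', hadj⟩
      · exact Or.inr ⟨h', h, hadj⟩
  have h2 : Disjoint (nb G β x) (nn G β x) := by
    rw [disjoint_left]
    intro y hy hy'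
    exact ((mem_nn G).1 hy').2.2 ((mem_nb G).1 hy).2
  rw [← card_union_of_disjoint h2, h1]
  exact card_erase_add_one hx

lemma mem_nn_comm {β : Finset V} {x y : V} (hx : x ∈ β) (hy : y ∈ β) :
    y ∈ nn G β x ↔ x ∈ nn G β y := by
  rw [mem_nn, mem_nn]
  constructor
  · rintro ⟨_, h, h'⟩
    exact ⟨hx, h.symm, fun h'' => h' h''.symm⟩
  · rintro ⟨_, h, h'⟩
    exact ⟨hy, h.symm, fun h'' => h' h''.symm⟩

/-- A clique which is large compared with the number of missing edges. -/
lemma cover (μ : ℕ) : ∀ (n : ℕ) (β : Finset V), β.card = n → (∀ z ∈ β, (nn G β z).card ≤ μ) →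
    ∃ I : Finset V, I ⊆ β ∧ G.IsClique (I : Set V) ∧
      2 * ∑ z ∈ β, (nn G β z).card * ((nn G β z).card - 1) + 6 * μ * (β \ I).card
        ≤ 3 * μ * ∑ z ∈ β, (nn G β z).card := by
  intro n
  induction n with
  | zero =>
    intro β hβ _
    refine ⟨∅, empty_subset _, by simp, ?_⟩
    rw [card_eq_zero] at hβ
    subst hβ
    simp
  | succ n ih =>
    intro β hβ hμ
    obtain ⟨z, hz, hmax⟩ := exists_max_image β (fun z => (nn G β z).card)
      (card_pos.1 (by omega))
    rcases Nat.eq_zero_or_pos (nn G β z).card with h0 | h0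
    · refine ⟨β, Subset.rfl, ?_, ?_⟩
      · intro x hx y hy hxy
        by_contra hadj
        have h1 := hmax x hx
        rw [h0] at h1
        have h2 : y ∈ nn G β x := (mem_nn G).2 ⟨hy, hxy.symm, hadj⟩
        have h3 := card_pos.2 ⟨y, h2⟩
        omega
      · rw [sdiff_self, Finset.bot_eq_empty, card_empty]
        have : ∑ z ∈ β, (nn G β z).card * ((nn G β z).card - 1) = 0 := by
          apply sum_eq_zero
          intro x hx
          have h1 := hmax x hx
          rw [h0] at h1
          have : (nn G β x).card = 0 := by omega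
          rw [this, zero_mul]
        rw [this]
        simp
    · -- remove `z`
      have hcase : ∀ w ∈ β.erase z, (w ∈ nn G β z → (nn G β w).card
          = (nn G (β.erase z) w).card + 1) ∧ (w ∉ nn G β z → (nn G β w).card
          = (nn G (β.erase z) w).card) := by
        intro w hw
        rw [mem_erase] at hw
        have h1 : nn G (β.erase z) w = (nn G β w).erase z := by
          ext y
          simp only [mem_nn, mem_erase]
          tauto
        constructor
        · intro h
          rw [h1]
          exact (card_erase_add_one ((mem_nn_comm G hz hw.2).1 h)).symm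
        · intro h
          rw [h1, erase_eq_of_notMem]
          intro h'
          exact h ((mem_nn_comm G hz hw.2).2 h')
      have hμ' : ∀ w ∈ β.erase z, (nn G (β.erase z) w).card ≤ μ := by
        intro w hw
        have h1 := hcase w hw
        have h2 := hμ w (mem_of_mem_erase hw)
        by_cases h : w ∈ nn G β z
        · have := h1.1 h
          omega
        · have := h1.2 h
          omega
      have hce := card_erase_add_one hz
      obtain ⟨I, hI, hIcl, hIH⟩ := ih (β.erase z) (by omega) hμ'
      refine ⟨I, hI.trans (erase_subset _ _), hIcl, ?_⟩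
      have hzI : z ∉ I := fun h => notMem_erase z β (hI h)
      have e1 : (β \ I).card = ((β.erase z) \ I).card + 1 := by
        have : (β.erase z) \ I = (β \ I).erase z := by
          ext y
          simp only [mem_sdiff, mem_erase]
          tauto
        rw [this]
        exact (card_erase_add_one (mem_sdiff.2 ⟨hz, hzI⟩)).symm
      have hsub : nn G β z ⊆ β.erase z := by
        intro y hy
        rw [mem_nn] at hy
        rw [mem_erase]
        exact ⟨hy.2.1, hy.1⟩
      have hind : ∑ w ∈ β.erase z, (if w ∈ nn G β z then 1 else 0) = (nn G β z).card := by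
        rw [← card_filter, filter_mem_eq_inter, inter_eq_right.2 hsub]
      have e2 : ∑ w ∈ β, (nn G β w).card
          = ∑ w ∈ β.erase z, (nn G (β.erase z) w).card + 2 * (nn G β z).card := by
        rw [← add_sum_erase _ _ hz]
        have : ∑ w ∈ β.erase z, (nn G β w).card = ∑ w ∈ β.erase z,
            ((nn G (β.erase z) w).card + if w ∈ nn G β z then 1 else 0) := by
          refine sum_congr rfl (fun w hw => ?_)
          by_cases h : w ∈ nn G β z
          · rw [(hcase w hw).1 h, if_pos h]
          · rw [(hcase w hw).2 h, if_neg h, add_zero]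
        rw [this, sum_add_distrib, hind]
        ring
      have e3 : ∑ w ∈ β, (nn G β w).card * ((nn G β w).card - 1)
          ≤ ∑ w ∈ β.erase z, (nn G (β.erase z) w).card * ((nn G (β.erase z) w).card - 1)
            + 3 * ((nn G β z).card * ((nn G β z).card - 1)) := by
        rw [← add_sum_erase _ _ hz]
        have : ∑ w ∈ β.erase z, (nn G β w).card * ((nn G β w).card - 1) ≤ ∑ w ∈ β.erase z,
            ((nn G (β.erase z) w).card * ((nn G (β.erase z) w).card - 1)
              + (if w ∈ nn G β z then 1 else 0) * (2 * ((nn G β z).card - 1))) := by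
          refine sum_le_sum (fun w hw => ?_)
          by_cases h : w ∈ nn G β z
          · have h1 := (hcase w hw).1 h
            have h2 := hmax w (mem_of_mem_erase hw)
            rw [h1, if_pos h, one_mul, Nat.add_sub_cancel]
            rw [h1] at h2
            generalize (nn G (β.erase z) w).card = k at *
            have h3 : k ≤ (nn G β z).card - 1 := by omega
            rcases k with _ | k
            · simp
            · rw [Nat.add_sub_cancel]
              nlinarith
          · rw [(hcase w hw).2 h, if_neg h]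
            omega
        rw [sum_add_distrib, ← sum_mul, hind] at this
        nlinarith
      rw [e1, e2]
      obtain ⟨k, hk⟩ : ∃ k, (nn G β z).card = k + 1 := ⟨(nn G β z).card - 1, by omega⟩
      have h4 := hμ z hz
      rw [hk, Nat.add_sub_cancel] at e3
      rw [hk] at h4 ⊢
      have h5 : (k + 1) * k ≤ μ * k := Nat.mul_le_mul_right _ h4
      nlinarith

/-- Common neighbours and common non-neighbours. -/
lemma nb_nb_card {β : Finset V} {z x : V} (hz : z ∈ β) (hx : x ∈ nb G β z) :
    (nb G (nb G β z) x).card + (nn G β z).card + (nn G β x).card + 2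
      = β.card + (nn G β z ∩ nn G β x).card := by
  have hzx := (mem_nb G).1 hx
  have h1 := nb_add_nn G hx
  have h2 := nb_add_nn G hz
  have h3 : nn G (nb G β z) x ∪ (nn G β z ∩ nn G β x) = nn G β x := by
    ext y
    simp only [mem_union, mem_inter, mem_nn, mem_nb]
    constructor
    · rintro (⟨⟨h, _⟩, h', h''⟩ | ⟨_, h⟩)
      · exact ⟨h, h', h''⟩
      · exact h
    · rintro ⟨h, h', h''⟩
      by_cases hadj : G.Adj z y
      · exact Or.inl ⟨⟨h, hadj⟩, h', h''⟩
      · refine Or.inr ⟨⟨h, ?_, hadj⟩, h, h', h''⟩
        rintro rfl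
        exact h'' hzx.2.symm
  have h4 : Disjoint (nn G (nb G β z) x) (nn G β z ∩ nn G β x) := by
    rw [disjoint_left]
    intro y hy hy'
    rw [mem_nn, mem_nb] at hy
    rw [mem_inter, mem_nn] at hy'
    exact hy'.1.2.2 hy.1.2
  have h5 := card_union_of_disjoint h4
  rw [h3] at h5
  omega

omit [DecidableEq V] in
lemma sum_nb_comm (β : Finset V) (f : V → ℕ) :
    ∑ z ∈ β, ∑ x ∈ nb G β z, f x = ∑ x ∈ β, (nb G β x).card * f x := by
  classical
  have h1 : ∀ z ∈ β, ∑ x ∈ nb G β z, f x = ∑ x ∈ β, if G.Adj z x then f x else 0 := by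
    intro z _
    unfold nb
    rw [sum_filter]
  rw [sum_congr rfl h1, sum_comm]
  refine sum_congr rfl (fun x _ => ?_)
  rw [← sum_filter, sum_const, smul_eq_mul]
  congr 2
  ext y
  rw [mem_filter, mem_nb, G.adj_comm]

/-- Number of ordered triangles inside `β`, in terms of the missing edges. -/
lemma inside {β : Finset V} {D : ℕ} (hβ : β.card = D + 1) :
    ∑ z ∈ β, ∑ x ∈ nb G β z, (nb G (nb G β z) x).card
      + 2 * ∑ z ∈ β, (nb G β z).card * (nn G β z).card + ∑ z ∈ β, (nb G β z).card
      ≤ D * ∑ z ∈ β, (nb G β z).card + ∑ z ∈ β, (nn G β z).card * ((nn G β z).card - 1) := by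
  classical
  have h1 : ∑ z ∈ β, ∑ x ∈ nb G β z, ((nb G (nb G β z) x).card + (nn G β z).card
      + (nn G β x).card + 1) = ∑ z ∈ β, ∑ x ∈ nb G β z, (D + (nn G β z ∩ nn G β x).card) := by
    refine sum_congr rfl (fun z hz => sum_congr rfl (fun x hx => ?_))
    have := nb_nb_card G hz hx
    omega
  have h2 : ∑ z ∈ β, ∑ x ∈ nb G β z, ((nb G (nb G β z) x).card + (nn G β z).card
      + (nn G β x).card + 1) = ∑ z ∈ β, ∑ x ∈ nb G β z, (nb G (nb G β z) x).card
      + 2 * ∑ z ∈ β, (nb G β z).card * (nn G β z).card + ∑ z ∈ β, (nb G β z).card := by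
    simp only [sum_add_distrib]
    rw [sum_nb_comm G β (fun x => (nn G β x).card)]
    simp only [sum_const, smul_eq_mul, mul_one]
    ring
  have h3 : ∑ z ∈ β, ∑ x ∈ nb G β z, (D + (nn G β z ∩ nn G β x).card)
      = D * ∑ z ∈ β, (nb G β z).card + ∑ z ∈ β, ∑ x ∈ nb G β z, (nn G β z ∩ nn G β x).card := by
    simp only [sum_add_distrib, sum_const, smul_eq_mul]
    rw [mul_sum]
    congr 1
    exact sum_congr rfl (fun z _ => mul_comm _ _)
  have h4 : ∑ z ∈ β, ∑ x ∈ nb G β z, (nn G β z ∩ nn G β x).card
      ≤ ∑ z ∈ β, (nn G β z).card * ((nn G β z).card - 1) := by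
    have e1 : ∀ z ∈ β, ∀ x ∈ β, (nn G β z ∩ nn G β x).card
        = ∑ w ∈ β, if (z ∈ nn G β w ∧ x ∈ nn G β w) then 1 else 0 := by
      intro z hz x hx
      rw [← card_filter]
      congr 1
      ext w
      rw [mem_inter, mem_filter]
      constructor
      · rintro ⟨h, h'⟩
        have hw := ((mem_nn G).1 h).1
        exact ⟨hw, (mem_nn_comm G hz hw).1 h, (mem_nn_comm G hx hw).1 h'⟩
      · rintro ⟨hw, h, h'⟩
        exact ⟨(mem_nn_comm G hz hw).2 h, (mem_nn_comm G hx hw).2 h'⟩
    have e2 : ∑ z ∈ β, ∑ x ∈ nb G β z, (nn G β z ∩ nn G β x).card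
        = ∑ w ∈ β, ∑ z ∈ β, ∑ x ∈ nb G β z, if (z ∈ nn G β w ∧ x ∈ nn G β w) then 1 else 0 := by
      rw [sum_comm (s := β) (t := β)]
      refine sum_congr rfl (fun z hz => ?_)
      rw [sum_comm]
      exact sum_congr rfl (fun x hx => e1 z hz x (nb_subset G β z hx))
    rw [e2]
    refine sum_le_sum (fun w _ => ?_)
    have e3 : ∑ z ∈ β, ∑ x ∈ nb G β z, (if (z ∈ nn G β w ∧ x ∈ nn G β w) then 1 else 0)
        ≤ ∑ z ∈ nn G β w, ((nn G β w).card - 1) := by
      have e4 : ∀ z ∈ β, ∑ x ∈ nb G β z, (if (z ∈ nn G β w ∧ x ∈ nn G β w) then 1 else 0)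
          ≤ if z ∈ nn G β w then ((nn G β w).card - 1) else 0 := by
        intro z _
        by_cases h : z ∈ nn G β w
        · rw [if_pos h, ← card_filter]
          have h5 : (nb G β z).filter (fun x => z ∈ nn G β w ∧ x ∈ nn G β w)
              ⊆ (nn G β w).erase z := by
            intro x hx
            rw [mem_filter] at hx
            rw [mem_erase]
            refine ⟨?_, hx.2.2⟩
            rintro rfl
            exact G.loopless.irrefl _ ((mem_nb G).1 hx.1).2
          have h6 := card_le_card h5
          have h7 := card_erase_add_one h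
          omega
        · rw [if_neg h]
          apply le_of_eq
          apply sum_eq_zero
          intro x _
          rw [if_neg (fun h' => h h'.1)]
      refine (sum_le_sum e4).trans (le_of_eq ?_)
      rw [← sum_filter]
      congr 1
      ext y
      rw [mem_filter]
      constructor
      · exact fun h => h.2
      · exact fun h => ⟨((mem_nn G).1 h).1, h⟩
    refine e3.trans (le_of_eq ?_)
    rw [sum_const, smul_eq_mul]
  rw [← h2, h1, h3]
  omega

end nn

end Pool.Agent.H23.KT
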