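import Pool.Agent.H23.KT.Block

/-!
# Redistribution of the triangles
-/

open Finset

set_option linter.unusedSectionVars false

namespace Pool.Agent.H23.KT

section weights

variable {V : Type*} [Fintype V] [DecidableEq V] (G : SimpleGraph V)

/-- `x` and `y` lie in a common block. -/
def same (D s : ℕ) (x y : V) : Prop := ∃ v, Bad G D s v ∧ x ∈ Nc G v ∧ y ∈ Nc G v

lemma same_symm {D s : ℕ} {x y : V} (h : same G D s x y) : same G D s y x := by
  obtain ⟨v, hv, hx, hy⟩ := h
  exact ⟨v, hv, hy, hx⟩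

open Classical in
/-- The weight of the ordered triangle `(z, x, y)` at `z`. -/
noncomputable def ww (D s : ℕ) (z x y : V) : ℕ :=
  if same G D s x y then (if same G D s z x then 1 else 3)
  else (if same G D s z x ∨ same G D s z y then 0 else 1)

/-- The total weight at `z`. -/
noncomputable def WT (D s : ℕ) (z : V) : ℕ :=
  ∑ x ∈ nb G univ z, ∑ y ∈ nb G (nb G univ z) x, ww G D s z x y

lemma rot (f : V → V → V → ℕ) : ∑ z, ∑ x, ∑ y, f x y z = ∑ z, ∑ x, ∑ y, f z x y := by
  rw [sum_comm]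
  refine sum_congr rfl (fun x _ => ?_)
  rw [sum_comm]

open Classical in
lemma sum_nb_nb (z : V) (f : V → V → ℕ) : ∑ x ∈ nb G univ z, ∑ y ∈ nb G (nb G univ z) x, f x y
    = ∑ x, ∑ y, (if G.Adj z x ∧ G.Adj z y ∧ G.Adj x y then 1 else 0) * f x y := by
  unfold nb
  rw [sum_filter]
  refine sum_congr rfl (fun x _ => ?_)
  by_cases h : G.Adj z x
  · rw [if_pos h, sum_filter, sum_filter]
    refine sum_congr rfl (fun y _ => ?_)
    by_cases h1 : G.Adj z y
    · by_cases h2 : G.Adj x y
      · simp [h, h1, h2]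
      · simp [h2]
    · simp [h1]
  · rw [if_neg h]
    symm
    apply sum_eq_zero
    intro y _
    rw [if_neg (fun h' => h h'.1), zero_mul]

variable {D s : ℕ} (hs : 1 ≤ s) (hD : 24 * s ≤ D) (hdeg : ∀ v, (nb G univ v).card ≤ D)

include hs hD hdeg

lemma same_trans {x y z : V} (h : same G D s x y) (h' : same G D s y z) : same G D s x z := by
  obtain ⟨v, hv, hx, hy⟩ := h
  obtain ⟨v', hv', hy', hz⟩ := h'
  have := block_eq G hs hD hdeg hv hv' hy hy'
  exact ⟨v, hv, hx, this ▸ hz⟩

lemma ww_rot (z x y : V) : ww G D s z x y + ww G D s x y z + ww G D s y z x = 3 := by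
  unfold ww
  by_cases h1 : same G D s x y
  · by_cases h2 : same G D s z x
    · have h3 := same_trans G hs hD hdeg h2 h1
      rw [if_pos h1, if_pos h2, if_pos (same_symm G h3), if_pos h1, if_pos h2,
        if_pos (same_symm G h3)]
    · have h3 : ¬ same G D s y z := fun h => h2 (same_symm G (same_trans G hs hD hdeg h1 h))
      rw [if_pos h1, if_neg h2, if_neg h3, if_pos (Or.inl h1), if_neg h2,
        if_pos (Or.inr (same_symm G h1))]
  · by_cases h2 : same G D s z x
    · have h3 : ¬ same G D s y z := fun h => h1 (same_symm G (same_trans G hs hD hdeg h h2))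
      rw [if_neg h1, if_pos (Or.inl h2), if_neg h3, if_pos (Or.inr (same_symm G h2)), if_pos h2,
        if_neg h3]
    · by_cases h3 : same G D s y z
      · rw [if_neg h1, if_pos (Or.inr (same_symm G h3)), if_pos h3, if_neg h1, if_neg h2,
          if_pos (Or.inl h3)]
      · have h1' : ¬ same G D s y x := fun h => h1 (same_symm G h)
        have h2' : ¬ same G D s x z := fun h => h2 (same_symm G h)
        have h3' : ¬ same G D s z y := fun h => h3 (same_symm G h)
        rw [if_neg h1, if_neg (not_or.2 ⟨h2, h3'⟩), if_neg h3, if_neg (not_or.2 ⟨h1, h2'⟩),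
          if_neg h2, if_neg (not_or.2 ⟨h3, h1'⟩)]

lemma sum_WT : ∑ z, WT G D s z = ∑ z, aa G z := by
  classical
  have h1 : ∀ z, WT G D s z = ∑ x, ∑ y, (if G.Adj z x ∧ G.Adj z y ∧ G.Adj x y then 1 else 0)
      * ww G D s z x y := fun z => sum_nb_nb G z _
  have h2 : ∀ z, aa G z = ∑ x, ∑ y, (if G.Adj z x ∧ G.Adj z y ∧ G.Adj x y then 1 else 0) * 1 := by
    intro z
    rw [← sum_nb_nb G z (fun _ _ => 1)]
    unfold aa
    simp
  simp only [h1, h2]
  set f : V → V → V → ℕ := fun z x y =>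
    (if G.Adj z x ∧ G.Adj z y ∧ G.Adj x y then 1 else 0) * ww G D s z x y with hf
  have e1 : ∑ z, ∑ x, ∑ y, f x y z = ∑ z, ∑ x, ∑ y, f z x y := rot f
  have e2 : ∑ z, ∑ x, ∑ y, f y z x = ∑ z, ∑ x, ∑ y, f x y z := rot (fun z x y => f x y z)
  have e3 : ∑ z, ∑ x, ∑ y, (f z x y + f x y z + f y z x)
      = ∑ z, ∑ x, ∑ y, 3 * ((if G.Adj z x ∧ G.Adj z y ∧ G.Adj x y then 1 else 0) * 1) := by
    refine sum_congr rfl (fun z _ => sum_congr rfl (fun x _ => sum_congr rfl (fun y _ => ?_)))
    have h3 := ww_rot G hs hD hdeg z x y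
    simp only [hf]
    have t1 : (G.Adj x y ∧ G.Adj x z ∧ G.Adj y z) ↔ (G.Adj z x ∧ G.Adj z y ∧ G.Adj x y) := by
      rw [G.adj_comm x z, G.adj_comm y z]
      tauto
    have t2 : (G.Adj y z ∧ G.Adj y x ∧ G.Adj z x) ↔ (G.Adj z x ∧ G.Adj z y ∧ G.Adj x y) := by
      rw [G.adj_comm y x, G.adj_comm y z]
      tauto
    simp only [t1, t2]
    split_ifs
    · omega
    · omega
  simp only [sum_add_distrib, ← mul_sum] at e3
  have e4 : ∑ z, ∑ x, ∑ y, f z x y + ∑ z, ∑ x, ∑ y, f x y z + ∑ z, ∑ x, ∑ y, f y z x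
      = 3 * ∑ z, ∑ x, ∑ y, f z x y := by
    rw [e2, e1]
    ring
  rw [e4] at e3
  exact Nat.eq_of_mul_eq_mul_left (by norm_num) e3

/-- Vertices outside all blocks. -/
lemma WT_out {z : V} (hz : ∀ v, Bad G D s v → z ∉ Nc G v) : WT G D s z + 6 * s ≤ D * (D - 1) := by
  classical
  have hns : ∀ x, ¬ same G D s z x := by
    rintro x ⟨v, hv, h, _⟩
    exact hz v hv h
  have hw : ∀ x y, ww G D s z x y = if same G D s x y then 3 else 1 := by
    intro x y
    unfold ww
    rw [if_neg (hns x), if_neg (not_or.2 ⟨hns x, hns y⟩)]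
  have hnb : ∀ x ∈ nb G univ z, (nb G (nb G univ z) x).card ≤ D - 1 := by
    intro x hx
    have h1 := card_nb_lt G hx
    have h2 := hdeg z
    omega
  have hfree : ∀ x, (∀ v, Bad G D s v → x ∉ Nc G v) → ∑ y ∈ nb G (nb G univ z) x, ww G D s z x y
      = (nb G (nb G univ z) x).card := by
    intro x hx
    rw [card_eq_sum_ones]
    refine sum_congr rfl (fun y _ => ?_)
    rw [hw, if_neg]
    rintro ⟨v, hv, h, _⟩
    exact hx v hv h
  have hblock : ∀ x ∈ nb G univ z, ∀ v, Bad G D s v → x ∈ Nc G v →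
      ∑ y ∈ nb G (nb G univ z) x, ww G D s z x y + 6 ≤ 18 * s := by
    intro x hx v hv hxv
    have h1 := common G hs hD hdeg hv hxv (hz v hv) ((mem_N G).1 hx)
    have h2 : ∑ y ∈ nb G (nb G univ z) x, ww G D s z x y
        ≤ ∑ y ∈ nb G (nb G univ z) x, 3 := by
      refine sum_le_sum (fun y _ => ?_)
      rw [hw]
      split_ifs <;> omega
    rw [sum_const, smul_eq_mul] at h2
    omega
  by_cases hA : ∀ x ∈ nb G univ z, ∀ v, Bad G D s v → x ∉ Nc G v
  · have h1 : WT G D s z = aa G z := sum_congr rfl (fun x hx => hfree x (hA x hx))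
    rw [h1]
    by_contra hcon
    exact hz z (by unfold Bad; omega) (self_mem_Nc G z)
  · push Not at hA
    obtain ⟨x0, hx0, v0, hv0, hxv0⟩ := hA
    have h1 : WT G D s z ≤ ((nb G univ z).card - 1) * (D - 1) + (18 * s - 6) := by
      unfold WT
      rw [← sum_erase_add _ _ hx0]
      have h2 := hblock x0 hx0 v0 hv0 hxv0
      have h3 : ∑ x ∈ (nb G univ z).erase x0, ∑ y ∈ nb G (nb G univ z) x, ww G D s z x y
          ≤ ((nb G univ z).card - 1) * (D - 1) := by
        rw [← card_erase_of_mem hx0, ← smul_eq_mul, ← sum_const]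
        refine sum_le_sum (fun x hx => ?_)
        rw [mem_erase] at hx
        by_cases hB : ∀ v, Bad G D s v → x ∉ Nc G v
        · rw [hfree x hB]
          exact hnb x hx.2
        · push Not at hB
          obtain ⟨v, hv, hxv⟩ := hB
          have := hblock x hx.2 v hv hxv
          omega
      omega
    have h2 : ((nb G univ z).card - 1) * (D - 1) ≤ (D - 1) * (D - 1) :=
      Nat.mul_le_mul_right _ (by have := hdeg z; omega)
    have h3 : D * (D - 1) = (D - 1) * (D - 1) + (D - 1) := by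
      obtain ⟨k, rfl⟩ : ∃ k, D = k + 1 := ⟨D - 1, by omega⟩
      rw [Nat.add_sub_cancel]
      ring
    omega

/-- The weight at a vertex of a block. -/
lemma WT_block_le {v z : V} (hv : Bad G D s v) (hz : z ∈ Nc G v) :
    WT G D s z ≤ ∑ x ∈ nb G (Nc G v) z, (nb G (nb G (Nc G v) z) x).card
      + 3 * ((nn G (Nc G v) z).card * ((nn G (Nc G v) z).card - 1)) := by
  classical
  have hsame : ∀ a ∈ Nc G v, ∀ x, same G D s a x ↔ x ∈ Nc G v := by
    intro a ha x
    constructor
    · rintro ⟨v', hv', h, h'⟩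
      rw [block_eq G hs hD hdeg hv hv' ha h]
      exact h'
    · intro h
      exact ⟨v, hv, ha, h⟩
  have hsplit : WT G D s z = ∑ x ∈ nb G (Nc G v) z, ∑ y ∈ nb G (nb G univ z) x, ww G D s z x y
      + ∑ x ∈ nb G univ z \ Nc G v, ∑ y ∈ nb G (nb G univ z) x, ww G D s z x y := by
    unfold WT
    have h1 : nb G univ z = nb G (Nc G v) z ∪ (nb G univ z \ Nc G v) := by
      ext y
      simp only [mem_union, mem_sdiff, mem_nb, mem_univ, true_and]
      tauto
    have h2 : Disjoint (nb G (Nc G v) z) (nb G univ z \ Nc G v) := by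
      rw [disjoint_left]
      intro y hy hy'
      exact (mem_sdiff.1 hy').2 (nb_subset G _ _ hy)
    conv_lhs => rw [h1]
    rw [sum_union h2]
    rw [← h1]
  rw [hsplit]
  apply Nat.add_le_add
  · refine sum_le_sum (fun x hx => ?_)
    have hxv := nb_subset G _ _ hx
    have h1 : ∀ y ∈ nb G (nb G univ z) x, ww G D s z x y = if y ∈ Nc G v then 1 else 0 := by
      intro y _
      unfold ww
      by_cases hy : y ∈ Nc G v
      · rw [if_pos ((hsame x hxv y).2 hy), if_pos ((hsame z hz x).2 hxv), if_pos hy]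
      · rw [if_neg (fun h => hy ((hsame x hxv y).1 h)), if_pos (Or.inl ((hsame z hz x).2 hxv)),
          if_neg hy]
    rw [sum_congr rfl h1, ← card_filter]
    apply card_le_card
    intro y hy
    rw [mem_filter, mem_nb, mem_N] at hy
    rw [mem_nb, mem_nb]
    exact ⟨⟨hy.2, hy.1.1⟩, hy.1.2⟩
  · have h1 : ∀ x ∈ nb G univ z \ Nc G v, ∑ y ∈ nb G (nb G univ z) x, ww G D s z x y
        ≤ 3 * ((nb G univ z \ Nc G v).card - 1) := by
      intro x hx
      have hxv := (mem_sdiff.1 hx).2
      have h2 : ∀ y ∈ nb G (nb G univ z) x, ww G D s z x y ≤ if y ∉ Nc G v then 3 else 0 := by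
        intro y _
        unfold ww
        have h3 : ¬ same G D s z x := fun h => hxv ((hsame z hz x).1 h)
        by_cases hy : y ∈ Nc G v
        · have h4 : ¬ same G D s x y := fun h => hxv ((hsame y hy x).1 (same_symm G h))
          rw [if_neg h4, if_pos (Or.inr ((hsame z hz y).2 hy))]
          exact Nat.zero_le _
        · rw [if_pos hy]
          split_ifs <;> omega
      refine (sum_le_sum h2).trans ?_
      rw [← sum_filter, sum_const, smul_eq_mul, mul_comm]
      apply Nat.mul_le_mul_left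
      have h5 : (nb G (nb G univ z) x).filter (fun y => y ∉ Nc G v)
          ⊆ (nb G univ z \ Nc G v).erase x := by
        intro y hy
        rw [mem_filter, mem_nb] at hy
        rw [mem_erase, mem_sdiff]
        refine ⟨?_, hy.1.1, hy.2⟩
        rintro rfl
        exact G.loopless.irrefl y hy.1.2
      have h6 := card_le_card h5
      rwa [card_erase_of_mem hx] at h6
    refine (sum_le_sum h1).trans ?_
    rw [sum_const, smul_eq_mul]
    have h2 := outside G hs hD hdeg hv hz
    have h3 : (nb G univ z \ Nc G v).card - 1 ≤ (nn G (Nc G v) z).card - 1 := by omega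
    calc (nb G univ z \ Nc G v).card * (3 * ((nb G univ z \ Nc G v).card - 1))
        = 3 * ((nb G univ z \ Nc G v).card * ((nb G univ z \ Nc G v).card - 1)) := by ring
      _ ≤ _ := Nat.mul_le_mul_left _ (Nat.mul_le_mul h2 h3)

/-- The total weight of a block. -/
lemma WT_block (hω : ∀ I : Finset V, G.IsClique (I : Set V) → I.card + s ≤ D + 1) {v : V}
    (hv : Bad G D s v) :
    ∑ z ∈ Nc G v, WT G D s z + 6 * s * (D - 1) ≤ (D + 1) * D * (D - 1) := by
  have hcard := Bad.Nc_card G hs hD hdeg hv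
  have hsum := Bad.sum_nn G hs hD hdeg hv
  have h1 : ∑ z ∈ Nc G v, WT G D s z
      ≤ ∑ z ∈ Nc G v, ∑ x ∈ nb G (Nc G v) z, (nb G (nb G (Nc G v) z) x).card
      + 3 * ∑ z ∈ Nc G v, ((nn G (Nc G v) z).card * ((nn G (Nc G v) z).card - 1)) := by
    rw [mul_sum, ← sum_add_distrib]
    exact sum_le_sum (fun z hz => WT_block_le G hs hD hdeg hv hz)
  have h2 := inside G hcard
  obtain ⟨I, hI, hIcl, hcov⟩ := cover G (6 * s) _ (Nc G v) rfl (by
    intro z hz
    have := single_le_sum (f := fun z => (nn G (Nc G v) z).card) (fun _ _ => Nat.zero_le _) hz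
    omega)
  have h3 := hω I hIcl
  have h4 := card_sdiff_add_card_eq_card hI
  have h5 : ∑ z ∈ Nc G v, (nb G (Nc G v) z).card + ∑ z ∈ Nc G v, (nn G (Nc G v) z).card
      = (D + 1) * D := by
    rw [← sum_add_distrib]
    have : ∀ z ∈ Nc G v, (nb G (Nc G v) z).card + (nn G (Nc G v) z).card = D := by
      intro z hz
      have := nb_add_nn G hz
      omega
    rw [sum_congr rfl this, sum_const, hcard, smul_eq_mul]
  have h6 : ∑ z ∈ Nc G v, (nb G (Nc G v) z).card * (nn G (Nc G v) z).card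
      + ∑ z ∈ Nc G v, ((nn G (Nc G v) z).card * ((nn G (Nc G v) z).card - 1))
      + ∑ z ∈ Nc G v, (nn G (Nc G v) z).card = D * ∑ z ∈ Nc G v, (nn G (Nc G v) z).card := by
    rw [← sum_add_distrib, ← sum_add_distrib, mul_sum]
    refine sum_congr rfl (fun z hz => ?_)
    have := nb_add_nn G hz
    have h7 : (nb G (Nc G v) z).card + (nn G (Nc G v) z).card = D := by omega
    rw [← h7]
    generalize (nn G (Nc G v) z).card = m
    rcases m with _ | m
    · simp
    · rw [Nat.add_sub_cancel]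
      ring
  generalize ∑ z ∈ Nc G v, WT G D s z = S at *
  generalize ∑ z ∈ Nc G v, ∑ x ∈ nb G (Nc G v) z, (nb G (nb G (Nc G v) z) x).card = A at *
  generalize ∑ z ∈ Nc G v, ((nn G (Nc G v) z).card * ((nn G (Nc G v) z).card - 1)) = Q at *
  generalize ∑ z ∈ Nc G v, (nb G (Nc G v) z).card * (nn G (Nc G v) z).card = NM at *
  generalize ∑ z ∈ Nc G v, (nb G (Nc G v) z).card = N at *
  generalize ∑ z ∈ Nc G v, (nn G (Nc G v) z).card = M at *
  generalize (Nc G v \ I).card = c at *
  obtain ⟨k, rfl⟩ : ∃ k, D = k + 1 := ⟨D - 1, by omega⟩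
  rw [Nat.add_sub_cancel]
  have hc : s ≤ c := by omega
  have hk : 18 * s ≤ k := by omega
  have h7 : 2 * Q + 36 * s * s ≤ 18 * s * M := by
    have : 36 * s * s ≤ 6 * (6 * s) * c := by nlinarith
    nlinarith
  have hM : 2 * s ≤ M := by
    by_contra hlt
    push Not at hlt
    have : 18 * s * M < 36 * s * s := by nlinarith
    omega
  zify at *
  nlinarith [mul_nonneg (sub_nonneg.2 hk) (sub_nonneg.2 hM)]

end weights

end Pool.Agent.H23.KT
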